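import Pool.Agent.Helper44.S3.CJ
import Pool.Agent.Helper44.S3.Defs2
import Pool.Agent.Helper36.NB.Inv

/-!
# Sums of the coefficients at squares
-/

set_option autoImplicit false
open scoped BigOperators MonoidAlgebra
open Classical

namespace Pool.Agent.Helper36.NC

open Pool.Agent.Helper36.NB Pool.Agent.Helper44.S3

variable {R : Type} [CommRing R] {G : Type} [Group G] [Fintype G]

theorem coeff_mul_all (a b : MonoidAlgebra R G) (g : G) :
    (a * b).coeff g = ∑ x : G, a.coeff x * b.coeff (x⁻¹ * g) := by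
  have h1 : a = ∑ x : G, a.coeff x • el R x := by
    ext y
    rw [MonoidAlgebra.coeff_sum, Finsupp.finset_sum_apply, Finset.sum_eq_single y]
    · rw [MonoidAlgebra.coeff_smul, Finsupp.smul_apply, el_coeff, if_pos rfl, smul_eq_mul, mul_one]
    · intro z _ hz
      rw [MonoidAlgebra.coeff_smul, Finsupp.smul_apply, el_coeff, if_neg hz, smul_eq_mul, mul_zero]
    · intro h
      exact absurd (Finset.mem_univ y) h
  conv_lhs => rw [h1, Finset.sum_mul, MonoidAlgebra.coeff_sum, Finsupp.finset_sum_apply]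
  refine Finset.sum_congr rfl fun x _ => ?_
  rw [smul_mul_assoc, MonoidAlgebra.coeff_smul, Finsupp.smul_apply, el_mul_coeff, smul_eq_mul]

/-- The substitution `k = x k'`. -/
theorem sum_sq (N : Subgroup G) {F : MonoidAlgebra R G} (hF : F * F = F)
    (hFs : ∀ g, g ∉ N → F.coeff g = 0) (A : Finset G) (hA : ∀ x ∈ N, ∀ k, x * k ∈ A ↔ k ∈ A) :
    ∑ k ∈ A, F.coeff (k * k) = ∑ k ∈ A, (inv' F * cj k⁻¹ F).coeff (k * k) := by
  have h1 : ∀ k ∈ A, F.coeff (k * k) = ∑ x : G, F.coeff x * F.coeff (x⁻¹ * (k * k)) := by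
    intro k _
    conv_lhs => rw [← hF]
    exact coeff_mul_all F F (k * k)
  have h2 : ∀ k ∈ A, (inv' F * cj k⁻¹ F).coeff (k * k) =
      ∑ x : G, F.coeff x * F.coeff (k * x * k) := by
    intro k _
    rw [coeff_mul_all]
    refine Finset.sum_bij' (fun x _ => x⁻¹) (fun x _ => x⁻¹) (fun _ _ => Finset.mem_univ _)
      (fun _ _ => Finset.mem_univ _) (fun x _ => inv_inv x) (fun x _ => inv_inv x) ?_
    intro x _
    rw [inv'_coeff, cj_coeff]
    congr 2
    group
  rw [Finset.sum_congr rfl h1, Finset.sum_congr rfl h2, Finset.sum_comm]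
  rw [Finset.sum_comm (s := A)]
  refine Finset.sum_congr rfl fun x _ => ?_
  by_cases hx : x ∈ N
  · refine Finset.sum_bij' (fun k _ => x⁻¹ * k) (fun k _ => x * k) ?_ ?_ ?_ ?_ ?_
    · intro k hk
      exact (hA x⁻¹ (N.inv_mem hx) k).2 hk
    · intro k hk
      exact (hA x hx k).2 hk
    · intro k _
      exact mul_inv_cancel_left x k
    · intro k _
      exact inv_mul_cancel_left x k
    · intro k _
      congr 2
      group
  · refine Finset.sum_congr rfl fun k _ => ?_
    rw [hFs x hx, zero_mul, zero_mul]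

/-- The vanishing lemma. -/
theorem sum_sq_zero (N : Subgroup G) {F : MonoidAlgebra R G} (hF : F * F = F)
    (hFs : ∀ g, g ∉ N → F.coeff g = 0) (A : Finset G) (hA : ∀ x ∈ N, ∀ k, x * k ∈ A ↔ k ∈ A)
    (h0 : ∀ k ∈ A, inv' F * cj k⁻¹ F = 0) : ∑ k ∈ A, F.coeff (k * k) = 0 := by
  rw [sum_sq N hF hFs A hA]
  refine Finset.sum_eq_zero fun k hk => ?_
  rw [h0 k hk]
  rfl

/-- The sum over a set invariant under inversion. -/
theorem sum_inv (F : MonoidAlgebra R G) (A : Finset G) (hA : ∀ k, k⁻¹ ∈ A ↔ k ∈ A) :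
    ∑ k ∈ A, (inv' F).coeff (k * k) = ∑ k ∈ A, F.coeff (k * k) := by
  refine Finset.sum_bij' (fun k _ => k⁻¹) (fun k _ => k⁻¹) ?_ ?_ ?_ ?_ ?_
  · intro k hk
    exact (hA k).2 hk
  · intro k hk
    exact (hA k).2 hk
  · intro k _
    exact inv_inv k
  · intro k _
    exact inv_inv k
  · intro k _
    rw [inv'_coeff, mul_inv_rev]

end Pool.Agent.Helper36.NC
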