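import Pool.Agent.Helper36.NC.N5
import Pool.Agent.Helper32.NO.Orb
import Pool.Agent.Helper44.NO.P11

/-!
# The orbit-wise identity from the level data, and the transfer to the quotients
-/

set_option autoImplicit false
open scoped BigOperators MonoidAlgebra
open Classical

set_option linter.unusedSectionVars false

namespace Pool.Agent.Helper36.NC

open Pool.Agent.Helper36.NB Pool.Agent.Helper44.S3 Pool.Agent.Helper32.ND
open Pool.Agent.Helper32.NO (Lev wsum ClassFun NilpotentPairs main_le orb_of_wsum wsum_add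
  coset_card prR)
open Pool.Agent.Helper28.NO (total)
open Pool.Agent.Helper44.NO (quot_block block_of_simple toK_pr exists_S1 prR_surj)

variable {O : ValuationSubring ℂ} {G : Type} [Group G] [Fintype G]

theorem card_coset {x : G} {D E : Subgroup G} (h : IsDefectPair x D E) {t : G} (ht : t ∈ E)
    (ht' : t ∉ D) : Nat.card {u : G // u ∈ D ∧ t * u * (t * u) = 1} =
      Nat.card {y : G // y ∈ E ∧ y ∉ D ∧ y * y = 1} := by
  refine Nat.card_congr
    { toFun := fun u => ⟨t * u.1, E.mul_mem ht (h.1 u.2.1), fun hh => ht' ?_, u.2.2⟩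
      invFun := fun y => ⟨t⁻¹ * y.1, t_mul_mem h ht ht' y.2.1 y.2.2.1, ?_⟩
      left_inv := ?_
      right_inv := ?_ }
  · have h1 := D.mul_mem hh (D.inv_mem u.2.1)
    rwa [mul_inv_cancel_right] at h1
  · have h1 : t * (t⁻¹ * y.1) = y.1 := by group
    rw [h1]
    exact y.2.2.2
  · intro u
    apply Subtype.ext
    change t⁻¹ * (t * u.1) = u.1
    group
  · intro y
    apply Subtype.ext
    change t * (t⁻¹ * y.1) = y.1
    group

/-- The orbit-wise identity from the level data. -/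
theorem orb_of_lev (h2 : (2 : O) ∈ IsLocalRing.maximalIdeal O) {e : MonoidAlgebra O G}
    {S : SimpleQuot (toK O G e)} {x : G} {D E : Subgroup G} (hDE : IsDefectPair x D E)
    {t : G} (ht : t ∈ E) (ht' : t ∉ D) {q : MonoidAlgebra (resK O) G} (hL : Lev O D t e S q)
    (u : G) (hu : u * u = 1) : Orb O e S.n D E u := by
  obtain ⟨j, hj, hje, hj1⟩ := exists_rank_one O e hL.ee hL.ec S
  have hprim := Pool.Agent.Helper36.NC.prim_of_rank_one O S hj hje hj1
  have hn0 : (S.n : ℂ) ≠ 0 := Nat.cast_ne_zero.2 S.pos.ne'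
  have htot : (∑ g : G, pim O j (g * g)) / (Nat.card G : ℂ) =
      (Nat.card {y : G // y ∈ E ∧ y ∉ D ∧ y * y = 1} : ℂ) := by
    have h1 := sum_coeff_pim O e hL.ee hL.ec S j hprim hje
    rw [total_lev h2 hL] at h1
    rw [mul_left_cancel₀ hn0 h1, card_coset hDE ht ht']
  rw [total h2 e hL.ee hL.ec S j hprim hje] at htot
  -- the two class functions
  have hc1 : ClassFun (fun v : G => if IsConj u v then 1 else 0) := by
    intro g v
    refine if_congr ?_ rfl rfl
    exact ⟨fun h => h.trans (isConj_iff.2 ⟨g⁻¹, by group⟩),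
      fun h => h.trans (isConj_iff.2 ⟨g, rfl⟩)⟩
  have hsq : ∀ g v : G, (g * v * g⁻¹) * (g * v * g⁻¹) = 1 ↔ v * v = 1 := by
    intro g v
    have h5 : (g * v * g⁻¹) * (g * v * g⁻¹) = g * (v * v) * g⁻¹ := by group
    rw [h5]
    constructor
    · intro h
      calc v * v = g⁻¹ * (g * (v * v) * g⁻¹) * g := by group
        _ = 1 := by rw [h]; group
    · intro h
      rw [h]; group
  have hc2 : ClassFun (fun v : G => if v * v = 1 ∧ ¬ IsConj u v then 1 else 0) := by
    intro g v
    refine if_congr ?_ rfl rfl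
    rw [hsq]
    refine and_congr Iff.rfl (not_congr ?_)
    exact ⟨fun h => h.trans (isConj_iff.2 ⟨g⁻¹, by group⟩),
      fun h => h.trans (isConj_iff.2 ⟨g, rfl⟩)⟩
  obtain ⟨M1, hM1, hN1⟩ := main_le O h2 _ G D t e S q hL le_rfl j hj hje hj1 _ hc1
  obtain ⟨M2, hM2, hN2⟩ := main_le O h2 _ G D t e S q hL le_rfl j hj hje hj1 _ hc2
  have hadd : wsum O (fun v : G => if v * v = 1 then 1 else 0) j = (M1 : ℂ) + M2 := by
    rw [← hM1, ← hM2, ← wsum_add]
    congr 1
    funext v
    by_cases h1 : IsConj u v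
    · obtain ⟨g, hg⟩ := isConj_iff.1 h1
      have h3 : v * v = 1 := by
        rw [← hg]
        exact (hsq g u).2 hu
      rw [if_pos h3, if_pos h1, if_neg (fun h => h.2 h1)]
    · by_cases h3 : v * v = 1
      · rw [if_pos h3, if_neg h1, if_pos ⟨h3, h1⟩]
      · rw [if_neg h3, if_neg h1, if_neg (fun h => h3 h.1)]
  have hN1' := coset_card hDE ht ht' (fun v => IsConj u v)
  have hN2' := coset_card hDE ht ht' (fun v => v * v = 1 ∧ ¬ IsConj u v)
  have hN' := coset_card hDE ht ht' (fun v => v * v = 1)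
  have hsum : Nat.card {y : G // y ∈ E ∧ y ∉ D ∧ IsConj u y} +
      Nat.card {y : G // y ∈ E ∧ y ∉ D ∧ (y * y = 1 ∧ ¬ IsConj u y)} =
      Nat.card {y : G // y ∈ E ∧ y ∉ D ∧ y * y = 1} := by
    rw [← hN1', ← hN2', ← hN', ← Finset.sum_add_distrib]
    apply Finset.sum_congr rfl
    intro y _
    by_cases h1 : IsConj u (t * y)
    · obtain ⟨g, hg⟩ := isConj_iff.1 h1
      have h3 : (t * (y : G)) * (t * y) = 1 := by
        rw [← hg]
        exact (hsq g u).2 hu
      rw [if_pos h3, if_pos h1, if_neg (fun h => h.2 h1)]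
    · by_cases h3 : (t * (y : G)) * (t * y) = 1
      · rw [if_pos h3, if_neg h1, if_pos ⟨h3, h1⟩]
      · rw [if_neg h3, if_neg h1, if_neg (fun h => h3 h.1)]
  have htot' : M1 + M2 = Nat.card {y : G // y ∈ E ∧ y ∉ D ∧ y * y = 1} := by
    rw [hadd] at htot
    exact_mod_cast htot
  have hM1N : M1 = Nat.card {y : G // y ∈ E ∧ y ∉ D ∧ IsConj u y} := by
    have hN1'' : Nat.card {y : G // y ∈ E ∧ y ∉ D ∧ IsConj u y} ≤ M1 := by
      rw [← hN1']; convert hN1
    have hN2'' : Nat.card {y : G // y ∈ E ∧ y ∉ D ∧ (y * y = 1 ∧ ¬ IsConj u y)} ≤ M2 := by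
      rw [← hN2']; convert hN2
    omega
  apply orb_of_wsum h2 e hL.ee hL.ec S j hj hje hj1 D E u
  rw [hM1, hM1N]


end Pool.Agent.Helper36.NC
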