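import Pool.Agent.Helper44.S3.Defs2
import Pool.Agent.Helper44.S3.UB
import Pool.Agent.Helper44.S3.CB
import Pool.Agent.Helper44.S3.CJ
import Pool.Agent.Helper36.NB.Inv

/-!
# Blocks over a block of a normal subgroup: the star action on the multiplicity algebra
-/

set_option autoImplicit false
open scoped BigOperators MonoidAlgebra
open Classical

namespace Pool.Agent.Helper36.NC

open Pool.Agent.Helper36.NB Pool.Agent.Helper44.S3

/-- The image of `k[N] f` in the matrix algebra of `S` is a full matrix algebra. -/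
structure RBlk {k : Type} [Field k] {G : Type} [Group G] {e : MonoidAlgebra k G}
    (S : SimpleQuot e) (N : Subgroup G) (f : MonoidAlgebra k G) (a : ℕ) where
  φ : Mt k a →ₗ[k] Mt k S.n
  mul : ∀ x y, φ (x * y) = φ x * φ y
  one : φ 1 = S.ρ f
  supp : ∀ x, ∃ c : MonoidAlgebra k G, (∀ g, g ∉ N → c.coeff g = 0) ∧ f * c = c ∧ c * f = c ∧
    S.ρ c = φ x
  range : ∀ c : MonoidAlgebra k G, (∀ g, g ∉ N → c.coeff g = 0) → ∃ x, φ x = S.ρ (c * f)

theorem incl_smul {k : Type} [Field k] {G : Type} [Group G] (N : Subgroup G) (r : k)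
    (y : MonoidAlgebra k N) : incl k N (r • y) = r • incl k N y := by
  ext g
  by_cases hg : g ∈ N
  · have h1 := incl_coeff N (r • y) ⟨g, hg⟩
    have h2 := incl_coeff N y ⟨g, hg⟩
    change (incl k N (r • y)).coeff g = _ at h1
    change (incl k N y).coeff g = _ at h2
    rw [h1, MonoidAlgebra.coeff_smul, MonoidAlgebra.coeff_smul, Finsupp.smul_apply,
      Finsupp.smul_apply, h2]
  · rw [incl_supp N _ hg, MonoidAlgebra.coeff_smul, Finsupp.smul_apply, incl_supp N _ hg,
      smul_zero]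

/-- Conjugates of elements of `k[N]`. -/
theorem cj_incl {k : Type} [Field k] {G : Type} [Group G] {N : Subgroup G} (hN : N.Normal)
    (g : G) (y : MonoidAlgebra k N) : ∃ y', cj g (incl k N y) = incl k N y' := by
  refine ⟨res N (cj g (incl k N y)), ?_⟩
  rw [Pool.Agent.Helper44.S3.incl_res]
  intro x hx
  rw [cj_coeff, incl_supp N]
  intro hcon
  apply hx
  have := hN.conj_mem _ hcon g
  have h3 : g * (g⁻¹ * x * g) * g⁻¹ = x := by group
  rwa [h3] at this

theorem cj_pow {k : Type} [Field k] {G : Type} [Group G] (g : G) (a : MonoidAlgebra k G)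
    (n : ℕ) : cj g (a ^ n) = cj g a ^ n := by
  induction n with
  | zero =>
    rw [pow_zero, pow_zero]
    unfold cj
    rw [mul_one, el_mul_el_inv]
  | succ n ih => rw [pow_succ, cj_mul, ih, pow_succ]

/-- The kernel of the simple quotient of a block of a normal subgroup acts as zero. -/
theorem kill {k : Type} [Field k] {G : Type} [Group G] {e : MonoidAlgebra k G}
    (S : SimpleQuot e) {N : Subgroup G} (hN : N.Normal) {b : MonoidAlgebra k N}
    (Sb : SimpleQuot b) (y : MonoidAlgebra k N) (hy : Sb.ρ y = 0) :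
    S.ρ (incl k N (y * b)) = 0 := by
  -- stable subspaces
  let P : Submodule k (Fin S.n → k) → Prop := fun U => U ≠ ⊥ ∧
    ∀ c : MonoidAlgebra k N, ∀ v ∈ U, Matrix.mulVec (S.ρ (incl k N c)) v ∈ U
  have hpos := S.pos
  have hP : P ⊤ := by
    refine ⟨?_, fun c v _ => Submodule.mem_top⟩
    have : Nonempty (Fin S.n) := ⟨⟨0, hpos⟩⟩
    exact top_ne_bot
  obtain ⟨U, hU, hmin⟩ : ∃ U, P U ∧ ∀ U', P U' → U' ≤ U → U' = U := by
    have hwf : WellFounded (fun a b : Submodule k (Fin S.n → k) => a < b) :=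
      wellFounded_lt
    obtain ⟨U, hU, hm⟩ := hwf.has_min {U | P U} ⟨⊤, hP⟩
    refine ⟨U, hU, fun U' hU' hle => ?_⟩
    by_contra hne
    exact hm U' hU' (lt_of_le_of_ne hle hne)
  -- `U` is killed by all conjugates
  have hkill : ∀ g : G, ∀ y : MonoidAlgebra k N, Sb.ρ y = 0 → ∀ v ∈ U,
      Matrix.mulVec (S.ρ (cj g (incl k N (y * b)))) v = 0 := by
    intro g y hy v hv
    by_contra hne
    let L : LinearMap.ker Sb.ρ.toLinearMap →ₗ[k] (Fin S.n → k) :=
      { toFun := fun y => Matrix.mulVec (S.ρ (cj g (incl k N ((y : MonoidAlgebra k N) * b)))) v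
        map_add' := by
          intro y y'
          simp only [Submodule.coe_add, add_mul, map_add, cj_add, Matrix.add_mulVec]
        map_smul' := by
          intro r y
          simp only [Submodule.coe_smul, smul_mul_assoc, incl_smul, cj_smul, map_smul,
            Matrix.smul_mulVec, RingHom.id_apply] }
    have hL : ∀ y, L y = Matrix.mulVec (S.ρ (cj g (incl k N ((y : MonoidAlgebra k N) * b)))) v :=
      fun y => rfl
    have hPL : P (LinearMap.range L) := by
      refine ⟨?_, ?_⟩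
      · intro hbot
        apply hne
        have h1 : L ⟨y, hy⟩ ∈ LinearMap.range L := ⟨_, rfl⟩
        rw [hbot] at h1
        exact (Submodule.mem_bot k).1 h1
      · rintro c _ ⟨y', rfl⟩
        obtain ⟨c', hc'⟩ := cj_incl hN g⁻¹ c
        have h1 : cj g (incl k N c') = incl k N c := by
          rw [← hc', cj_cj, mul_inv_cancel, cj_one]
        refine ⟨⟨c' * (y' : MonoidAlgebra k N), ?_⟩, ?_⟩
        · have h2 : Sb.ρ (y' : MonoidAlgebra k N) = 0 := y'.2
          change Sb.ρ (c' * (y' : MonoidAlgebra k N)) = 0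
          rw [map_mul, h2, mul_zero]
        · rw [hL, hL, Matrix.mulVec_mulVec, ← map_mul S.ρ, ← h1, ← cj_mul,
            ← map_mul (incl k N)]
          change Matrix.mulVec (S.ρ (cj g (incl k N (c' * (y' : MonoidAlgebra k N) * b)))) v = _
          rw [mul_assoc]
    have hle : LinearMap.range L ≤ U := by
      rintro _ ⟨y', rfl⟩
      rw [hL]
      obtain ⟨c', hc'⟩ := cj_incl hN g ((y' : MonoidAlgebra k N) * b)
      rw [hc']
      exact hU.2 c' v hv
    have heq := hmin _ hPL hle
    rw [← heq] at hv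
    obtain ⟨y', hy'⟩ := hv
    rw [hL] at hy'
    obtain ⟨r, hr⟩ := Sb.nil (y' : MonoidAlgebra k N) y'.2
    set M := S.ρ (cj g (incl k N ((y' : MonoidAlgebra k N) * b))) with hM
    have hMr : M ^ r = 0 := by
      rw [hM, ← map_pow, ← cj_pow, ← map_pow, hr, map_zero]
      unfold cj
      rw [mul_zero, zero_mul, map_zero]
    have hv0 : ∀ r : ℕ, Matrix.mulVec (M ^ r) v = v := by
      intro r
      induction r with
      | zero => rw [pow_zero, Matrix.one_mulVec]
      | succ r ih => rw [pow_succ, ← Matrix.mulVec_mulVec, hy', ih]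
    have h0 := hv0 r
    rw [hMr, Matrix.zero_mulVec] at h0
    apply hne
    rw [← h0, Matrix.mulVec_zero]
  -- the set killed by all conjugates is everything
  obtain ⟨v0, hv0U, hv0⟩ := (Submodule.ne_bot_iff U).1 hU.1
  have hall : ∀ w : Fin S.n → k, Matrix.mulVec (S.ρ (incl k N (y * b))) w = 0 := by
    intro w
    -- the vectors `S.ρ c v0`
    have h1 : ∀ c : MonoidAlgebra k G,
        Matrix.mulVec (S.ρ (incl k N (y * b))) (Matrix.mulVec (S.ρ c) v0) = 0 := by
      intro c
      rw [Matrix.mulVec_mulVec, ← map_mul]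
      induction c using MonoidAlgebra.induction_linear with
      | zero => rw [mul_zero, map_zero, Matrix.zero_mulVec]
      | add c c' h h' => rw [mul_add, map_add, Matrix.add_mulVec, h, h', add_zero]
      | single g r =>
        have h2 : (MonoidAlgebra.single g r : MonoidAlgebra k G) = r • el k g := by
          simp [el]
        have h3 : incl k N (y * b) * el k g = el k g * cj g⁻¹ (incl k N (y * b)) := by
          unfold cj
          rw [inv_inv, mul_assoc, ← mul_assoc (el k g), el_mul_el_inv, one_mul]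
        rw [h2, mul_smul_comm, map_smul, h3, map_mul, Matrix.smul_mulVec,
          ← Matrix.mulVec_mulVec, hkill g⁻¹ y hy v0 hv0U, Matrix.mulVec_zero, smul_zero]
    obtain ⟨i, hi⟩ : ∃ i, v0 i ≠ 0 := by
      by_contra hcon
      push Not at hcon
      exact hv0 (funext hcon)
    obtain ⟨c, hc⟩ := S.surj (Matrix.of fun j l => if l = i then w j * (v0 i)⁻¹ else 0)
    have h4 := h1 c
    rw [hc] at h4
    have h5 : Matrix.mulVec (Matrix.of fun j l => if l = i then w j * (v0 i)⁻¹ else 0) v0 = w := by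
      funext j
      simp [Matrix.mulVec, dotProduct, hi]
    rwa [h5] at h4
  ext i j
  have h6 := congrFun (hall (Pi.single j 1)) i
  rw [Matrix.mulVec_single_one] at h6
  simpa using h6

/-- The matrix block of `k[N] b` in a simple quotient of `k[G]`. -/
theorem exists_rblk {k : Type} [Field k] {G : Type} [Group G] {e : MonoidAlgebra k G}
    (S : SimpleQuot e) {N : Subgroup G} (hN : N.Normal) {b : MonoidAlgebra k N}
    (hb : b * b = b) (hbc : ∀ a, a * b = b * a) (Sb : SimpleQuot b) :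
    Nonempty (RBlk S N (incl k N b) Sb.n) := by
  obtain ⟨s, hs⟩ := LinearMap.exists_rightInverse_of_surjective Sb.ρ.toLinearMap
    (LinearMap.range_eq_top.2 Sb.surj)
  have hs' : ∀ x, Sb.ρ (s x) = x := fun x => LinearMap.congr_fun hs x
  have key : ∀ y y' : MonoidAlgebra k N, Sb.ρ y = Sb.ρ y' →
      S.ρ (incl k N (y * b)) = S.ρ (incl k N (y' * b)) := by
    intro y y' h
    have h1 := kill S hN Sb (y - y') (by rw [map_sub, h, sub_self])
    rw [sub_mul, map_sub, map_sub, sub_eq_zero] at h1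
    exact h1
  refine ⟨{ φ := { toFun := fun x => S.ρ (incl k N (s x * b)),
                   map_add' := ?_, map_smul' := ?_ },
            mul := ?_, one := ?_, supp := ?_, range := ?_ }⟩
  · intro x y
    rw [map_add, add_mul, map_add, map_add]
  · intro r x
    rw [map_smul, smul_mul_assoc, incl_smul, map_smul, RingHom.id_apply]
  · intro x y
    change S.ρ (incl k N (s (x * y) * b)) = S.ρ (incl k N (s x * b)) * S.ρ (incl k N (s y * b))
    rw [key (s (x * y)) (s x * s y) (by rw [hs', map_mul Sb.ρ, hs', hs']), ← map_mul S.ρ,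
      ← map_mul (incl k N)]
    congr 2
    calc s x * s y * b = s x * s y * (b * b) := by rw [hb]
      _ = s x * (s y * b) * b := by simp only [mul_assoc]
      _ = s x * (b * s y) * b := by rw [hbc (s y)]
      _ = _ := by simp only [mul_assoc]
  · change S.ρ (incl k N (s 1 * b)) = _
    rw [key (s 1) 1 (by rw [hs', map_one]), one_mul]
  · intro x
    refine ⟨incl k N (s x * b), fun g hg => incl_supp N _ hg, ?_, ?_, rfl⟩
    · rw [← map_mul, ← mul_assoc, ← hbc, mul_assoc, hb]
    · rw [← map_mul, mul_assoc, hb]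
  · intro c hc
    refine ⟨Sb.ρ (res N c), ?_⟩
    change S.ρ (incl k N (s (Sb.ρ (res N c)) * b)) = _
    rw [key _ (res N c) (hs' _), map_mul (incl k N), Pool.Agent.Helper44.S3.incl_res N hc]

/-- The star action on the centraliser of the matrix block. -/
theorem star_quot {k : Type} [Field k] {G : Type} [Group G] [Finite G]
    {e f : MonoidAlgebra k G} (her : inv' e = e) (S : SimpleQuot e) (hf : f * f = f)
    (hef : e = f + inv' f) (hff : f * inv' f = 0) {T : Subgroup G} (hT : T.index = 2)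
    (h1 : ∀ g ∈ T, cj g f = f) (h2 : ∀ g, g ∉ T → cj g f = inv' f) {N : Subgroup G}
    (hN : N.Normal) (hNT : N ≤ T) {a : ℕ} (Φ : RBlk S N f a) :
    ∃ (n1 : ℕ) (B : StarAct T ⊤ k n1), S.n = 2 * (a * n1) ∧ ∀ m ∈ N, B.Triv m := by
  obtain ⟨m, A, ψ, hn, hψinj, hψmul, hψone, hrange, hα1, hα2⟩ :=
    star_corner her S hf hef hff hT h1 h2
  have hm : 0 < m := by
    have := S.pos
    omega
  have hfφ : ∀ x, S.ρ f * Φ.φ x = Φ.φ x := by
    intro x
    have h3 := Φ.mul 1 x
    rw [one_mul, Φ.one] at h3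
    exact h3.symm
  have hφf : ∀ x, Φ.φ x * S.ρ f = Φ.φ x := by
    intro x
    have h3 := Φ.mul x 1
    rw [mul_one, Φ.one] at h3
    exact h3.symm
  have hex : ∀ x, ∃ y, ψ y = Φ.φ x := by
    intro x
    obtain ⟨c, -, hc1, hc2, hc3⟩ := Φ.supp x
    obtain ⟨y, hy⟩ := hrange c
    exact ⟨y, by rw [hy, hc1, hc2, hc3]⟩
  let E := LinearEquiv.ofInjective ψ hψinj
  have hr : ∀ x, Φ.φ x ∈ LinearMap.range ψ := by
    intro x
    obtain ⟨y, hy⟩ := hex x
    exact ⟨y, hy⟩
  let φ : Mt k a →ₗ[k] Mt k m :=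
    (E.symm : LinearMap.range ψ →ₗ[k] Mt k m).comp
      (LinearMap.codRestrict (LinearMap.range ψ) Φ.φ hr)
  have hφ : ∀ x, ψ (φ x) = Φ.φ x := by
    intro x
    have h3 : φ x = E.symm ⟨Φ.φ x, hr x⟩ := rfl
    rw [h3]
    have h4 := LinearEquiv.ofInjective_apply ψ (h := hψinj) (E.symm ⟨Φ.φ x, hr x⟩)
    rw [← h4]
    change ((E (E.symm ⟨Φ.φ x, hr x⟩) : LinearMap.range ψ) : Mt k S.n) = _
    rw [LinearEquiv.apply_symm_apply]
  have hφmul : ∀ x y, φ (x * y) = φ x * φ y := by
    intro x y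
    apply hψinj
    rw [hψmul, hφ, hφ, hφ, Φ.mul]
  have hφone : φ 1 = 1 := by
    apply hψinj
    rw [hφ, hψone, Φ.one]
  have hst : ∀ g ∈ (⊤ : Subgroup G), ∀ x, ∃ x', A.α g (φ x) = φ x' := by
    intro g _ x
    obtain ⟨c, hcN, hc1, hc2, hc3⟩ := Φ.supp x
    by_cases hg : g ∈ T
    · obtain ⟨x', hx'⟩ := Φ.range (cj g c) (by
        intro y hy
        rw [cj_coeff]
        apply hcN
        intro hcon
        apply hy
        have := hN.conj_mem _ hcon g
        have h3 : g * (g⁻¹ * y * g) * g⁻¹ = y := by group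
        rwa [h3] at this)
      refine ⟨x', ?_⟩
      apply hψinj
      rw [hα1 g hg (φ x) _ (by rw [hφ, hc3]), hφ, hx']
      have h3 : cj g c * f = cj g c := by
        have h4 := cj_mul g c f
        rw [hc2, h1 g hg] at h4
        exact h4.symm
      rw [h3]
    · obtain ⟨x', hx'⟩ := Φ.range (cj g (inv' c)) (by
        intro y hy
        rw [cj_coeff, inv'_coeff]
        apply hcN
        intro hcon
        apply hy
        have := hN.conj_mem _ (N.inv_mem hcon) g
        have h3 : g * (g⁻¹ * y * g)⁻¹⁻¹ * g⁻¹ = y := by group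
        rwa [h3] at this)
      refine ⟨x', ?_⟩
      apply hψinj
      rw [hα2 g hg (φ x) _ (by rw [hφ, hc3]), hφ, hx']
      have h3 : cj g (inv' f) = f := by
        rw [← cj_inv', h2 g hg, inv'_inv']
      have h4 : cj g (inv' c) * f = cj g (inv' c) := by
        have h5 := cj_mul g (inv' c) (inv' f)
        rw [h3, ← inv'_mul, hc1] at h5
        exact h5.symm
      rw [h4]
  obtain ⟨b, B, ψ2, hab, ψ2mul, ψ2one, ψ2inj, hcomm, hB⟩ :=
    cs_star A hm φ hφmul hφone hst
  refine ⟨b, B, by rw [hn, hab], ?_⟩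
  intro h hh y
  apply ψ2inj
  rw [hB h (Subgroup.mem_top _)]
  apply hψinj
  obtain ⟨c, hc⟩ := S.surj (ψ (ψ2 y))
  rw [hα1 h (hNT hh) (ψ2 y) c hc.symm]
  obtain ⟨x, hx⟩ := Φ.range (el k h) (by
    intro g hg
    rw [el_coeff, if_neg]
    rintro rfl
    exact hg hh)
  have h3 : S.ρ f * ψ (ψ2 y) = ψ (ψ2 y) := by rw [← hψone, ← hψmul, one_mul]
  have h3' : ψ (ψ2 y) * S.ρ f = ψ (ψ2 y) := by rw [← hψone, ← hψmul, mul_one]
  have h4 : el k h * f = f * el k h := (cj_eq_iff h f).1 (h1 h (hNT hh))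
  have h5 : S.ρ (el k h) * ψ (ψ2 y) = ψ (ψ2 y) * S.ρ (el k h) := by
    calc S.ρ (el k h) * ψ (ψ2 y) = S.ρ (el k h) * (S.ρ f * ψ (ψ2 y)) := by rw [h3]
      _ = ψ (φ x) * ψ (ψ2 y) := by rw [← mul_assoc, ← map_mul, ← hx, hφ]
      _ = ψ (ψ2 y) * ψ (φ x) := by rw [← hψmul, hcomm, hψmul]
      _ = ψ (ψ2 y) * S.ρ f * S.ρ (el k h) := by rw [hφ, hx, h4, map_mul, mul_assoc]
      _ = _ := by rw [h3']
  rw [cj, map_mul, map_mul, hc, h5, mul_assoc, ← map_mul, el_mul_el_inv, map_one, mul_one]

end Pool.Agent.Helper36.NC
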