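import Pool.Agent.Helper44.S3.PT

/-!
# The key count for an extension by a group with solvable quotient
-/

set_option autoImplicit false
open scoped BigOperators MonoidAlgebra
open Classical

namespace Pool.Agent.Helper36.NC

open Pool.Agent.Helper36.NB Pool.Agent.Helper44.S3

theorem card_preimage {G : Type} [Group G] [Finite G] (N : Subgroup G) (P : G ⧸ N → Prop) :
    Nat.card {g : G // P (g : G ⧸ N)} = Nat.card N * Nat.card {q : G ⧸ N // P q} := by
  have h1 := Nat.card_congr (QuotientGroup.preimageMkEquivSubgroupProdSet N {q | P q})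
  rw [Nat.card_prod] at h1
  exact h1

theorem mem_map_mk {G : Type} [Group G] {N : Subgroup G} [hN : N.Normal] {T : Subgroup G}
    (hNT : N ≤ T) (g : G) : (g : G ⧸ N) ∈ T.map (QuotientGroup.mk' N) ↔ g ∈ T := by
  constructor
  · rintro ⟨t, ht, htg⟩
    have h1 : (t : G ⧸ N) = (g : G ⧸ N) := htg
    rw [QuotientGroup.eq] at h1
    have h2 := T.mul_mem ht (hNT h1)
    rwa [mul_inv_cancel_left] at h2
  · intro hg
    exact ⟨g, hg, rfl⟩

theorem mem_map_sup {G : Type} [Group G] {N : Subgroup G} [hN : N.Normal] {E : Subgroup G}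
    (g : G) : (g : G ⧸ N) ∈ E.map (QuotientGroup.mk' N) ↔ g ∈ E ⊔ N := by
  rw [← mem_map_mk (le_sup_right : N ≤ E ⊔ N) g, Subgroup.map_sup]
  have h1 : N.map (QuotientGroup.mk' N) = ⊥ := by
    rw [Subgroup.map_eq_bot_iff, QuotientGroup.ker_mk']
  rw [h1, sup_bot_eq]

/-- The quotient of a star action by a subgroup acting trivially. -/
theorem exists_quot {k : Type} [Field k] {G : Type} [Group G] {T N : Subgroup G}
    [hN : N.Normal] (hNT : N ≤ T) {n : ℕ} (B : StarAct T ⊤ k n) (hB : ∀ m ∈ N, B.Triv m) :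
    ∃ _ : StarAct (Γ := G ⧸ N) (T.map (QuotientGroup.mk' N)) ⊤ k n, True := by
  have hα : ∀ (g : G) (a : Mt k n), B.α ((g : G ⧸ N).out) a = B.α g a := by
    intro g a
    obtain ⟨m, hm⟩ := QuotientGroup.mk_out_eq_mul N g
    rw [hm, B.mul g (Subgroup.mem_top _) m (Subgroup.mem_top _), hB _ m.2 a]
  refine ⟨{ α := fun q => B.α q.out, one := ?_, mul := ?_, aut := ?_, anti := ?_, irr := ?_ },
    trivial⟩
  · intro a
    have h1 := hα 1 a
    rw [B.one] at h1
    exact h1
  · intro g _ h _ a
    induction g using QuotientGroup.induction_on with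
    | H g =>
      induction h using QuotientGroup.induction_on with
      | H h =>
        have h1 := hα (g * h) a
        rw [B.mul g (Subgroup.mem_top _) h (Subgroup.mem_top _)] at h1
        rw [hα h a, hα g _]
        exact h1
  · intro g _ hg a b
    induction g using QuotientGroup.induction_on with
    | H g =>
      rw [mem_map_mk hNT] at hg
      rw [hα, hα, hα]
      exact B.aut g (Subgroup.mem_top _) hg a b
  · intro g _ hg a b
    induction g using QuotientGroup.induction_on with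
    | H g =>
      rw [mem_map_mk hNT] at hg
      rw [hα, hα, hα]
      exact B.anti g (Subgroup.mem_top _) hg a b
  · intro I hI hI'
    refine B.irr I hI ?_
    intro g _ hg b hb
    have h1 := hI' (g : G ⧸ N) (Subgroup.mem_top _) ((mem_map_mk hNT g).2 hg) b hb
    rwa [hα] at h1

/-- The key count. -/
theorem cnt_quot {k : Type} [Field k] [IsAlgClosed k] [CharP k 2] {G : Type} [Group G]
    [Fintype G] {T N E : Subgroup G} (hT : T.index = 2) (hN : N.Normal) (hNT : N ≤ T)
    (hsol : Group.IsSolvable (G ⧸ N)) (hE : IsPGroup 2 E) {n : ℕ} (B : StarAct T ⊤ k n)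
    (hB : ∀ m ∈ N, B.Triv m) (hn : Odd n)
    (hcard : n ^ 2 * Nat.card (E ⊔ N : Subgroup G) = Nat.card G) (u : G) (huT : u ∉ T)
    (huN : u * u ∈ N) :
    Nat.card {g : G // g⁻¹ * u * g ∈ E ⊔ N} = n * Nat.card (E ⊔ N : Subgroup G) := by
  obtain ⟨B', -⟩ := exists_quot hNT B hB
  have hker : (QuotientGroup.mk' N).ker ≤ T := by rwa [QuotientGroup.ker_mk']
  have hT' : (T.map (QuotientGroup.mk' N)).index = 2 := by
    rw [Subgroup.index_map_eq T (QuotientGroup.mk'_surjective N) hker, hT]
  have hNpos : 0 < Nat.card N := Nat.card_pos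
  have hEN : Nat.card (E ⊔ N : Subgroup G) =
      Nat.card N * Nat.card (E.map (QuotientGroup.mk' N)) := by
    have h1 := card_preimage N (fun q => q ∈ E.map (QuotientGroup.mk' N))
    simp only [mem_map_sup] at h1
    exact h1
  have hGN : Nat.card G = Nat.card N * Nat.card (G ⧸ N) := by
    rw [mul_comm]
    exact Subgroup.card_eq_card_quotient_mul_card_subgroup N
  have hcard' : n ^ 2 * Nat.card (E.map (QuotientGroup.mk' N)) = Nat.card (G ⧸ N) := by
    apply Nat.eq_of_mul_eq_mul_left hNpos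
    rw [← hGN, ← hcard, hEN]
    ring
  have hSit : Sit (T.map (QuotientGroup.mk' N)) ⊤ ⊥ (E.map (QuotientGroup.mk' N)) :=
    { KH := bot_le
      HG := le_top
      KT := bot_le
      norm := by
        intro g _ x hx
        rw [Subgroup.mem_bot] at hx ⊢
        rw [hx]
        group
      Hcard := by
        obtain ⟨s, hs⟩ := IsPGroup.iff_card.1 (hE.map (QuotientGroup.mk' N))
        exact ⟨s, by rw [hs, Subgroup.card_bot, mul_one]⟩
      Gcard := ⟨n ^ 2, hn.pow, by rw [hcard', Subgroup.card_top]⟩ }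
  have hsolv : IsSolvable (⊤ : Subgroup (G ⧸ N)) := by
    exact (inferInstance : Group.IsSolvable (⊤ : Subgroup (G ⧸ N)))
  have hPT := (PT (Γ := G ⧸ N) (k := k) hT' _ ⊤ ⊥ (E.map (QuotientGroup.mk' N)) n B' le_rfl
    hsolv hSit (by
      intro g hg a
      rw [Subgroup.mem_bot] at hg
      rw [hg, B'.one]) hn).2 (by rw [hcard', Subgroup.card_top]) (u : G ⧸ N)
        (Subgroup.mem_top _) (by rwa [mem_map_mk hNT]) (by
          rw [← QuotientGroup.mk_mul, QuotientGroup.eq_one_iff]
          exact huN)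
  have h2 := card_preimage N (fun q => q⁻¹ * (u : G ⧸ N) * q ∈ E.map (QuotientGroup.mk' N))
  have h3 : Nat.card {q : G ⧸ N // q⁻¹ * (u : G ⧸ N) * q ∈ E.map (QuotientGroup.mk' N)} =
      n * Nat.card (E.map (QuotientGroup.mk' N)) := by
    rw [← hPT, cnt]
    apply Nat.card_congr
    refine Equiv.subtypeEquivRight ?_
    intro q
    exact ⟨fun h => ⟨Subgroup.mem_top _, h⟩, fun h => h.2⟩
  rw [h3] at h2
  have h4 : ∀ g : G, ((g : G ⧸ N)⁻¹ * (u : G ⧸ N) * (g : G ⧸ N) ∈
      E.map (QuotientGroup.mk' N)) ↔ g⁻¹ * u * g ∈ E ⊔ N := by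
    intro g
    rw [← mem_map_sup]
    rfl
  simp only [h4] at h2
  rw [h2, hEN]
  ring

end Pool.Agent.Helper36.NC
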