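import Mathlib

/-!
# The double count for the sum over the squares
-/

set_option autoImplicit false
open scoped BigOperators
open Classical

namespace Pool.Agent.Helper36.NC

variable {G : Type} [Group G] [Fintype G]

theorem total_count {c : G → ℂ} {T N E : Subgroup G} (hT : T.Normal) (hNn : N.Normal)
    (hNT : N ≤ T) (hc0 : ∀ g, g ∉ N → c g = 0) (hcT : ∀ g ∈ T, ∀ x, c (g⁻¹ * x * g) = c x)
    (hcT' : ∀ g, g ∉ T → ∀ x, c (g⁻¹ * x * g) = c x⁻¹) {n1 a : ℕ} (hn1 : 0 < n1)
    (hcnt : ∀ u, u ∉ T → u * u ∈ N →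
      Nat.card {g : G // g⁻¹ * u * g ∈ E ⊔ N} = n1 * Nat.card (E ⊔ N : Subgroup G))
    (hcard : n1 ^ 2 * Nat.card (E ⊔ N : Subgroup G) = Nat.card G)
    (hkey : ∀ z ∈ E, z ∉ T → z * z ∈ N →
      ∑ h ∈ Finset.univ.filter (fun h : G => h ∈ N), c (z * h * (z * h)) =
        a * (Nat.card {y : G // y ∈ E ∧ z⁻¹ * y ∈ N ∧ y * y = 1} : ℂ)) :
    ∑ g ∈ Finset.univ.filter (fun g : G => g ∉ T), c (g * g) =
      n1 * a * (Nat.card {y : G // y ∈ E ∧ y ∉ T ∧ y * y = 1} : ℂ) := by
  set A := Finset.univ.filter (fun g : G => g ∉ T) with hA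
  set W := Finset.univ.filter (fun g : G => g ∈ E ⊔ N ∧ g ∉ T) with hW
  have hmA : ∀ g, g ∈ A ↔ g ∉ T := fun g => by simp [hA]
  have hmW : ∀ g, g ∈ W ↔ g ∈ E ⊔ N ∧ g ∉ T := fun g => by simp [hW]
  have hTc : ∀ h g : G, h⁻¹ * g * h ∈ T ↔ g ∈ T := by
    intro h g
    constructor
    · intro hg
      have := hT.conj_mem _ hg h
      have h3 : h * (h⁻¹ * g * h) * h⁻¹ = g := by group
      rwa [h3] at this
    · intro hg
      have := hT.conj_mem _ hg h⁻¹
      rwa [inv_inv] at this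
  -- first double count
  have s1 : ∀ g ∈ A, ((n1 * Nat.card (E ⊔ N : Subgroup G) : ℕ) : ℂ) * c (g * g) =
      ∑ h : G, if h⁻¹ * g * h ∈ E ⊔ N then c (g * g) else 0 := by
    intro g hg
    by_cases hgN : g * g ∈ N
    · rw [← hcnt g ((hmA g).1 hg) hgN, Finset.sum_ite, Finset.sum_const_zero, add_zero,
        Finset.sum_const, nsmul_eq_mul, Nat.card_eq_fintype_card, Fintype.card_subtype]
    · rw [hc0 _ hgN]
      simp
  have s2 : ∀ h : G, ∑ g ∈ A, (if h⁻¹ * g * h ∈ E ⊔ N then c (g * g) else 0) =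
      ∑ w ∈ W, c (w * w) := by
    intro h
    rw [← Finset.sum_filter]
    have h1 : ∑ g ∈ A.filter (fun g => h⁻¹ * g * h ∈ E ⊔ N), c (g * g) =
        ∑ w ∈ W, c (h * (w * w) * h⁻¹) := by
      refine Finset.sum_bij' (fun g _ => h⁻¹ * g * h) (fun w _ => h * w * h⁻¹) ?_ ?_ ?_ ?_ ?_
      · intro g hg
        rw [Finset.mem_filter, hmA] at hg
        rw [hmW]
        exact ⟨hg.2, fun hh => hg.1 ((hTc h g).1 hh)⟩
      · intro w hw
        rw [hmW] at hw
        have h3 : h⁻¹ * (h * w * h⁻¹) * h = w := by group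
        rw [Finset.mem_filter, hmA, h3]
        refine ⟨fun hh => hw.2 ?_, hw.1⟩
        rw [← hTc h, h3] at hh
        exact hh
      · intro g _
        group
      · intro w _
        group
      · intro g _
        congr 1
        group
    rw [h1]
    by_cases hh : h ∈ T
    · refine Finset.sum_congr rfl fun w _ => ?_
      have h3 := hcT h⁻¹ (T.inv_mem hh) (w * w)
      rwa [inv_inv] at h3
    · have h4 : ∀ w ∈ W, c (h * (w * w) * h⁻¹) = c (w * w)⁻¹ := by
        intro w _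
        have h3 := hcT' h⁻¹ (fun h' => hh (by simpa using T.inv_mem h')) (w * w)
        rwa [inv_inv] at h3
      rw [Finset.sum_congr rfl h4]
      refine Finset.sum_bij' (fun w _ => w⁻¹) (fun w _ => w⁻¹) ?_ ?_ ?_ ?_ ?_
      · intro w hw
        rw [hmW] at hw ⊢
        exact ⟨(E ⊔ N).inv_mem hw.1, fun h' => hw.2 (by simpa using T.inv_mem h')⟩
      · intro w hw
        rw [hmW] at hw ⊢
        exact ⟨(E ⊔ N).inv_mem hw.1, fun h' => hw.2 (by simpa using T.inv_mem h')⟩
      · intro w _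
        exact inv_inv w
      · intro w _
        exact inv_inv w
      · intro w _
        rw [mul_inv_rev]
  have s3 : ((n1 * Nat.card (E ⊔ N : Subgroup G) : ℕ) : ℂ) * ∑ g ∈ A, c (g * g) =
      (Nat.card G : ℂ) * ∑ w ∈ W, c (w * w) := by
    rw [Finset.mul_sum, Finset.sum_congr rfl s1, Finset.sum_comm,
      Finset.sum_congr rfl (fun h _ => s2 h), Finset.sum_const, nsmul_eq_mul,
      Nat.card_eq_fintype_card, Finset.card_univ]
  -- second double count
  set Q := Finset.univ.filter (fun h : G => h ∈ N) with hQ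
  set Z := Finset.univ.filter (fun z : G => z ∈ E ∧ z ∉ T) with hZ
  have hmQ : ∀ g, g ∈ Q ↔ g ∈ N := fun g => by simp [hQ]
  have hmZ : ∀ g, g ∈ Z ↔ g ∈ E ∧ g ∉ T := fun g => by simp [hZ]
  have hcardI : ∀ w : G, (∃ z ∈ E, z⁻¹ * w ∈ N) →
      (Finset.univ.filter (fun z : G => z ∈ E ∧ z⁻¹ * w ∈ N)).card =
        Nat.card (E ⊓ N : Subgroup G) := by
    rintro w ⟨z0, hz0, hz0w⟩
    rw [Nat.card_eq_fintype_card]
    have h1 : Fintype.card (E ⊓ N : Subgroup G) =
        (Finset.univ.filter (fun x : G => x ∈ E ∧ x ∈ N)).card := by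
      rw [← Fintype.card_subtype]
      exact Fintype.card_congr (Equiv.refl _)
    rw [h1]
    refine Finset.card_bij' (fun z _ => z0⁻¹ * z) (fun x _ => z0 * x) ?_ ?_ ?_ ?_
    · intro z hz
      simp only [Finset.mem_filter, Finset.mem_univ, true_and] at hz ⊢
      refine ⟨E.mul_mem (E.inv_mem hz0) hz.1, ?_⟩
      have h3 : z0⁻¹ * z = (z0⁻¹ * w) * (z⁻¹ * w)⁻¹ := by group
      rw [h3]
      exact N.mul_mem hz0w (N.inv_mem hz.2)
    · intro x hx
      simp only [Finset.mem_filter, Finset.mem_univ, true_and] at hx ⊢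
      refine ⟨E.mul_mem hz0 hx.1, ?_⟩
      have h3 : (z0 * x)⁻¹ * w = x⁻¹ * (z0⁻¹ * w) := by group
      rw [h3]
      exact N.mul_mem (N.inv_mem hx.2) hz0w
    · intro z _
      group
    · intro x _
      group
  have t1 : ∑ z ∈ Z, ∑ h ∈ Q, c (z * h * (z * h)) =
      (Nat.card (E ⊓ N : Subgroup G) : ℂ) * ∑ w ∈ W, c (w * w) := by
    have h1 : ∀ z ∈ Z, ∑ h ∈ Q, c (z * h * (z * h)) =
        ∑ w : G, if z⁻¹ * w ∈ N then c (w * w) else 0 := by
      intro z _
      rw [← Finset.sum_filter]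
      refine Finset.sum_bij' (fun h _ => z * h) (fun w _ => z⁻¹ * w) ?_ ?_ ?_ ?_ ?_
      · intro h hh
        rw [hmQ] at hh
        simp only [Finset.mem_filter, Finset.mem_univ, true_and]
        rwa [inv_mul_cancel_left]
      · intro w hw
        simp only [Finset.mem_filter, Finset.mem_univ, true_and] at hw
        rwa [hmQ]
      · intro h _
        exact inv_mul_cancel_left z h
      · intro w _
        exact mul_inv_cancel_left z w
      · intro h _
        rfl
    rw [Finset.sum_congr rfl h1, Finset.sum_comm, Finset.mul_sum]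
    have h2 : ∀ w : G, ∑ z ∈ Z, (if z⁻¹ * w ∈ N then c (w * w) else 0) =
        if w ∈ W then (Nat.card (E ⊓ N : Subgroup G) : ℂ) * c (w * w) else 0 := by
      intro w
      rw [← Finset.sum_filter, Finset.sum_const, nsmul_eq_mul]
      by_cases hw : w ∈ W
      · rw [if_pos hw]
        rw [hmW] at hw
        obtain ⟨z0, hz0, x0, hx0, hw0⟩ := Subgroup.mem_sup_of_normal_right.mp hw.1
        congr 2
        rw [← hcardI w ⟨z0, hz0, by rw [← hw0, inv_mul_cancel_left]; exact hx0⟩]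
        congr 1
        ext z
        simp only [Finset.mem_filter, Finset.mem_univ, true_and, hmZ]
        constructor
        · exact fun h => ⟨h.1.1, h.2⟩
        · intro h
          refine ⟨⟨h.1, fun hzT => hw.2 ?_⟩, h.2⟩
          have h3 := T.mul_mem hzT (hNT h.2)
          rwa [mul_inv_cancel_left] at h3
      · rw [if_neg hw]
        have h3 : Z.filter (fun z => z⁻¹ * w ∈ N) = ∅ := by
          rw [Finset.filter_eq_empty_iff]
          intro z hz hzw
          rw [hmZ] at hz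
          apply hw
          rw [hmW]
          refine ⟨?_, fun hwT => hz.2 ?_⟩
          · have h3 := (E ⊔ N).mul_mem ((le_sup_left : E ≤ E ⊔ N) hz.1)
              ((le_sup_right : N ≤ E ⊔ N) hzw)
            rwa [mul_inv_cancel_left] at h3
          · have h3 := T.mul_mem hwT (T.inv_mem (hNT hzw))
            have h4 : w * (z⁻¹ * w)⁻¹ = z := by group
            rwa [h4] at h3
        rw [h3]
        simp
    rw [Finset.sum_congr rfl (fun w _ => h2 w), ← Finset.sum_filter]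
    congr 1
    ext w
    simp
  have t2 : ∑ z ∈ Z, ∑ h ∈ Q, c (z * h * (z * h)) =
      a * ((Nat.card (E ⊓ N : Subgroup G) : ℂ) *
        (Nat.card {y : G // y ∈ E ∧ y ∉ T ∧ y * y = 1} : ℂ)) := by
    have h1 : ∀ z ∈ Z, ∑ h ∈ Q, c (z * h * (z * h)) =
        a * ∑ y : G, (if y ∈ E ∧ z⁻¹ * y ∈ N ∧ y * y = 1 then (1 : ℂ) else 0) := by
      intro z hz
      rw [hmZ] at hz
      have h3 : ∑ y : G, (if y ∈ E ∧ z⁻¹ * y ∈ N ∧ y * y = 1 then (1 : ℂ) else 0) =
          (Nat.card {y : G // y ∈ E ∧ z⁻¹ * y ∈ N ∧ y * y = 1} : ℂ) := by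
        rw [← Finset.sum_filter, Finset.sum_const, nsmul_eq_mul, mul_one,
          Nat.card_eq_fintype_card, Fintype.card_subtype]
      by_cases hzN : z * z ∈ N
      · rw [h3]
        exact hkey z hz.1 hz.2 hzN
      · have h4 : ∀ x ∈ N, z * x * (z * x) ∉ N := by
          intro x hx hcon
          apply hzN
          have h5 : z * z = (z * x * (z * x)) * x⁻¹ * (z⁻¹ * x⁻¹ * z⁻¹⁻¹) := by group
          rw [h5]
          exact N.mul_mem (N.mul_mem hcon (N.inv_mem hx)) (hNn.conj_mem _ (N.inv_mem hx) z⁻¹)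
        rw [Finset.sum_eq_zero (fun x hx => hc0 _ (h4 x ((hmQ x).1 hx))), Finset.sum_eq_zero,
          mul_zero]
        intro y _
        rw [if_neg]
        rintro ⟨-, hy1, hy2⟩
        apply h4 (z⁻¹ * y) hy1
        rw [mul_inv_cancel_left, hy2]
        exact N.one_mem
    rw [Finset.sum_congr rfl h1, ← Finset.mul_sum, Finset.sum_comm]
    congr 1
    have h2 : ∀ y : G, ∑ z ∈ Z, (if y ∈ E ∧ z⁻¹ * y ∈ N ∧ y * y = 1 then (1 : ℂ) else 0) =
        if y ∈ E ∧ y ∉ T ∧ y * y = 1 then (Nat.card (E ⊓ N : Subgroup G) : ℂ) else 0 := by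
      intro y
      rw [← Finset.sum_filter, Finset.sum_const, nsmul_eq_mul, mul_one]
      by_cases hy : y ∈ E ∧ y ∉ T ∧ y * y = 1
      · rw [if_pos hy, ← hcardI y ⟨y, hy.1, by rw [inv_mul_cancel]; exact N.one_mem⟩]
        congr 2
        ext z
        simp only [Finset.mem_filter, Finset.mem_univ, true_and, hmZ]
        constructor
        · exact fun h => ⟨h.1.1, h.2.2.1⟩
        · intro h
          refine ⟨⟨h.1, fun hzT => hy.2.1 ?_⟩, hy.1, h.2, hy.2.2⟩
          have h3 := T.mul_mem hzT (hNT h.2)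
          rwa [mul_inv_cancel_left] at h3
      · rw [if_neg hy]
        have h3 : Z.filter (fun z => y ∈ E ∧ z⁻¹ * y ∈ N ∧ y * y = 1) = ∅ := by
          rw [Finset.filter_eq_empty_iff]
          rintro z hz ⟨hy1, hy2, hy3⟩
          rw [hmZ] at hz
          refine hy ⟨hy1, fun hyT => hz.2 ?_, hy3⟩
          have h3 := T.mul_mem hyT (T.inv_mem (hNT hy2))
          have h4 : y * (z⁻¹ * y)⁻¹ = z := by group
          rwa [h4] at h3
        rw [h3]
        simp
    rw [Finset.sum_congr rfl (fun y _ => h2 y), ← Finset.sum_filter, Finset.sum_const,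
      nsmul_eq_mul, mul_comm, Nat.card_eq_fintype_card (α := {y : G // y ∈ E ∧ y ∉ T ∧ y * y = 1}),
      Fintype.card_subtype]
  have hI : (Nat.card (E ⊓ N : Subgroup G) : ℂ) ≠ 0 := by
    have : 0 < Nat.card (E ⊓ N : Subgroup G) := Nat.card_pos
    exact_mod_cast this.ne'
  have t3 : ∑ w ∈ W, c (w * w) =
      a * (Nat.card {y : G // y ∈ E ∧ y ∉ T ∧ y * y = 1} : ℂ) := by
    apply mul_left_cancel₀ hI
    rw [← t1, t2]
    ring
  have hEN : ((n1 * Nat.card (E ⊔ N : Subgroup G) : ℕ) : ℂ) ≠ 0 := by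
    have h1 : 0 < Nat.card (E ⊔ N : Subgroup G) := Nat.card_pos
    have h2 := Nat.mul_pos hn1 h1
    exact_mod_cast h2.ne'
  apply mul_left_cancel₀ hEN
  rw [s3, t3, ← hcard]
  push_cast
  ring

end Pool.Agent.Helper36.NC
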