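import Pool.Agent.Helper36.NC.A
import Pool.Agent.Helper36.NC.C
import Pool.Agent.Helper44.S3.PA
import Pool.Agent.Helper44.S3.QA
import Pool.Agent.Helper44.S3.QB
import Pool.Agent.Helper44.S3.QD
import Pool.Agent.Helper44.S3.QE
import Pool.Agent.Helper36.NB.Asm7

/-!
# A normal subgroup of index two: the real block `b + b°`
-/

set_option autoImplicit false
open scoped BigOperators MonoidAlgebra
open Classical

namespace Pool.Agent.Helper36.NC

open Pool.Agent.Helper36.NB Pool.Agent.Helper44.S3

/-- The sum of the coefficients at the squares and the indicator of the projective character. -/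
theorem sum_coeff_pim (O : ValuationSubring ℂ) {G : Type} [Group G] [Fintype G]
    (e : MonoidAlgebra O G) (he : e * e = e) (hec : ∀ a, a * e = e * a)
    (S : SimpleQuot (toK O G e)) (j : MonoidAlgebra O G) (hj : IsPrimitiveIdem j)
    (hje : j * e = j) :
    (S.n : ℂ) * ((∑ g : G, pim O j (g * g)) / (Nat.card G : ℂ)) =
      ∑ g : G, (e.coeff (g * g) : ℂ) := by
  have hG : (Nat.card G : ℂ) ≠ 0 := Nat.cast_ne_zero.2 Nat.card_pos.ne'
  have hcp : ∀ g : G, (S.n : ℂ) * pim O j g = (Nat.card G : ℂ) * (e.coeff g⁻¹ : ℂ) := by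
    intro g
    have h := coeff_pim O e he hec S j hj hje g⁻¹
    rw [inv_inv] at h
    exact h.symm
  rw [← mul_div_assoc, div_eq_iff hG, Finset.mul_sum,
    Finset.sum_congr rfl fun g _ => hcp (g * g), ← Finset.mul_sum, mul_comm]
  congr 1
  refine Fintype.sum_equiv (Equiv.inv G) _ _ fun g => ?_
  rw [Equiv.inv_apply, mul_inv_rev]

/-- `e F` is supported on `T`. -/
theorem supp_stab {R : Type} [CommRing R] {G : Type} [Group G] [Finite G] {T : Subgroup G}
    {F e : MonoidAlgebra R G} (hF : F * F = F) (hFs : ∀ g, g ∉ T → F.coeff g = 0)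
    (horth : ∀ g, g ∉ T → F * cj g F = 0) (hec : ∀ a, a * e = e * a) :
    ∀ g, g ∉ T → (e * F).coeff g = 0 := by
  have := Fintype.ofFinite G
  set a : MonoidAlgebra R G := incl R T (res T e) with ha
  have has : ∀ g, g ∉ T → a.coeff g = 0 := fun g hg => incl_supp T _ hg
  have hbs : ∀ g, g ∈ T → (e - a).coeff g = 0 := by
    intro g hg
    have h1 : a.coeff g = e.coeff g := by
      have h2 := incl_coeff T (res T e) ⟨g, hg⟩
      have h3 := res_coeff T e ⟨g, hg⟩
      rw [ha]
      exact h2.trans h3
    rw [MonoidAlgebra.coeff_sub, Finsupp.sub_apply, h1, sub_self]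
  have hz : ∀ g, g ∉ T → F * el R g * F = 0 := by
    intro g hg
    have h1 : el R g * F = cj g F * el R g := by
      unfold cj
      rw [mul_assoc, mul_assoc, el_inv_mul_el, mul_one]
    rw [mul_assoc, h1, ← mul_assoc, horth g hg, zero_mul]
  have hexp : e - a = ∑ g : G, (e - a).coeff g • el R g := by
    ext x
    rw [MonoidAlgebra.coeff_sum, Finsupp.finsetSum_apply, Finset.sum_eq_single x]
    · rw [MonoidAlgebra.coeff_smul, Finsupp.smul_apply, el_coeff, if_pos rfl, smul_eq_mul, mul_one]
    · intro y _ hy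
      rw [MonoidAlgebra.coeff_smul, Finsupp.smul_apply, el_coeff, if_neg hy, smul_eq_mul, mul_zero]
    · intro h
      exact absurd (Finset.mem_univ x) h
  have hzero : F * (e - a) * F = 0 := by
    rw [hexp, Finset.mul_sum, Finset.sum_mul]
    refine Finset.sum_eq_zero fun g _ => ?_
    by_cases hg : g ∈ T
    · rw [hbs g hg, zero_smul, mul_zero, zero_mul]
    · rw [mul_smul_comm, smul_mul_assoc, hz g hg, smul_zero]
  have h1 : e * F = F * a * F := by
    have h2 : F * e * F = e * F := by rw [hec F, mul_assoc, hF]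
    have h3 : F * (e - a) * F = F * e * F - F * a * F := by rw [mul_sub, sub_mul]
    rw [hzero, h2] at h3
    exact (sub_eq_zero.1 h3.symm)
  rw [h1]
  exact supp_mul T (supp_mul T hFs has) hFs

/-- The block `b + b°` of the extension. -/
theorem isBlock_two {R : Type} [CommRing R] {K : Type} [Group K] [Fintype K] {H : Subgroup K}
    (b : MonoidAlgebra R H) (hb : IsBlock b)
    (hFF : incl R H b * inv' (incl R H b) = 0)
    (hc : ∀ g, g ∉ H → cj g (incl R H b) = inv' (incl R H b)) (hex : ∃ g, g ∉ H) :
    IsBlock (incl R H b + inv' (incl R H b)) := by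
  obtain ⟨hb0, hbb, hbc, hbp⟩ := hb
  set F := incl R H b with hF
  have hFi : F * F = F := by rw [hF, ← map_mul, hbb]
  have hFi' : inv' F * inv' F = inv' F := by rw [← inv'_mul, hFi]
  obtain ⟨z, hz⟩ := hex
  have hFF' : inv' F * F = 0 := by
    have h1 := cj_mul z F (inv' F)
    rw [hFF, ← cj_inv', hc z hz, inv'_inv'] at h1
    rw [← h1]
    unfold cj
    rw [mul_zero, zero_mul]
  have hcH : ∀ g ∈ H, cj g F = F := by
    intro g hg
    rw [cj_eq_iff, hF]
    have h1 := congrArg (incl R H) (hbc (el R ⟨g, hg⟩))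
    rw [map_mul, map_mul, incl_el] at h1
    exact h1
  have hcen : ∀ g, cj g (F + inv' F) = F + inv' F := by
    intro g
    by_cases hg : g ∈ H
    · rw [cj_add, hcH g hg, ← cj_inv', hcH g hg]
    · rw [cj_add, hc g hg, ← cj_inv', hc g hg, inv'_inv', add_comm]
  have hcenF : ∀ y, y * (F + inv' F) = (F + inv' F) * y := fun y => central_of_cj hcen y
  have hFs : ∀ g, g ∉ H → F.coeff g = 0 := fun g hg => incl_supp H b hg
  refine ⟨?_, ?_, hcenF, ?_⟩
  · intro h0
    apply hb0
    have h1 : F = 0 := by
      calc F = (F + inv' F) * F := by rw [add_mul, hFi, hFF', add_zero]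
        _ = 0 := by rw [h0, zero_mul]
    exact incl_injective H (by rw [← hF, h1, map_zero])
  · rw [add_mul, mul_add, mul_add, hFi, hFi', hFF, hFF', add_zero, zero_add]
  · intro f hf hfc
    have hsupp := supp_stab hFi hFs (fun g hg => by rw [hc g hg, hFF]) hfc
    have hfF : f * F * (f * F) = f * F := by
      calc f * F * (f * F) = f * (F * f) * F := by simp only [mul_assoc]
        _ = f * (f * F) * F := by rw [hfc F]
        _ = (f * f) * (F * F) := by simp only [mul_assoc]
        _ = f * F := by rw [hf, hFi]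
    have hincl : incl R H (res H (f * F)) = f * F := Pool.Agent.Helper44.S3.incl_res H hsupp
    set β := res H (f * F) with hβ
    have hββ : β * β = β := by
      apply incl_injective H
      rw [map_mul, hincl, hfF]
    have hβc : ∀ a, a * β = β * a := by
      apply central_of_cj
      intro g
      rw [cj_eq_iff]
      apply incl_injective H
      rw [map_mul, map_mul, hincl, incl_el, ← cj_eq_iff, cj_mul, cj_of_central hfc, hcH g g.2]
    have hβb : β * b = β := by
      apply incl_injective H
      rw [map_mul, hincl, ← hF, mul_assoc, hFi]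
    have hconj : f * inv' F = cj z (f * F) := by
      rw [cj_mul, cj_of_central hfc, hc z hz]
    rcases hbp β hββ hβc with h | h
    · left
      rw [hβb] at h
      have h1 : f * F = 0 := by rw [← hincl, h, map_zero]
      rw [mul_add, h1, hconj, h1]
      unfold cj
      rw [mul_zero, zero_mul, add_zero]
    · right
      rw [hβb] at h
      have h1 : f * F = F := by rw [← hincl, h]
      rw [mul_add, h1, hconj, h1, hc z hz]

/-- A star action which is trivial on `T` is of degree one. -/
theorem star_one {k : Type} [Field k] {G : Type} [Group G] {T : Subgroup G} {n : ℕ}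
    (hn : 0 < n) (B : StarAct T ⊤ k n) (hB : ∀ m ∈ T, B.Triv m) : n = 1 := by
  by_contra hne
  have h2 : 1 < n := by omega
  let I : Submodule k (Mt k n) :=
    { carrier := {M | ∀ i, M i ⟨1, h2⟩ = 0}
      zero_mem' := fun i => rfl
      add_mem' := by
        intro a b ha hb i
        rw [Matrix.add_apply, ha i, hb i, add_zero]
      smul_mem' := by
        intro r a ha i
        rw [Matrix.smul_apply, ha i, smul_zero] }
  have hI : ∀ M : Mt k n, M ∈ I ↔ ∀ i, M i ⟨1, h2⟩ = 0 := fun M => Iff.rfl
  rcases B.irr I (by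
    intro a b hb
    rw [hI] at hb ⊢
    intro i
    rw [Matrix.mul_apply]
    exact Finset.sum_eq_zero fun l _ => by rw [hb l, mul_zero]) (by
    intro g _ hg b hb
    rw [hB g hg b]
    exact hb) with h | h
  · have h1 : (Matrix.single ⟨0, hn⟩ ⟨0, hn⟩ (1 : k) : Mt k n) ∈ I := by
      rw [hI]
      intro i
      rw [Matrix.single_apply_of_col_ne]
      intro h3
      have := congrArg Fin.val h3
      simp at this
    rw [h, Submodule.mem_bot] at h1
    have h3 := congrFun (congrFun h1 ⟨0, hn⟩) ⟨0, hn⟩
    rw [Matrix.single_apply_same] at h3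
    exact one_ne_zero h3
  · have h1 : (Matrix.single ⟨0, hn⟩ ⟨1, h2⟩ (1 : k) : Mt k n) ∈ I := by
      rw [h]
      exact Submodule.mem_top
    rw [hI] at h1
    have h3 := h1 ⟨0, hn⟩
    rw [Matrix.single_apply_same] at h3
    exact one_ne_zero h3

/-- The rank and the order of the defect group. -/
theorem card_coeff_one (O : ValuationSubring ℂ) (h2 : (2 : O) ∈ IsLocalRing.maximalIdeal O)
    {G : Type} [Group G] [Fintype G] {e : MonoidAlgebra O G} (he : e * e = e)
    (hec : ∀ a, a * e = e * a) (S : SimpleQuot (toK O G e)) {x : G}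
    (hx : IsDefectClass O e x) (hxr : IsConj x x⁻¹) {D : Subgroup G}
    (hD : Nat.card D = 2 ^ (Nat.card (cent x)).factorization 2) :
    (S.n : ℂ) ^ 2 * Nat.card D = Nat.card G * ((e.coeff 1 : O) : ℂ) ∧
      S.n.factorization 2 + (Nat.card D).factorization 2 = (Nat.card G).factorization 2 := by
  obtain ⟨hxo, hex, hK⟩ := hx
  obtain ⟨I⟩ := exists_irrData G
  obtain ⟨j, hj, hje, hj1⟩ := exists_rank_one O e he hec S
  have hjj : toC O G j * toC O G j = toC O G j := by rw [← map_mul, hj]
  have hee : toC O G e * toC O G e = toC O G e := by rw [← map_mul, he]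
  obtain ⟨hsum, -, hval⟩ := defect_data O h2 I e he hec S j hj hje hj1 x hxo hxr hex hK D hD
  have hrank : (S.ρ (toK O G e)).rank = S.n := by
    rw [S.one, Matrix.rank_one, Fintype.card_fin]
  have hce : ∀ a, I.chi a (toC O G e) = (S.n : ℂ) * I.chi a (toC O G j) := by
    intro a
    have h := trace_rank O e he hec S j hj hje hj1 e he he (TraceFun.ofChi O I a)
    rw [TraceFun.ofChi_apply, TraceFun.ofChi_apply, hrank] at h
    exact h
  have hdd : ∀ a, (I.d a : ℂ) * I.chi a (toC O G e) = I.chi a (toC O G e) ^ 2 := by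
    intro a
    rcases chi_central I a (toC O G e) hee (F2aux.toC_central O e hec) with h | h
    · have h0 : I.chi a (toC O G e) = 0 := by rw [IrrData.chi, h, Matrix.trace_zero]
      rw [h0]; ring
    · have h0 : I.chi a (toC O G e) = I.d a := by
        rw [IrrData.chi, h, Matrix.trace_one, Fintype.card_fin]
      rw [h0]; ring
  have hreg := E0aux.regular I (toC O G e)
  refine ⟨?_, hval⟩
  rw [← toC_apply, ← hreg, ← hsum, Finset.mul_sum]
  refine Finset.sum_congr rfl fun a _ => ?_
  rw [hdd, hce]
  ring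

section two

variable (O : ValuationSubring ℂ) (h2 : (2 : O) ∈ IsLocalRing.maximalIdeal O)
  {K : Type} [Group K] [Fintype K] {H : Subgroup K} (hH : H.index = 2)
  (b : MonoidAlgebra O H) (hb : IsBlock b) (Sb : SimpleQuot (toK O H b))
  (hFF : incl O H b * inv' (incl O H b) = 0)
  (hc : ∀ g, g ∉ H → cj g (incl O H b) = inv' (incl O H b))

include h2 hH hb Sb hFF hc

theorem two_n (SK : SimpleQuot (toK O K (incl O H b + inv' (incl O H b)))) :
    SK.n = 2 * Sb.n := by
  obtain ⟨hb0, hbb, hbc, hbp⟩ := id hb
  have hHn : H.Normal := Subgroup.normal_of_index_eq_two hH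
  have hbbk : toK O H b * toK O H b = toK O H b := by rw [← map_mul, hbb]
  have hbck : ∀ a, a * toK O H b = toK O H b * a := by
    intro a
    obtain ⟨a', rfl⟩ := toK_surjective O a
    rw [← map_mul, ← map_mul, hbc]
  obtain ⟨Φ⟩ := exists_rblk SK hHn hbbk hbck Sb
  rw [← toK_incl] at Φ
  have hcH : ∀ g ∈ H, cj g (incl O H b) = incl O H b := by
    intro g hg
    rw [cj_eq_iff]
    have h1 := congrArg (incl O H) (hbc (el O ⟨g, hg⟩))
    rw [map_mul, map_mul, incl_el] at h1
    exact h1
  obtain ⟨n1, B, hn, hB⟩ := star_quot (by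
      rw [← toK_inv', inv'_add, inv'_inv', add_comm]) SK
    (f := toK O K (incl O H b)) (by rw [← map_mul, ← map_mul, hbb])
    (by rw [map_add, toK_inv']) (by rw [← toK_inv', ← map_mul, hFF, map_zero]) hH
    (fun g hg => by rw [← toK_cj, hcH g hg]) (fun g hg => by rw [← toK_cj, hc g hg, toK_inv'])
    hHn le_rfl Φ
  have hn1 : 0 < n1 := by
    rcases Nat.eq_zero_or_pos n1 with h | h
    · have := SK.pos
      rw [hn, h] at this
      simp at this
    · exact h
  rw [hn, star_one hn1 B hB, mul_one]

theorem two_num (SK : SimpleQuot (toK O K (incl O H b + inv' (incl O H b)))) {w : K}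
    (hw : IsDefectClass O (incl O H b + inv' (incl O H b)) w) (hwr : IsConj w w⁻¹)
    {P : Subgroup K} (hP : Nat.card P = 2 ^ (Nat.card (cent w)).factorization 2) :
    (Nat.card H : ℂ) * (((incl O H b).coeff 1 : O) : ℂ) = (Sb.n : ℂ) ^ 2 * Nat.card P ∧
      Sb.n.factorization 2 + (Nat.card P).factorization 2 = (Nat.card H).factorization 2 := by
  have hne : ∃ g, g ∉ H := by
    by_contra hcon
    push Not at hcon
    have h3 : H = ⊤ := by
      rw [eq_top_iff]
      intro g _
      exact hcon g
    rw [h3, Subgroup.index_top] at hH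
    omega
  obtain ⟨-, he, hec, -⟩ := isBlock_two b hb hFF hc hne
  have hn := two_n O h2 hH b hb Sb hFF hc SK
  obtain ⟨h3, h4⟩ := card_coeff_one O h2 he hec SK hw hwr hP
  have hcard : Nat.card K = 2 * Nat.card H := by
    rw [← Subgroup.card_mul_index H, hH, mul_comm]
  constructor
  · have h5 : (((incl O H b + inv' (incl O H b)).coeff 1 : O) : ℂ) =
        2 * (((incl O H b).coeff 1 : O) : ℂ) := by
      rw [MonoidAlgebra.coeff_add, Finsupp.add_apply, inv'_coeff, inv_one]
      push_cast
      ring
    rw [h5, hn, hcard] at h3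
    push_cast at h3
    have h6 : (4 : ℂ) * ((Nat.card H : ℂ) * (((incl O H b).coeff 1 : O) : ℂ)) =
        4 * ((Sb.n : ℂ) ^ 2 * Nat.card P) := by
      linear_combination -h3
    exact mul_left_cancel₀ (by norm_num) h6
  · rw [hn, hcard, Nat.factorization_mul two_ne_zero Sb.pos.ne',
      Nat.factorization_mul two_ne_zero Nat.card_pos.ne'] at h4
    simp only [Finsupp.coe_add, Pi.add_apply, Nat.prime_two.factorization_self] at h4
    omega

end two

end Pool.Agent.Helper36.NC
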