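import Pool.Agent.Helper36.NC.E

/-!
# A normal subgroup of index two: the sum over the nontrivial coset
-/

set_option autoImplicit false
open scoped BigOperators MonoidAlgebra
open Classical

namespace Pool.Agent.Helper36.NC

open Pool.Agent.Helper36.NB Pool.Agent.Helper44.S3

/-- Idempotents of rank one are primitive. -/
theorem prim_of_rank_one (O : ValuationSubring ℂ) {G : Type} [Group G] [Fintype G]
    {e : MonoidAlgebra O G} (S : SimpleQuot (toK O G e)) {j : MonoidAlgebra O G} (hj : j * j = j)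
    (hje : j * e = j) (hj1 : (S.ρ (toK O G j)).rank = 1) : IsPrimitiveIdem j := by
  have hzero : ∀ f : MonoidAlgebra O G, f * f = f → f * e = f → S.ρ (toK O G f) = 0 → f = 0 := by
    intro f hf hfe h0
    apply idem_eq_zero O hf
    obtain ⟨r, hr⟩ := S.nil _ h0
    rw [← map_mul, hfe] at hr
    have h1 : ∀ r : ℕ, toK O G f ^ (r + 1) = toK O G f := by
      intro r
      induction r with
      | zero => rw [zero_add, pow_one]
      | succ r ih => rw [pow_succ, ih, ← map_mul, hf]
    rw [← h1 r, pow_succ, hr, zero_mul]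
  refine ⟨?_, hj, ?_⟩
  · rintro rfl
    rw [map_zero, map_zero, Matrix.rank_zero] at hj1
    exact zero_ne_one hj1
  · intro f hf hfj hjf
    have hfe : f * e = f := by rw [← hfj, mul_assoc, hje]
    set M := S.ρ (toK O G f) with hM
    set J := S.ρ (toK O G j) with hJ
    have hMM : M * M = M := by rw [hM, ← map_mul, ← map_mul, hf]
    have hMJ : M * J = M := by rw [hM, hJ, ← map_mul, ← map_mul, hfj]
    have hJM : J * M = M := by rw [hM, hJ, ← map_mul, ← map_mul, hjf]
    have hle : M.rank ≤ 1 := by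
      rw [← hMJ, ← hj1]
      exact Matrix.rank_mul_le_right _ _
    rcases Nat.eq_zero_or_pos M.rank with h0 | h0
    · left
      exact hzero f hf hfe (C1aux.rank_eq_zero' M h0)
    · right
      have h1 : M.rank = 1 := by omega
      have hr : LinearMap.range M.mulVecLin ≤ LinearMap.range J.mulVecLin := by
        rintro _ ⟨v, rfl⟩
        refine ⟨M.mulVec v, ?_⟩
        rw [Matrix.mulVecLin_apply, Matrix.mulVecLin_apply, Matrix.mulVec_mulVec, hJM]
      have heq : LinearMap.range M.mulVecLin = LinearMap.range J.mulVecLin := by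
        apply Submodule.eq_of_le_of_finrank_eq hr
        exact h1.trans hj1.symm
      have h3 : M * J = J := by
        ext i l
        have h4 : J.mulVec (Pi.single l 1) ∈ LinearMap.range M.mulVecLin := by
          rw [heq]
          exact ⟨_, rfl⟩
        obtain ⟨v, hv⟩ := h4
        rw [Matrix.mulVecLin_apply] at hv
        have h5 : (M * J).mulVec (Pi.single l 1) = J.mulVec (Pi.single l 1) := by
          rw [← Matrix.mulVec_mulVec, ← hv, Matrix.mulVec_mulVec, hMM]
        have h6 := congrFun h5 i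
        rw [Matrix.mulVec_single_one, Matrix.mulVec_single_one] at h6
        exact h6
      have h4 : M = J := by rw [← hMJ, h3]
      have h5 : j - f = 0 := by
        apply hzero
        · rw [mul_sub, sub_mul, sub_mul, hj, hfj, hjf, hf, sub_self, sub_zero]
        · rw [sub_mul, hje, hfe]
        · rw [map_sub, map_sub, ← hM, ← hJ, h4, sub_self]
      exact (sub_eq_zero.1 h5).symm

/-- A pair which centralises/inverts an element with non-zero coefficient is contained in a defect
pair. -/
theorem pair_emb (O : ValuationSubring ℂ) {G : Type} [Group G] [Fintype G]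
    (h2 : (2 : O) ∈ IsLocalRing.maximalIdeal O) (e : MonoidAlgebra O G) (he : e * e = e)
    (hec : ∀ a, a * e = e * a) (her : inv' e = e) (S : SimpleQuot (toK O G e)) {x w : G}
    (hx : IsLocalRing.residue O (e.coeff x) ≠ 0) (hw : IsDefectClass O e w)
    (hwr : IsConj w w⁻¹) {P Q D E : Subgroup G} (h' : IsDefectPair w P Q) (hE : IsPGroup 2 E)
    (hDE : D ≤ E) (hidx : ∀ t ∈ E, ∀ t' ∈ E, t ∉ D → t' ∉ D → t * t' ∈ D)
    (hP : PairIn D E x) :
    Nat.card D ≤ Nat.card P ∧ Nat.card E ≤ Nat.card Q ∧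
      (Nat.card P ≤ Nat.card D → Nat.card Q ≤ Nat.card E →
        ∃ g : G, (∀ t, t ∈ D ↔ g * t * g⁻¹ ∈ P) ∧ ∀ t, t ∈ E ↔ g * t * g⁻¹ ∈ Q) := by
  have : CharP (resK O) 2 := resK_charP O h2
  have hkc : ∀ a, a * toK O G e = toK O G e * a := fun a => by
    obtain ⟨y', rfl⟩ := toK_surjective O a
    rw [← map_mul, ← map_mul, hec]
  have hnil : ¬ IsNilpotent (classSum (resK O) w * toK O G e) := by
    have h1 := hw.2.2
    rwa [map_mul, classSum_toK] at h1
  obtain ⟨z, hz, hzi, hzw⟩ := exists_symm_inv (toK O G e) (by rw [← map_mul, he]) hkc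
    (by rw [← toK_inv', her]) S w hwr hnil
  obtain ⟨c, hc, hPc⟩ := ud z hzi D E hE hDE hidx (fun t _ => hz _) x w (hz _) hP hwr
    (by rw [hzw, toK_apply]; exact hx)
  obtain ⟨g, hg⟩ := isConj_iff.1 hc
  have h3 := pairIn_conj hPc g⁻¹
  have h4 : g⁻¹ * c * g⁻¹⁻¹ = w := by rw [← hg]; group
  rw [h4] at h3
  have hinj : Function.Injective (MulAut.conj g⁻¹).toMonoidHom := (MulAut.conj g⁻¹).injective
  have hcD : Nat.card (D.map (MulAut.conj g⁻¹).toMonoidHom) = Nat.card D :=
    Subgroup.card_map_of_injective hinj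
  have hcE : Nat.card (E.map (MulAut.conj g⁻¹).toMonoidHom) = Nat.card E :=
    Subgroup.card_map_of_injective hinj
  have h5 := pair_le h' (hE.map _) (Subgroup.map_mono hDE) h3
  rw [hcD, hcE] at h5
  refine ⟨h5.1, h5.2, fun hle1 hle2 => ?_⟩
  obtain ⟨g1, hg1, hg2⟩ := pair_conj h' (hE.map _) (Subgroup.map_mono hDE) h3
    (by rw [hcD]; exact hle1) (by rw [hcE]; exact hle2)
  have hmem : ∀ (A : Subgroup G) (t : G),
      t ∈ A ↔ g⁻¹ * t * g ∈ A.map (MulAut.conj g⁻¹).toMonoidHom := by
    intro A t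
    constructor
    · intro ht
      refine ⟨t, ht, ?_⟩
      change g⁻¹ * t * g⁻¹⁻¹ = _
      rw [inv_inv]
    · rintro ⟨s, hs, hst⟩
      change g⁻¹ * s * g⁻¹⁻¹ = _ at hst
      rw [inv_inv] at hst
      have h6 : s = t := mul_left_cancel (mul_right_cancel hst)
      rwa [← h6]
  have hgr : ∀ t, g1 * (g⁻¹ * t * g) * g1⁻¹ = (g1 * g⁻¹) * t * (g1 * g⁻¹)⁻¹ := by
    intro t
    group
  exact ⟨g1 * g⁻¹, fun t => by rw [hmem D t, hg1, hgr], fun t => by rw [hmem E t, hg2, hgr]⟩

theorem card_of_pair {G : Type} [Group G] [Fintype G] {x : G} {D E : Subgroup G}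
    (h : IsDefectPair x D E) (hne : D ≠ E) : Nat.card E = 2 * Nat.card D := by
  obtain ⟨t, htE, htD⟩ := exists_t h hne
  have h1 : (D.subgroupOf E).index = 2 := by
    rw [Subgroup.index_eq_two_iff]
    refine ⟨⟨t, htE⟩, ?_⟩
    rintro ⟨b, hb⟩
    rw [Subgroup.mem_subgroupOf, Subgroup.mem_subgroupOf]
    simp only [Subgroup.coe_mul]
    by_cases hbD : b ∈ D
    · right
      refine ⟨hbD, fun hbt => htD ?_⟩
      have := D.mul_mem (D.inv_mem hbD) hbt
      rwa [inv_mul_cancel_left] at this
    · left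
      refine ⟨?_, hbD⟩
      have hbi : b⁻¹ ∉ D := fun hh => hbD (by simpa using D.inv_mem hh)
      have := t_mul_mem h (E.inv_mem hb) hbi htE htD
      rwa [inv_inv] at this
  have h2 := Subgroup.card_mul_index (D.subgroupOf E)
  rw [h1, Nat.card_congr (Subgroup.subgroupOfEquivOfLe h.1).toEquiv] at h2
  rw [← h2, mul_comm]

section two

variable (O : ValuationSubring ℂ) (h2 : (2 : O) ∈ IsLocalRing.maximalIdeal O)
  {K : Type} [Group K] [Fintype K] {H : Subgroup K} (hH : H.index = 2)
  (b : MonoidAlgebra O H) (hb : IsBlock b) (Sb : SimpleQuot (toK O H b))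
  (hFF : incl O H b * inv' (incl O H b) = 0)
  (hc : ∀ g, g ∉ H → cj g (incl O H b) = inv' (incl O H b))

include h2 hH hb Sb hFF hc

/-- The sum over the coset of `H`. -/
theorem two_sum (SK : SimpleQuot (toK O K (incl O H b + inv' (incl O H b))))
    (hnil : ∀ (w : K) (P Q : Subgroup K),
      IsDefectClass O (incl O H b + inv' (incl O H b)) w → IsDefectPair w P Q →
        NilpotentElements P (toK O K (incl O H b + inv' (incl O H b))))
    {w : K} (hw : IsDefectClass O (incl O H b + inv' (incl O H b)) w) {P Q : Subgroup K}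
    (hPQ : IsDefectPair w P Q) (hne : P ≠ Q) :
    ∑ g ∈ Finset.univ.filter (fun g : K => g ∉ H), (((incl O H b).coeff (g * g) : O) : ℂ) =
      Sb.n * (Nat.card {y : K // y ∈ Q ∧ y ∉ P ∧ y * y = 1} : ℂ) := by
  have hHn : H.Normal := Subgroup.normal_of_index_eq_two hH
  have hex : ∃ g, g ∉ H := by
    by_contra hcon
    push Not at hcon
    have h3 : H = ⊤ := by
      rw [eq_top_iff]
      intro g _
      exact hcon g
    rw [h3, Subgroup.index_top] at hH
    omega
  have hbl := isBlock_two b hb hFF hc hex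
  obtain ⟨-, he, hec, -⟩ := id hbl
  have her : inv' (incl O H b + inv' (incl O H b)) = incl O H b + inv' (incl O H b) := by
    rw [inv'_add, inv'_inv', add_comm]
  obtain ⟨hb0, hbb, hbc, hbp⟩ := id hb
  have hn := two_n O h2 hH b hb Sb hFF hc SK
  obtain ⟨I⟩ := exists_irrData K
  obtain ⟨J⟩ := exists_irrData P
  obtain ⟨j, hj, hje, hj1⟩ := exists_rank_one O _ he hec SK
  have hjp := prim_of_rank_one O SK hj hje hj1
  have hmain := (block_main O h2 _ hbl her w hw P Q hPQ hne (hnil w P Q hw hPQ) I J).2 j hjp hje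
  have hsum := sum_coeff_pim O _ he hec SK j hjp hje
  rw [hmain, hn] at hsum
  set F := incl O H b with hF
  have hFi : F * F = F := by rw [hF, ← map_mul, hbb]
  have hFs : ∀ g, g ∉ H → F.coeff g = 0 := fun g hg => incl_supp H b hg
  have hcH : ∀ g ∈ H, cj g F = F := by
    intro g hg
    rw [cj_eq_iff, hF]
    have h1 := congrArg (incl O H) (hbc (el O ⟨g, hg⟩))
    rw [map_mul, map_mul, incl_el] at h1
    exact h1
  obtain ⟨z, hz⟩ := hex
  have hFF' : inv' F * F = 0 := by
    have h1 := cj_mul z F (inv' F)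
    rw [hFF, ← cj_inv', hc z hz, inv'_inv'] at h1
    rw [← h1]
    unfold cj
    rw [mul_zero, zero_mul]
  have hin : ∑ k ∈ Finset.univ.filter (fun k : K => k ∈ H), F.coeff (k * k) = 0 := by
    apply sum_sq_zero H hFi hFs
    · intro x hx k
      simp only [Finset.mem_filter, Finset.mem_univ, true_and]
      exact Subgroup.mul_mem_cancel_left H hx
    · intro k hk
      simp only [Finset.mem_filter, Finset.mem_univ, true_and] at hk
      rw [hcH _ (H.inv_mem hk), hFF']
  have h3 : ∑ g : K, ((inv' F).coeff (g * g)) = ∑ g : K, F.coeff (g * g) := by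
    exact sum_inv F Finset.univ (fun k => by simp)
  have h4 : ∑ g : K, ((F + inv' F).coeff (g * g)) =
      2 * ∑ g ∈ Finset.univ.filter (fun g : K => g ∉ H), F.coeff (g * g) := by
    have h5 : ∑ g : K, F.coeff (g * g) =
        ∑ g ∈ Finset.univ.filter (fun g : K => g ∉ H), F.coeff (g * g) := by
      rw [← Finset.sum_filter_add_sum_filter_not Finset.univ (fun g : K => g ∈ H), hin, zero_add]
    have h6 : ∀ g : K, (F + inv' F).coeff (g * g) = F.coeff (g * g) + (inv' F).coeff (g * g) := by
      intro g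
      rw [MonoidAlgebra.coeff_add, Finsupp.add_apply]
    rw [Finset.sum_congr rfl (fun g _ => h6 g), Finset.sum_add_distrib, h3, h5]
    ring
  have h5 := congrArg (fun z : O => (z : ℂ)) h4
  push_cast at h5
  rw [h5] at hsum
  have h20 : ((2 : O) : ℂ) = 2 := rfl
  rw [h20] at hsum
  push_cast at hsum
  have h6 : (2 : ℂ) * ∑ g ∈ Finset.univ.filter (fun g : K => g ∉ H), ((F.coeff (g * g) : O) : ℂ) =
      2 * (Sb.n * (Nat.card {y : K // y ∈ Q ∧ y ∉ P ∧ y * y = 1} : ℂ)) := by
    rw [← hsum]
    ring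
  exact mul_left_cancel₀ two_ne_zero h6

end two

end Pool.Agent.Helper36.NC
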