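import Pool.Agent.Helper36.NC.F

/-!
# Transport to a subgroup of the ambient group
-/

set_option autoImplicit false
open scoped BigOperators MonoidAlgebra
open Classical

namespace Pool.Agent.Helper36.NC

open Pool.Agent.Helper36.NB Pool.Agent.Helper44.S3

section tr

variable {G : Type} [Group G] {H L : Subgroup G} (hle : H ≤ L)

/-- The isomorphism `R[H] ≅ R[H.subgroupOf L]`. -/
noncomputable def trE (R : Type) [CommRing R] :
    MonoidAlgebra R H ≃ₐ[R] MonoidAlgebra R (H.subgroupOf L) :=
  MonoidAlgebra.domCongr R R (Subgroup.subgroupOfEquivOfLe hle).symm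

theorem trE_single (R : Type) [CommRing R] (h : H) (r : R) :
    trE hle R (MonoidAlgebra.single h r) =
      MonoidAlgebra.single ((Subgroup.subgroupOfEquivOfLe hle).symm h) r := by
  unfold trE
  exact MonoidAlgebra.domCongr_single _ _ _

theorem incl_single {R : Type} [CommRing R] (H : Subgroup G) (h : H) (r : R) :
    incl R H (MonoidAlgebra.single h r) = MonoidAlgebra.single (h : G) r := by
  simp [incl]

theorem incl_incl {R : Type} [CommRing R] (b : MonoidAlgebra R H) :
    incl R L (incl R (H.subgroupOf L) (trE hle R b)) = incl R H b := by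
  induction b using MonoidAlgebra.induction_linear with
  | zero => simp only [map_zero]
  | add x y hx hy => simp only [map_add, hx, hy]
  | single h r =>
    rw [trE_single, incl_single, incl_single, incl_single]
    rfl

theorem toK_trE (O : ValuationSubring ℂ) (b : MonoidAlgebra O H) :
    toK O (H.subgroupOf L) (trE hle O b) = trE hle (resK O) (toK O H b) := by
  induction b using MonoidAlgebra.induction_linear with
  | zero => simp only [map_zero]
  | add x y hx hy => simp only [map_add, hx, hy]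
  | single h r =>
    have h1 : ∀ (M : Type) [Group M] (m : M), toK O M (MonoidAlgebra.single m r) =
        MonoidAlgebra.single m (IsLocalRing.residue O r) := by
      intro M _ m
      simp [toK]
    rw [trE_single, h1, h1, trE_single]

theorem isBlock_trE {R : Type} [CommRing R] {b : MonoidAlgebra R H} (hb : IsBlock b) :
    IsBlock (trE hle R b) := by
  obtain ⟨h0, h1, h2, h3⟩ := hb
  refine ⟨?_, ?_, ?_, ?_⟩
  · intro h
    apply h0
    apply (trE hle R).injective
    rw [h, map_zero]
  · rw [← map_mul, h1]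
  · intro a
    obtain ⟨a', rfl⟩ := (trE hle R).surjective a
    rw [← map_mul, ← map_mul, h2]
  · intro f hf hfc
    obtain ⟨f', rfl⟩ := (trE hle R).surjective f
    have h4 : f' * f' = f' := (trE hle R).injective (by rw [map_mul, hf])
    have h5 : ∀ a, a * f' = f' * a := fun a => (trE hle R).injective (by
      rw [map_mul, map_mul, hfc])
    rcases h3 f' h4 h5 with h | h
    · left
      rw [← map_mul, h, map_zero]
    · right
      rw [← map_mul, h]

/-- Transport of the simple quotient. -/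
noncomputable def sqE {k : Type} [Field k] {b : MonoidAlgebra k H} (S : SimpleQuot b) :
    SimpleQuot (trE hle k b) where
  n := S.n
  ρ := S.ρ.comp (trE hle k).symm.toAlgHom
  pos := S.pos
  surj := S.surj.comp (trE hle k).symm.surjective
  one := by
    change S.ρ ((trE hle k).symm (trE hle k b)) = 1
    rw [AlgEquiv.symm_apply_apply, S.one]
  nil := by
    intro a ha
    obtain ⟨r, hr⟩ := S.nil ((trE hle k).symm a) ha
    refine ⟨r, ?_⟩
    have h1 := congrArg (trE hle k) hr
    rw [map_pow, map_mul, AlgEquiv.apply_symm_apply, map_zero] at h1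
    exact h1

end tr

theorem incl_inv' {R : Type} [CommRing R] {G : Type} [Group G] (H : Subgroup G)
    (a : MonoidAlgebra R H) : inv' (incl R H a) = incl R H (inv' a) := by
  ext g
  by_cases hg : g ∈ H
  · rw [inv'_coeff]
    have h1 := incl_coeff H a (⟨g, hg⟩⁻¹ : H)
    have h2 := incl_coeff H (inv' a) (⟨g, hg⟩ : H)
    rw [inv'_coeff] at h2
    change (incl R H a).coeff g⁻¹ = _ at h1
    change (incl R H (inv' a)).coeff g = _ at h2
    rw [h1, h2]
  · rw [inv'_coeff, incl_supp H _ hg, incl_supp H _ (fun h => hg (by simpa using H.inv_mem h))]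

theorem incl_cj' {R : Type} [CommRing R] {G : Type} [Group G] (H : Subgroup G)
    (a : MonoidAlgebra R H) (g : H) : cj (g : G) (incl R H a) = incl R H (cj g a) := by
  unfold cj
  rw [map_mul, map_mul, incl_el, incl_el]
  rfl

/-- The numerical data of the block `F` of `O[H]`, relative to `G`. -/
structure Dat (O : ValuationSubring ℂ) {G : Type} [Group G] [Fintype G] (H : Subgroup G)
    (F : MonoidAlgebra O G) (a q : ℕ) : Prop where
  pow : ∃ s, q = 2 ^ s
  one : (Nat.card H : ℂ) * ((F.coeff 1 : O) : ℂ) = (a : ℂ) ^ 2 * q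
  val : a.factorization 2 + q.factorization 2 = (Nat.card H).factorization 2
  emb : ∀ x, IsLocalRing.residue O ((F + inv' F).coeff x) ≠ 0 → ∀ P : Subgroup G, P ≤ H →
    IsPGroup 2 P → (∀ d ∈ P, d * x * d⁻¹ = x) → Nat.card P ≤ q
  key : ∀ z, cj z F = inv' F → z * z ∈ H → ∀ x, ∀ P Q : Subgroup G,
    IsLocalRing.residue O ((F + inv' F).coeff x) ≠ 0 → P ≤ H → P ≤ Q → IsPGroup 2 Q →
    (∀ t ∈ Q, t ∉ P → z⁻¹ * t ∈ H ∧ t ∉ H) → (∀ t ∈ Q, ∀ t' ∈ Q, t ∉ P → t' ∉ P → t * t' ∈ P) →
    Nat.card Q = 2 * Nat.card P → PairIn P Q x → Nat.card P = q →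
    ∑ g ∈ Finset.univ.filter (fun g : G => z⁻¹ * g ∈ H), ((F.coeff (g * g) : O) : ℂ) =
      a * (Nat.card {y : G // y ∈ Q ∧ y ∉ P ∧ y * y = 1} : ℂ)

/-- The extension of `H` by `z`. -/
def ext2 {G : Type} [Group G] (H : Subgroup G) (hH : H.Normal) (z : G) (hz : z * z ∈ H) :
    Subgroup G where
  carrier := {g | g ∈ H ∨ z⁻¹ * g ∈ H}
  one_mem' := Or.inl H.one_mem
  mul_mem' := by
    rintro a b (ha | ha) (hb | hb)
    · exact Or.inl (H.mul_mem ha hb)
    · right
      have h1 : z⁻¹ * (a * b) = (z⁻¹ * a * z⁻¹⁻¹) * (z⁻¹ * b) := by group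
      rw [h1]
      exact H.mul_mem (hH.conj_mem a ha z⁻¹) hb
    · right
      rw [← mul_assoc]
      exact H.mul_mem ha hb
    · left
      have h1 : a * b = (z * z) * (z⁻¹ * (z⁻¹ * a) * z⁻¹⁻¹) * (z⁻¹ * b) := by group
      rw [h1]
      exact H.mul_mem (H.mul_mem hz (hH.conj_mem _ ha z⁻¹)) hb
  inv_mem' := by
    rintro a (ha | ha)
    · exact Or.inl (H.inv_mem ha)
    · right
      have h1 : z⁻¹ * a⁻¹ = (z⁻¹ * (z⁻¹ * a)⁻¹ * z⁻¹⁻¹) * (z * z)⁻¹ := by group
      rw [h1]
      exact H.mul_mem (hH.conj_mem _ (H.inv_mem ha) z⁻¹) (H.inv_mem hz)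

theorem mem_ext2 {G : Type} [Group G] {H : Subgroup G} (hH : H.Normal) {z : G}
    (hz : z * z ∈ H) (g : G) : g ∈ ext2 H hH z hz ↔ g ∈ H ∨ z⁻¹ * g ∈ H := Iff.rfl

end Pool.Agent.Helper36.NC
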