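import Pool.Agent.Helper36.NC.G

/-!
# The data of the blocks `b + b°` of the subgroups `H⟨z⟩`
-/

set_option autoImplicit false
open scoped BigOperators MonoidAlgebra
open Classical

namespace Pool.Agent.Helper36.NC

open Pool.Agent.Helper36.NB Pool.Agent.Helper44.S3

variable (O : ValuationSubring ℂ) (h2 : (2 : O) ∈ IsLocalRing.maximalIdeal O)
  {G : Type} [Group G] [Fintype G] {H : Subgroup G} (hH : H.Normal)
  (b : MonoidAlgebra O H) (hb : IsBlock b) (Sb : SimpleQuot (toK O H b))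
  (hFF : incl O H b * inv' (incl O H b) = 0)

/-- The hypothesis on the extensions of `H` of degree two. -/
def NilExt (O : ValuationSubring ℂ) {G : Type} [Group G] [Fintype G] {H : Subgroup G}
    (b : MonoidAlgebra O H) : Prop :=
  ∀ K : Subgroup G, H ≤ K → H.relIndex K = 2 →
    (∀ k ∈ K, k ∉ H → cj k (incl O H b) = inv' (incl O H b)) →
      OneSimple (toK O K (res K (incl O H b + inv' (incl O H b)))) ∧
      ∀ (x : K) (P Q : Subgroup K),
        IsDefectClass O (res K (incl O H b + inv' (incl O H b))) x → IsDefectPair x P Q →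
          NilpotentElements P (toK O K (res K (incl O H b + inv' (incl O H b))))

include h2 hH hb Sb hFF

private theorem dat_z (hNK : NilExt O b) (z : G) (hz : cj z (incl O H b) = inv' (incl O H b))
    (hzz : z * z ∈ H) :
    ∃ q : ℕ, (∃ s, q = 2 ^ s) ∧
      (Nat.card H : ℂ) * (((incl O H b).coeff 1 : O) : ℂ) = (Sb.n : ℂ) ^ 2 * q ∧
      Sb.n.factorization 2 + q.factorization 2 = (Nat.card H).factorization 2 ∧
      (∀ x, IsLocalRing.residue O ((incl O H b + inv' (incl O H b)).coeff x) ≠ 0 →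
        ∀ P : Subgroup G, P ≤ H → IsPGroup 2 P → (∀ d ∈ P, d * x * d⁻¹ = x) →
          Nat.card P ≤ q) ∧
      (∀ x, ∀ P Q : Subgroup G,
        IsLocalRing.residue O ((incl O H b + inv' (incl O H b)).coeff x) ≠ 0 → P ≤ H →
        P ≤ Q → IsPGroup 2 Q → (∀ t ∈ Q, t ∉ P → z⁻¹ * t ∈ H ∧ t ∉ H) →
        (∀ t ∈ Q, ∀ t' ∈ Q, t ∉ P → t' ∉ P → t * t' ∈ P) →
        Nat.card Q = 2 * Nat.card P → PairIn P Q x → Nat.card P = q →
        ∑ g ∈ Finset.univ.filter (fun g : G => z⁻¹ * g ∈ H),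
          (((incl O H b).coeff (g * g) : O) : ℂ) =
          Sb.n * (Nat.card {y : G // y ∈ Q ∧ y ∉ P ∧ y * y = 1} : ℂ)) := by
  have : IsAlgClosed (resK O) := resK_isAlgClosed O
  obtain ⟨hb0, hbb, hbc, hbp⟩ := id hb
  set F := incl O H b with hF
  have hFi : F * F = F := by rw [hF, ← map_mul, hbb]
  have hFs : ∀ g, g ∉ H → F.coeff g = 0 := fun g hg => incl_supp H b hg
  have hcH : ∀ g ∈ H, cj g F = F := by
    intro g hg
    rw [cj_eq_iff, hF]
    have h1 := congrArg (incl O H) (hbc (el O ⟨g, hg⟩))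
    rw [map_mul, map_mul, incl_el] at h1
    exact h1
  have hF0 : F ≠ 0 := by
    intro h
    apply hb0
    exact incl_injective H (by rw [← hF, h, map_zero])
  have hzH : z ∉ H := by
    intro h
    apply hF0
    rw [← hFi]
    nth_rewrite 2 [← hcH z h]
    rw [hz, hFF]
  set K := ext2 H hH z hzz with hK
  have hmK : ∀ g, g ∈ K ↔ g ∈ H ∨ z⁻¹ * g ∈ H := fun g => Iff.rfl
  have hle : H ≤ K := fun g hg => Or.inl hg
  have hzK : z ∈ K := Or.inr (by rw [inv_mul_cancel]; exact H.one_mem)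
  have hidx : (H.subgroupOf K).index = 2 := by
    rw [Subgroup.index_eq_two_iff]
    refine ⟨⟨z, hzK⟩, ?_⟩
    rintro ⟨c, hcK⟩
    rw [Subgroup.mem_subgroupOf, Subgroup.mem_subgroupOf]
    simp only [Subgroup.coe_mul]
    by_cases hcH' : c ∈ H
    · right
      refine ⟨hcH', fun h => hzH ?_⟩
      have := H.mul_mem (H.inv_mem hcH') h
      rwa [inv_mul_cancel_left] at this
    · left
      refine ⟨?_, hcH'⟩
      rcases hcK with h | h
      · exact absurd h hcH'
      · have h1 : c * z = (z * z) * (z⁻¹ * (z⁻¹ * c) * z⁻¹⁻¹) := by group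
        rw [h1]
        exact H.mul_mem hzz (hH.conj_mem _ h z⁻¹)
  have hKc : ∀ k ∈ K, k ∉ H → cj k F = inv' F := by
    intro k hk hkH
    rcases hk with h | h
    · exact absurd h hkH
    · have h1 : k = z * (z⁻¹ * k) := by group
      rw [h1, ← cj_cj, hcH _ h, hz]
  obtain ⟨hone, hnil⟩ := hNK K hle hidx hKc
  -- the block of `K`
  set HK := H.subgroupOf K with hHK
  set bK := trE hle O b with hbK
  have hblK : IsBlock bK := isBlock_trE hle hb
  set FK := incl O HK bK with hFK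
  have hinc : incl O K FK = F := incl_incl hle b
  have hinc' : incl O K (inv' FK) = inv' F := by rw [← incl_inv', hinc]
  have hres : res K (F + inv' F) = FK + inv' FK := by
    rw [← hinc', ← hinc, ← map_add, res_incl]
  rw [hres] at hone hnil
  obtain ⟨SbK, hSbK⟩ : ∃ S' : SimpleQuot (toK O HK bK), S'.n = Sb.n := by
    rw [hbK, toK_trE]
    exact ⟨sqE hle Sb, rfl⟩
  have hFFK : FK * inv' FK = 0 := by
    apply incl_injective K
    rw [map_mul, hinc, hinc', hFF, map_zero]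
  have hcK : ∀ g, g ∉ HK → cj g FK = inv' FK := by
    intro g hg
    apply incl_injective K
    rw [← incl_cj', hinc, hinc']
    exact hKc g g.2 (fun h => hg (Subgroup.mem_subgroupOf.2 h))
  have hexK : ∃ g, g ∉ HK := ⟨⟨z, hzK⟩, fun h => hzH (Subgroup.mem_subgroupOf.1 h)⟩
  have hbl := isBlock_two bK hblK hFFK hcK hexK
  obtain ⟨he0, he, hec, -⟩ := id hbl
  have her : inv' (FK + inv' FK) = FK + inv' FK := by rw [inv'_add, inv'_inv', add_comm]
  obtain ⟨SK⟩ := simpleQuot_of_oneSimple (toK O K (FK + inv' FK))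
    (fun h => he0 (idem_eq_zero O he h)) (by rw [← map_mul, he]) (fun y => by
      obtain ⟨y', rfl⟩ := toK_surjective O y
      rw [← map_mul, ← map_mul, hec]) hone
  obtain ⟨w, hw, hwr⟩ := exists_real_class O h2 _ he hec her SK
  obtain ⟨P, Q, hPQ⟩ := exists_pair w
  obtain ⟨h3, h4⟩ := two_num O h2 hidx bK hblK SbK hFFK hcK SK hw hwr hPQ.2.2.2.1
  have hcardH : Nat.card HK = Nat.card H :=
    Nat.card_congr (Subgroup.subgroupOfEquivOfLe hle).toEquiv
  have hcoef : ∀ k : K, FK.coeff k = F.coeff (k : G) := fun k => by rw [← hinc, incl_coeff]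
  have hcoef' : ∀ k : K, (FK + inv' FK).coeff k = (F + inv' F).coeff (k : G) := by
    intro k
    have h5 := incl_coeff K (FK + inv' FK) k
    rw [map_add, hinc, hinc'] at h5
    exact h5.symm
  have hxH : ∀ x, IsLocalRing.residue O ((F + inv' F).coeff x) ≠ 0 → x ∈ H := by
    intro x hx
    by_contra hcon
    apply hx
    rw [MonoidAlgebra.coeff_add, Finsupp.add_apply, inv'_coeff, hFs x hcon,
      hFs x⁻¹ (fun h => hcon (by simpa using H.inv_mem h)), add_zero, map_zero]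
  have hcs : ∀ A : Subgroup G, A ≤ K → Nat.card (A.subgroupOf K) = Nat.card A := fun A hA =>
    Nat.card_congr (Subgroup.subgroupOfEquivOfLe hA).toEquiv
  refine ⟨Nat.card P, ⟨_, hPQ.2.2.2.1⟩, ?_, ?_, ?_, ?_⟩
  · rw [← hcardH, ← hSbK, ← h3]
    congr 2
    rw [hcoef]
    rfl
  · rw [← hcardH, ← hSbK, ← h4]
  · intro x hx P0 hP0 h2P hcom
    have h5 := (pair_emb O h2 _ he hec her SK (x := ⟨x, hle (hxH x hx)⟩)
      (by rw [hcoef']; exact hx) hw hwr hPQ (D := P0.subgroupOf K) (E := P0.subgroupOf K)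
      (by rw [Subgroup.subgroupOf]; exact h2P.comap_subtype) le_rfl
      (fun t ht t' _ hn _ => absurd ht hn)
      ⟨fun d hd => Subtype.ext (hcom d (Subgroup.mem_subgroupOf.1 hd)),
        fun t ht hn => absurd ht hn⟩).1
    rwa [hcs P0 (hP0.trans hle)] at h5
  · intro x P0 Q0 hx hP0 hPQ0 h2Q hQz hidx0 hcQ hPin hq
    have hQK : Q0 ≤ K := by
      intro t ht
      by_cases h : t ∈ P0
      · exact hle (hP0 h)
      · exact Or.inr (hQz t ht h).1
    have hPK : P0 ≤ K := hPQ0.trans hQK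
    obtain ⟨h5, h6, h7⟩ := pair_emb O h2 _ he hec her SK (x := ⟨x, hle (hxH x hx)⟩)
      (by rw [hcoef']; exact hx) hw hwr hPQ (D := P0.subgroupOf K) (E := Q0.subgroupOf K)
      (by rw [Subgroup.subgroupOf]; exact h2Q.comap_subtype)
      (fun t ht => Subgroup.mem_subgroupOf.2 (hPQ0 (Subgroup.mem_subgroupOf.1 ht)))
      (fun t ht t' ht' hn hn' => Subgroup.mem_subgroupOf.2
        (hidx0 t (Subgroup.mem_subgroupOf.1 ht) t' (Subgroup.mem_subgroupOf.1 ht')
          (fun h => hn (Subgroup.mem_subgroupOf.2 h)) (fun h => hn' (Subgroup.mem_subgroupOf.2 h))))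
      ⟨fun d hd => Subtype.ext (hPin.1 d (Subgroup.mem_subgroupOf.1 hd)),
        fun t ht hn => Subtype.ext (hPin.2 t (Subgroup.mem_subgroupOf.1 ht)
          (fun h => hn (Subgroup.mem_subgroupOf.2 h)))⟩
    rw [hcs P0 hPK] at h5 h7
    rw [hcs Q0 hQK] at h6 h7
    have hPpos : 0 < Nat.card P := Nat.card_pos
    have hne : P ≠ Q := by
      rintro rfl
      omega
    have hcPQ := card_of_pair hPQ hne
    obtain ⟨g, hg1, hg2⟩ := h7 (by omega) (by omega)
    have hsum := two_sum O h2 hidx bK hblK SbK hFFK hcK SK (fun w P Q => hnil w P Q) hw hPQ hne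
    have hs1 : ∑ g ∈ Finset.univ.filter (fun g : K => g ∉ HK), ((FK.coeff (g * g) : O) : ℂ) =
        ∑ g ∈ Finset.univ.filter (fun g : G => z⁻¹ * g ∈ H), ((F.coeff (g * g) : O) : ℂ) := by
      refine Finset.sum_bij (fun (k : K) _ => (k : G)) ?_ ?_ ?_ ?_
      · intro k hk
        simp only [Finset.mem_filter, Finset.mem_univ, true_and] at hk ⊢
        rcases k.2 with h | h
        · exact absurd (Subgroup.mem_subgroupOf.2 h) hk
        · exact h
      · intro k _ k' _ h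
        exact Subtype.ext h
      · intro g hg
        simp only [Finset.mem_filter, Finset.mem_univ, true_and] at hg
        refine ⟨⟨g, Or.inr hg⟩, ?_, rfl⟩
        simp only [Finset.mem_filter, Finset.mem_univ, true_and]
        intro h
        have h8 : g ∈ H := Subgroup.mem_subgroupOf.1 h
        apply hzH
        have h9 := H.mul_mem h8 (H.inv_mem hg)
        have h10 : g * (z⁻¹ * g)⁻¹ = z := by group
        rwa [h10] at h9
      · intro k _
        rw [hcoef]
        rfl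
    rw [hs1, hSbK] at hsum
    rw [hsum]
    congr 2
    refine (Nat.card_congr ?_).symm
    refine { toFun := fun y => ⟨g * ⟨y.1, hQK y.2.1⟩ * g⁻¹, ?_⟩,
             invFun := fun y => ⟨((g⁻¹ * y.1 * g : K) : G), ?_⟩,
             left_inv := ?_, right_inv := ?_ }
    · refine ⟨(hg2 _).1 (Subgroup.mem_subgroupOf.2 y.2.1), ?_, ?_⟩
      · intro h
        exact y.2.2.1 (Subgroup.mem_subgroupOf.1 ((hg1 _).2 h))
      · have h8 : (⟨y.1, hQK y.2.1⟩ : K) * ⟨y.1, hQK y.2.1⟩ = 1 := Subtype.ext y.2.2.2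
        calc g * ⟨y.1, hQK y.2.1⟩ * g⁻¹ * (g * ⟨y.1, hQK y.2.1⟩ * g⁻¹) =
            g * ((⟨y.1, hQK y.2.1⟩ : K) * ⟨y.1, hQK y.2.1⟩) * g⁻¹ := by group
          _ = 1 := by rw [h8]; group
    · have h8 : g * (g⁻¹ * y.1 * g) * g⁻¹ = y.1 := by group
      refine ⟨Subgroup.mem_subgroupOf.1 ((hg2 (g⁻¹ * y.1 * g)).2 (by rw [h8]; exact y.2.1)), ?_, ?_⟩
      · intro h
        have h9 := (hg1 (g⁻¹ * y.1 * g)).1 (Subgroup.mem_subgroupOf.2 h)
        rw [h8] at h9
        exact y.2.2.1 h9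
      · have h9 : (g⁻¹ * y.1 * g) * (g⁻¹ * y.1 * g) = 1 := by
          calc (g⁻¹ * y.1 * g) * (g⁻¹ * y.1 * g) = g⁻¹ * (y.1 * y.1) * g := by group
            _ = 1 := by rw [y.2.2.2]; group
        exact congrArg (fun k : K => (k : G)) h9
    · intro y
      apply Subtype.ext
      change ((g⁻¹ * (g * ⟨y.1, hQK y.2.1⟩ * g⁻¹) * g : K) : G) = y.1
      have h8 : g⁻¹ * (g * (⟨y.1, hQK y.2.1⟩ : K) * g⁻¹) * g = ⟨y.1, hQK y.2.1⟩ := by group
      rw [h8]
    · intro y
      apply Subtype.ext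
      change g * (g⁻¹ * y.1 * g) * g⁻¹ = y.1
      group

/-- The data exist as soon as there is an extension. -/
theorem dat_of (hNK : NilExt O b)
    (hz : ∃ z, cj z (incl O H b) = inv' (incl O H b) ∧ z * z ∈ H) :
    ∃ q, Dat O H (incl O H b) Sb.n q := by
  obtain ⟨z0, hz0, hzz0⟩ := hz
  obtain ⟨q, hq1, hq2, hq3, hq4, -⟩ := dat_z O h2 hH b hb Sb hFF hNK z0 hz0 hzz0
  refine ⟨q, hq1, hq2, hq3, hq4, ?_⟩
  intro z hz hzz x P Q hx hPH hPQ h2Q hQz hidx hcQ hPin hqP
  obtain ⟨q', -, hq2', -, -, hq5⟩ := dat_z O h2 hH b hb Sb hFF hNK z hz hzz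
  have hqq : q' = q := by
    have h1 : ((Sb.n : ℂ) ^ 2 * q' : ℂ) = (Sb.n : ℂ) ^ 2 * q := by rw [← hq2, ← hq2']
    have hn : (Sb.n : ℂ) ^ 2 ≠ 0 := pow_ne_zero 2 (Nat.cast_ne_zero.2 Sb.pos.ne')
    exact_mod_cast mul_left_cancel₀ hn h1
  exact hq5 x P Q hx hPH hPQ h2Q hQz hidx hcQ hPin (by rw [hqP, hqq])

end Pool.Agent.Helper36.NC
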