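import Pool.Agent.Helper36.NC.B
import Pool.Agent.Helper36.NC.D
import Pool.Agent.Helper36.NC.H

/-!
# The terminal case
-/

set_option autoImplicit false
open scoped BigOperators MonoidAlgebra
open Classical

namespace Pool.Agent.Helper36.NC

open Pool.Agent.Helper36.NB Pool.Agent.Helper44.S3

theorem card_sup_inf {G : Type} [Group G] [Finite G] {H : Subgroup G} (hH : H.Normal)
    (E : Subgroup G) :
    Nat.card (E ⊔ H : Subgroup G) * Nat.card (E ⊓ H : Subgroup G) = Nat.card E * Nat.card H := by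
  have h1 := Subgroup.relIndex_mul_relIndex (⊥ : Subgroup G) H (E ⊔ H) bot_le le_sup_right
  have h2 := Subgroup.relIndex_mul_relIndex (⊥ : Subgroup G) (H ⊓ E) E bot_le inf_le_right
  rw [Subgroup.relIndex_bot_left, Subgroup.relIndex_bot_left] at h1 h2
  rw [Subgroup.relIndex_sup_right] at h1
  rw [Subgroup.inf_relIndex_right] at h2
  rw [← h1, ← h2, inf_comm]
  ring

/-- The numerics of the terminal case. -/
theorem term_num (O : ValuationSubring ℂ) (h2 : (2 : O) ∈ IsLocalRing.maximalIdeal O)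
    {G : Type} [Group G] [Fintype G] {e : MonoidAlgebra O G} (he : e * e = e)
    (hec : ∀ a, a * e = e * a) (S : SimpleQuot (toK O G e)) {x : G}
    (hx : IsDefectClass O e x) {D E : Subgroup G} (hDE : IsDefectPair x D E) (hne : D ≠ E)
    {H : Subgroup G} (hH : H.Normal) (F : MonoidAlgebra O G) (heq : e = F + inv' F)
    {T : Subgroup G} (hHT : H ≤ T) (hED : ∀ t ∈ E, (t ∈ D ↔ t ∈ T)) {a n1 q : ℕ} (ha : 0 < a)
    (hn : S.n = 2 * (a * n1)) (hdat : Dat O H F a q) :
    Odd n1 ∧ n1 ^ 2 * Nat.card (E ⊔ H : Subgroup G) = Nat.card G ∧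
      Nat.card (E ⊓ H : Subgroup G) = q := by
  have hxr := pair_real hDE hne
  obtain ⟨h3, h4⟩ := card_coeff_one O h2 he hec S hx hxr hDE.2.2.2.1
  have h5 : ((e.coeff 1 : O) : ℂ) = 2 * ((F.coeff 1 : O) : ℂ) := by
    rw [heq, MonoidAlgebra.coeff_add, Finsupp.add_apply, inv'_coeff, inv_one]
    push_cast
    ring
  have hone := hdat.one
  have hval := hdat.val
  obtain ⟨s, hs⟩ := hdat.pow
  have hn1 : n1 ≠ 0 := by
    rintro rfl
    have := S.pos
    rw [hn] at this
    simp at this
  have hD0 : Nat.card D ≠ 0 := Nat.card_pos.ne'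
  have hH0 : Nat.card H ≠ 0 := Nat.card_pos.ne'
  have hG0 : Nat.card G ≠ 0 := Nat.card_pos.ne'
  have hq0 : q ≠ 0 := by rw [hs]; positivity
  have hnat : 2 * (n1 ^ 2 * (Nat.card D * Nat.card H)) = Nat.card G * q := by
    have h6 : (2 * (a : ℂ) ^ 2) * (2 * ((n1 : ℂ) ^ 2 * (Nat.card D * Nat.card H))) =
        (2 * (a : ℂ) ^ 2) * (Nat.card G * q) := by
      have h7 : (S.n : ℂ) = 2 * (a * n1) := by rw [hn]; push_cast; ring
      rw [h7, h5] at h3
      calc (2 * (a : ℂ) ^ 2) * (2 * ((n1 : ℂ) ^ 2 * (Nat.card D * Nat.card H)))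
          = ((2 * (a * n1)) ^ 2 * Nat.card D) * Nat.card H := by ring
        _ = 2 * Nat.card G * ((Nat.card H : ℂ) * ((F.coeff 1 : O) : ℂ)) := by rw [h3]; ring
        _ = _ := by rw [hone]; ring
    have ha' : (2 * (a : ℂ) ^ 2) ≠ 0 :=
      mul_ne_zero two_ne_zero (pow_ne_zero 2 (Nat.cast_ne_zero.2 ha.ne'))
    have h8 := mul_left_cancel₀ ha' h6
    exact_mod_cast h8
  have hf2 : (2 : ℕ).factorization 2 = 1 := Nat.prime_two.factorization_self
  have hn1o : Odd n1 := by
    have h6 : (2 * (n1 ^ 2 * (Nat.card D * Nat.card H))).factorization 2 =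
        (Nat.card G * q).factorization 2 := by rw [hnat]
    rw [hn] at h4
    rw [Nat.factorization_mul two_ne_zero (by positivity),
      Nat.factorization_mul (by positivity) (by positivity), Nat.factorization_mul hD0 hH0,
      Nat.factorization_mul hG0 hq0, Nat.factorization_pow] at h6
    rw [Nat.factorization_mul two_ne_zero (by positivity),
      Nat.factorization_mul ha.ne' hn1] at h4
    simp only [Finsupp.coe_add, Pi.add_apply, Finsupp.coe_smul, Pi.smul_apply, smul_eq_mul,
      hf2] at h4 h6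
    have h0 : n1.factorization 2 = 0 := by omega
    rw [← Nat.not_even_iff_odd, even_iff_two_dvd]
    intro hdvd
    have := (Nat.prime_two.dvd_iff_one_le_factorization hn1).1 hdvd
    omega
  have hE2 := card_of_pair hDE hne
  have hE2' : IsPGroup 2 E := (pair_basic hDE).1
  have hmain : n1 ^ 2 * (Nat.card E * Nat.card H) = Nat.card G * q := by
    rw [← hnat, hE2]
    ring
  have hsi := card_sup_inf hH E
  have hle : Nat.card (E ⊓ H : Subgroup G) ≤ q := by
    refine hdat.emb x (by rw [← heq]; exact hx.2.1) _ inf_le_right (hE2'.to_le inf_le_left) ?_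
    intro d hd
    have hdD : d ∈ D := (hED d hd.1).2 (hHT hd.2)
    exact mem_cent_iff.mp (hDE.2.1 hdD)
  have hge : q ≤ Nat.card (E ⊓ H : Subgroup G) := by
    have h6 := Subgroup.card_mul_index (E ⊔ H)
    have hpos : 0 < Nat.card (E ⊔ H : Subgroup G) := Nat.card_pos
    have h7 : n1 ^ 2 * Nat.card (E ⊓ H : Subgroup G) = (E ⊔ H).index * q := by
      apply Nat.eq_of_mul_eq_mul_left hpos
      calc Nat.card (E ⊔ H : Subgroup G) * (n1 ^ 2 * Nat.card (E ⊓ H : Subgroup G)) =
          n1 ^ 2 * (Nat.card (E ⊔ H : Subgroup G) * Nat.card (E ⊓ H : Subgroup G)) := by ring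
        _ = Nat.card G * q := by rw [hsi, hmain]
        _ = _ := by rw [← h6]; ring
    have h8 : q ∣ n1 ^ 2 * Nat.card (E ⊓ H : Subgroup G) := ⟨(E ⊔ H).index, by rw [h7]; ring⟩
    have h9 : Nat.Coprime q (n1 ^ 2) := by
      rw [hs]
      exact (Nat.coprime_two_left.2 hn1o.pow).pow_left s
    exact Nat.le_of_dvd Nat.card_pos (h9.dvd_of_dvd_mul_left h8)
  have hEH : Nat.card (E ⊓ H : Subgroup G) = q := le_antisymm hle hge
  refine ⟨hn1o, ?_, hEH⟩
  have hqpos : 0 < q := Nat.pos_of_ne_zero hq0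
  apply Nat.eq_of_mul_eq_mul_right hqpos
  rw [← hmain, ← hsi, hEH]
  ring

/-- The terminal case. -/
theorem term_sum (O : ValuationSubring ℂ) (h2 : (2 : O) ∈ IsLocalRing.maximalIdeal O)
    {G : Type} [Group G] [Fintype G] {e : MonoidAlgebra O G} (he : e * e = e)
    (hec : ∀ a, a * e = e * a) (her : inv' e = e) (S : SimpleQuot (toK O G e)) {x : G}
    (hx : IsDefectClass O e x) {D E : Subgroup G} (hDE : IsDefectPair x D E) (hne : D ≠ E)
    {H : Subgroup G} (hH : H.Normal) (b : MonoidAlgebra O H) (hb : IsBlock b)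
    (Sb : SimpleQuot (toK O H b)) (hFF : incl O H b * inv' (incl O H b) = 0)
    (heq : e = incl O H b + inv' (incl O H b)) {T : Subgroup G} (hT : T.index = 2)
    (hHT : H ≤ T) (hT1 : ∀ g ∈ T, cj g (incl O H b) = incl O H b)
    (hT2 : ∀ g, g ∉ T → cj g (incl O H b) = inv' (incl O H b))
    (hsol : Group.IsSolvable (G ⧸ H))
    (hdat : (∃ z, cj z (incl O H b) = inv' (incl O H b) ∧ z * z ∈ H) →
      ∃ q, Dat O H (incl O H b) Sb.n q) :
    ∑ g : G, ((e.coeff (g * g) : O) : ℂ) =
      S.n * (Nat.card {y : G // y ∈ E ∧ y ∉ D ∧ y * y = 1} : ℂ) := by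
  have : CharP (resK O) 2 := resK_charP O h2
  have : IsAlgClosed (resK O) := resK_isAlgClosed O
  have hTn : T.Normal := Subgroup.normal_of_index_eq_two hT
  obtain ⟨hb0, hbb, hbc, hbp⟩ := id hb
  have hbbk : toK O H b * toK O H b = toK O H b := by rw [← map_mul, hbb]
  have hbck : ∀ a, a * toK O H b = toK O H b * a := by
    intro a
    obtain ⟨a', rfl⟩ := toK_surjective O a
    rw [← map_mul, ← map_mul, hbc]
  obtain ⟨Φ⟩ := exists_rblk S hH hbbk hbck Sb
  rw [← toK_incl] at Φ
  obtain ⟨n1, B, hn, hB⟩ := star_quot (by rw [← toK_inv', her]) S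
    (f := toK O G (incl O H b)) (by rw [← map_mul, ← map_mul, hbb])
    (by rw [← toK_inv', ← map_add, ← heq]) (by rw [← toK_inv', ← map_mul, hFF, map_zero]) hT
    (fun g hg => by rw [← toK_cj, hT1 g hg]) (fun g hg => by rw [← toK_cj, hT2 g hg, toK_inv'])
    hH hHT Φ
  set F := incl O H b with hF
  have hFi : F * F = F := by rw [hF, ← map_mul, hbb]
  have hFs : ∀ g, g ∉ H → F.coeff g = 0 := fun g hg => incl_supp H b hg
  obtain ⟨g0, hg0⟩ : ∃ g, g ∉ T := by
    by_contra hcon
    push Not at hcon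
    have h3 : T = ⊤ := by
      rw [eq_top_iff]
      intro g _
      exact hcon g
    rw [h3, Subgroup.index_top] at hT
    omega
  have hFF' : inv' F * F = 0 := by
    have h1 := cj_mul g0 F (inv' F)
    rw [hFF, ← cj_inv', hT2 g0 hg0, inv'_inv'] at h1
    rw [← h1]
    unfold cj
    rw [mul_zero, zero_mul]
  -- `D = E ∩ T`
  have hcoef : ∀ y : G, e.coeff y = F.coeff y + F.coeff y⁻¹ := by
    intro y
    rw [heq, MonoidAlgebra.coeff_add, Finsupp.add_apply, inv'_coeff]
  have h20 : IsLocalRing.residue O 2 = 0 := (IsLocalRing.residue_eq_zero_iff _).2 h2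
  have hxF : F.coeff x⁻¹ ≠ F.coeff x := by
    intro h
    apply hx.2.1
    rw [hcoef, h, ← two_mul, map_mul, h20, zero_mul]
  have hED : ∀ t ∈ E, (t ∈ D ↔ t ∈ T) := by
    intro t ht
    constructor
    · intro htD
      by_contra htT
      apply hxF
      have h4 := congrArg (fun z => z.coeff x) (hT2 t htT)
      simp only [cj_coeff, inv'_coeff] at h4
      have h5 : t⁻¹ * x * t = x := by
        have := mem_cent_iff.mp (hDE.2.1 (D.inv_mem htD))
        rwa [inv_inv] at this
      rw [h5] at h4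
      exact h4.symm
    · intro htT
      by_contra htD
      apply hxF
      have h4 := congrArg (fun z => z.coeff x⁻¹) (hT1 t htT)
      simp only [cj_coeff] at h4
      have h5 : t⁻¹ * x⁻¹ * t = x := by
        have h6 := defectPair_t hDE ht htD
        have h7 : t⁻¹ * x⁻¹ * t = t⁻¹ * (t * x * t⁻¹) * t := by rw [h6]
        rw [h7]
        group
      rw [h5] at h4
      exact h4.symm
  -- the sum over `T` vanishes
  have hin : ∑ k ∈ Finset.univ.filter (fun k : G => k ∈ T), F.coeff (k * k) = 0 := by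
    apply sum_sq_zero H hFi hFs
    · intro y hy k
      simp only [Finset.mem_filter, Finset.mem_univ, true_and]
      exact Subgroup.mul_mem_cancel_left T (hHT hy)
    · intro k hk
      simp only [Finset.mem_filter, Finset.mem_univ, true_and] at hk
      rw [hT1 _ (T.inv_mem hk), hFF']
  have hsum : ∑ g : G, e.coeff (g * g) =
      2 * ∑ g ∈ Finset.univ.filter (fun g : G => g ∉ T), F.coeff (g * g) := by
    have h5 : ∑ g : G, F.coeff (g * g) =
        ∑ g ∈ Finset.univ.filter (fun g : G => g ∉ T), F.coeff (g * g) := by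
      rw [← Finset.sum_filter_add_sum_filter_not Finset.univ (fun g : G => g ∈ T), hin, zero_add]
    have h3 : ∑ g : G, ((inv' F).coeff (g * g)) = ∑ g : G, F.coeff (g * g) :=
      sum_inv F Finset.univ (fun k => by simp)
    have h6 : ∀ g : G, e.coeff (g * g) = F.coeff (g * g) + (inv' F).coeff (g * g) := by
      intro g
      rw [heq, MonoidAlgebra.coeff_add, Finsupp.add_apply]
    rw [Finset.sum_congr rfl (fun g _ => h6 g), Finset.sum_add_distrib, h3, h5]
    ring
  have hsumC := congrArg (fun z : O => (z : ℂ)) hsum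
  have h2C : ((2 : O) : ℂ) = 2 := rfl
  push_cast at hsumC
  rw [h2C] at hsumC
  rw [hsumC]
  have hEDc : (Nat.card {y : G // y ∈ E ∧ y ∉ D ∧ y * y = 1} : ℂ) =
      (Nat.card {y : G // y ∈ E ∧ y ∉ T ∧ y * y = 1} : ℂ) := by
    congr 1
    apply Nat.card_congr
    refine Equiv.subtypeEquivRight ?_
    intro y
    constructor
    · rintro ⟨h3, h4, h5⟩
      exact ⟨h3, fun h => h4 ((hED y h3).2 h), h5⟩
    · rintro ⟨h3, h4, h5⟩
      exact ⟨h3, fun h => h4 ((hED y h3).1 h), h5⟩
  rw [hEDc]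
  by_cases hz : ∃ z, z ∉ T ∧ z * z ∈ H
  · obtain ⟨z0, hz0, hzz0⟩ := hz
    obtain ⟨q, hq⟩ := hdat ⟨z0, hT2 z0 hz0, hzz0⟩
    obtain ⟨hodd, hcard, hEH⟩ := term_num O h2 he hec S hx hDE hne hH F heq hHT hED Sb.pos hn hq
    have hE2 : IsPGroup 2 E := (pair_basic hDE).1
    have hn1 : 0 < n1 := hodd.pos
    have key := total_count (c := fun g => ((F.coeff g : O) : ℂ)) (E := E) hTn hH hHT
      (fun g hg => by rw [hFs g hg]; rfl)
      (fun g hg y => by
        have h4 := congrArg (fun z => z.coeff y) (hT1 g hg)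
        simp only [cj_coeff] at h4
        rw [h4])
      (fun g hg y => by
        have h4 := congrArg (fun z => z.coeff y) (hT2 g hg)
        simp only [cj_coeff, inv'_coeff] at h4
        rw [h4]) (a := Sb.n) hn1
      (fun u hu huu => cnt_quot hT hH hHT hsol hE2 B hB hodd hcard u hu huu) hcard ?_
    · rw [key, hn]
      push_cast
      ring
    · intro z hzE hzT hzz
      have hzH : z ∉ H := fun h => hzT (hHT h)
      have hmem : ∀ t, t ∈ E ⊓ ext2 H hH z hzz ↔ t ∈ E ∧ (t ∈ H ∨ z⁻¹ * t ∈ H) :=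
        fun t => Iff.rfl
      have hzt : ∀ t, z⁻¹ * t ∈ H → t ∉ T := by
        intro t ht htT
        apply hzT
        have h3 := T.mul_mem htT (T.inv_mem (hHT ht))
        have h4 : t * (z⁻¹ * t)⁻¹ = z := by group
        rwa [h4] at h3
      have hout : ∀ t ∈ E ⊓ ext2 H hH z hzz, t ∉ E ⊓ H → z⁻¹ * t ∈ H ∧ t ∉ H := by
        intro t ht htn
        rw [hmem] at ht
        have h3 : t ∉ H := fun h => htn ⟨ht.1, h⟩
        rcases ht.2 with h | h
        · exact absurd h h3
        · exact ⟨h, h3⟩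
      have hidx : ∀ t ∈ E ⊓ ext2 H hH z hzz, ∀ t' ∈ E ⊓ ext2 H hH z hzz, t ∉ E ⊓ H →
          t' ∉ E ⊓ H → t * t' ∈ E ⊓ H := by
        intro t ht t' ht' hn' hn''
        obtain ⟨h3, -⟩ := hout t ht hn'
        obtain ⟨h4, -⟩ := hout t' ht' hn''
        refine ⟨E.mul_mem ht.1 ht'.1, ?_⟩
        have h5 : t * t' = (z * z) * (z⁻¹ * (z⁻¹ * t) * z⁻¹⁻¹) * (z⁻¹ * t') := by group
        rw [h5]
        exact H.mul_mem (H.mul_mem hzz (hH.conj_mem _ h3 z⁻¹)) h4
      have hPQ : E ⊓ H ≤ E ⊓ ext2 H hH z hzz := fun t ht => ⟨ht.1, Or.inl ht.2⟩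
      have hzQ : z ∈ E ⊓ ext2 H hH z hzz :=
        ⟨hzE, Or.inr (by rw [inv_mul_cancel]; exact H.one_mem)⟩
      have hcQ : Nat.card (E ⊓ ext2 H hH z hzz : Subgroup G) =
          2 * Nat.card (E ⊓ H : Subgroup G) := by
        have h1 : ((E ⊓ H).subgroupOf (E ⊓ ext2 H hH z hzz)).index = 2 := by
          rw [Subgroup.index_eq_two_iff]
          refine ⟨⟨z, hzQ⟩, ?_⟩
          rintro ⟨c, hcc⟩
          rw [Subgroup.mem_subgroupOf, Subgroup.mem_subgroupOf]
          simp only [Subgroup.coe_mul]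
          by_cases hcH : c ∈ E ⊓ H
          · right
            refine ⟨hcH, fun h => hzH ?_⟩
            have h3 := H.mul_mem (H.inv_mem hcH.2) h.2
            rwa [inv_mul_cancel_left] at h3
          · left
            exact ⟨hidx c hcc z hzQ hcH (fun h => hzH h.2), hcH⟩
        have h3 := Subgroup.card_mul_index ((E ⊓ H).subgroupOf (E ⊓ ext2 H hH z hzz))
        rw [h1, Nat.card_congr (Subgroup.subgroupOfEquivOfLe hPQ).toEquiv] at h3
        rw [← h3, mul_comm]
      have hkey := hq.key z (hT2 z hzT) hzz x (E ⊓ H) (E ⊓ ext2 H hH z hzz)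
        (by rw [← heq]; exact hx.2.1) inf_le_right hPQ (hE2.to_le inf_le_left) hout hidx hcQ
        ⟨fun d hd => mem_cent_iff.mp (hDE.2.1 ((hED d hd.1).2 (hHT hd.2))),
          fun t ht hn' => defectPair_t hDE ht.1 (fun h =>
            hzt t (hout t ht hn').1 ((hED t ht.1).1 h))⟩ hEH
      have hs1 : ∑ h ∈ Finset.univ.filter (fun h : G => h ∈ H),
          ((F.coeff (z * h * (z * h)) : O) : ℂ) =
          ∑ g ∈ Finset.univ.filter (fun g : G => z⁻¹ * g ∈ H), ((F.coeff (g * g) : O) : ℂ) := by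
        refine Finset.sum_bij' (fun h _ => z * h) (fun g _ => z⁻¹ * g) ?_ ?_ ?_ ?_ ?_
        · intro h hh
          simp only [Finset.mem_filter, Finset.mem_univ, true_and] at hh ⊢
          rwa [inv_mul_cancel_left]
        · intro g hg
          simp only [Finset.mem_filter, Finset.mem_univ, true_and] at hg ⊢
          exact hg
        · intro h _
          exact inv_mul_cancel_left z h
        · intro g _
          exact mul_inv_cancel_left z g
        · intro h _
          rfl
      change ∑ h ∈ Finset.univ.filter (fun h : G => h ∈ H),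
          ((F.coeff (z * h * (z * h)) : O) : ℂ) = _
      rw [hs1, hkey]
      congr 2
      apply Nat.card_congr
      refine Equiv.subtypeEquivRight ?_
      intro y
      constructor
      · rintro ⟨h3, h4, h5⟩
        exact ⟨h3.1, (hout y h3 h4).1, h5⟩
      · rintro ⟨h3, h4, h5⟩
        exact ⟨⟨h3, Or.inr h4⟩, fun h => hzt y h4 (hHT h.2), h5⟩
  · push Not at hz
    have h3 : ∑ g ∈ Finset.univ.filter (fun g : G => g ∉ T), ((F.coeff (g * g) : O) : ℂ) = 0 := by
      refine Finset.sum_eq_zero fun g hg => ?_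
      simp only [Finset.mem_filter, Finset.mem_univ, true_and] at hg
      rw [hFs _ (hz g hg)]
      rfl
    have h4 : Nat.card {y : G // y ∈ E ∧ y ∉ T ∧ y * y = 1} = 0 := by
      rw [Nat.card_eq_zero]
      left
      refine ⟨?_⟩
      rintro ⟨y, h5, h6, h7⟩
      apply hz y h6
      rw [h7]
      exact H.one_mem
    rw [h3, h4]
    simp

end Pool.Agent.Helper36.NC
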