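import Pool.Agent.Helper36.NC.G

/-!
# Transport of the data, solvability of the quotient
-/

set_option autoImplicit false
open scoped BigOperators MonoidAlgebra
open Classical

namespace Pool.Agent.Helper36.NC

open Pool.Agent.Helper36.NB Pool.Agent.Helper44.S3

theorem dat_sub (O : ValuationSubring ℂ) {G : Type} [Group G] [Fintype G] {H : Subgroup G}
    {F : MonoidAlgebra O G} {a q : ℕ} (hd : Dat O H F a q) (L : Subgroup G) (hle : H ≤ L)
    (FL : MonoidAlgebra O L) (hFL : incl O L FL = F) : Dat O (H.subgroupOf L) FL a q := by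
  have hinc' : incl O L (inv' FL) = inv' F := by rw [← incl_inv', hFL]
  have hcardH : Nat.card (H.subgroupOf L) = Nat.card H :=
    Nat.card_congr (Subgroup.subgroupOfEquivOfLe hle).toEquiv
  have hcoef : ∀ k : L, FL.coeff k = F.coeff (k : G) := fun k => by rw [← hFL, incl_coeff]
  have hcoef' : ∀ k : L, (FL + inv' FL).coeff k = (F + inv' F).coeff (k : G) := by
    intro k
    have h5 := incl_coeff L (FL + inv' FL) k
    rw [map_add, hFL, hinc'] at h5
    exact h5.symm
  have hinj : Function.Injective L.subtype := L.subtype_injective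
  have hcm : ∀ A : Subgroup L, Nat.card (A.map L.subtype) = Nat.card A := fun A =>
    Subgroup.card_map_of_injective hinj
  have hmm : ∀ (A : Subgroup L) (t : L), (t : G) ∈ A.map L.subtype ↔ t ∈ A := by
    intro A t
    constructor
    · rintro ⟨s, hs, hst⟩
      have h1 : s = t := hinj hst
      rwa [← h1]
    · exact fun h => ⟨t, h, rfl⟩
  have hmH : ∀ A : Subgroup L, A ≤ H.subgroupOf L → A.map L.subtype ≤ H := by
    rintro A hA _ ⟨t, ht, rfl⟩
    exact Subgroup.mem_subgroupOf.1 (hA ht)
  refine ⟨hd.pow, ?_, ?_, ?_, ?_⟩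
  · rw [hcardH, hcoef]
    exact hd.one
  · rw [hcardH]
    exact hd.val
  · intro x hx P hP h2P hcom
    have h1 := hd.emb (x : G) (by rw [← hcoef']; exact hx) (P.map L.subtype) (hmH P hP)
      (h2P.map _) (by
        rintro _ ⟨d, hdP, rfl⟩
        exact congrArg (fun y : L => (y : G)) (hcom d hdP))
    rwa [hcm] at h1
  · intro z hz hzz x P Q hx hPH hPQ h2Q hQz hidx hcQ hPin hqP
    have h1 := hd.key (z : G) (by rw [← hFL, incl_cj', hz, incl_inv'])
      (Subgroup.mem_subgroupOf.1 hzz) (x : G) (P.map L.subtype) (Q.map L.subtype)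
      (by rw [← hcoef']; exact hx) (hmH P hPH) (Subgroup.map_mono hPQ) (h2Q.map _)
      (by
        rintro _ ⟨t, ht, rfl⟩ hn
        have h3 := hQz t ht (fun h => hn ⟨t, h, rfl⟩)
        exact ⟨Subgroup.mem_subgroupOf.1 h3.1, fun h => h3.2 (Subgroup.mem_subgroupOf.2 h)⟩)
      (by
        rintro _ ⟨t, ht, rfl⟩ _ ⟨t', ht', rfl⟩ hn hn'
        exact ⟨t * t', hidx t ht t' ht' (fun h => hn ⟨t, h, rfl⟩) (fun h => hn' ⟨t', h, rfl⟩),
          rfl⟩)
      (by rw [hcm, hcm, hcQ])
      (by
        constructor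
        · rintro _ ⟨d, hd', rfl⟩
          exact congrArg (fun y : L => (y : G)) (hPin.1 d hd')
        · rintro _ ⟨t, ht, rfl⟩ hn
          exact congrArg (fun y : L => (y : G)) (hPin.2 t ht (fun h => hn ⟨t, h, rfl⟩)))
      (by rw [hcm, hqP])
    have hs : ∑ g ∈ Finset.univ.filter (fun g : L => z⁻¹ * g ∈ H.subgroupOf L),
        ((FL.coeff (g * g) : O) : ℂ) =
        ∑ g ∈ Finset.univ.filter (fun g : G => (z : G)⁻¹ * g ∈ H),
          ((F.coeff (g * g) : O) : ℂ) := by
      refine Finset.sum_bij (fun (k : L) _ => (k : G)) ?_ ?_ ?_ ?_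
      · intro k hk
        simp only [Finset.mem_filter, Finset.mem_univ, true_and] at hk ⊢
        exact Subgroup.mem_subgroupOf.1 hk
      · intro k _ k' _ h
        exact Subtype.ext h
      · intro g hg
        simp only [Finset.mem_filter, Finset.mem_univ, true_and] at hg
        have hgL : g ∈ L := by
          have h3 := L.mul_mem z.2 (hle hg)
          rwa [mul_inv_cancel_left] at h3
        refine ⟨⟨g, hgL⟩, ?_, rfl⟩
        simp only [Finset.mem_filter, Finset.mem_univ, true_and]
        exact Subgroup.mem_subgroupOf.2 hg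
      · intro k _
        rw [hcoef]
        rfl
    rw [hs, h1]
    congr 2
    refine (Nat.card_congr ?_).symm
    refine { toFun := fun y => ⟨(y.1 : G), (hmm Q _).2 y.2.1, fun h => y.2.2.1 ((hmm P _).1 h),
               congrArg (fun k : L => (k : G)) y.2.2.2⟩,
             invFun := fun y => ⟨⟨y.1, ?_⟩, ?_⟩,
             left_inv := ?_, right_inv := ?_ }
    · obtain ⟨t, -, ht⟩ := y.2.1
      rw [← ht]
      exact t.2
    · refine ⟨(hmm Q _).1 y.2.1, fun h => y.2.2.1 ((hmm P _).2 h), Subtype.ext y.2.2.2⟩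
    · intro y
      rfl
    · intro y
      rfl

/-- Solvability of the quotient. -/
theorem solv_sub {G : Type} [Group G] [Finite G] {H T : Subgroup G} (hH : H.Normal)
    (hT : T.index = 2) (hHT : H ≤ T) (hs : Group.IsSolvable (T ⧸ H.subgroupOf T)) :
    Group.IsSolvable (G ⧸ H) := by
  have hTn : T.Normal := Subgroup.normal_of_index_eq_two hT
  let f : T ⧸ H.subgroupOf T →* G ⧸ H :=
    QuotientGroup.map (H.subgroupOf T) H T.subtype (fun t ht => Subgroup.mem_subgroupOf.1 ht)
  let g : G ⧸ H →* G ⧸ T := QuotientGroup.map H T (MonoidHom.id G) (fun t ht => hHT ht)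
  have hfg : g.ker ≤ f.range := by
    intro x hx
    induction x using QuotientGroup.induction_on with
    | H x =>
      have h1 : ((x : G) : G ⧸ T) = 1 := hx
      rw [QuotientGroup.eq_one_iff] at h1
      exact ⟨((⟨x, h1⟩ : T) : T ⧸ H.subgroupOf T), rfl⟩
  have hp : IsPGroup 2 (G ⧸ T) := by
    apply IsPGroup.of_card (n := 1)
    rw [pow_one, ← hT]
    rfl
  have h2 : Group.IsSolvable (G ⧸ T) := by
    have : Fact (Nat.Prime 2) := ⟨Nat.prime_two⟩
    have : Group.IsNilpotent (G ⧸ T) := hp.isNilpotent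
    infer_instance
  exact Group.isSolvable_of_ker_le_range f g hfg

end Pool.Agent.Helper36.NC
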