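import Pool.Agent.Helper36.NC.I
import Pool.Agent.Helper36.NC.J
import Pool.Agent.Helper44.S3.TR
import Pool.Agent.Helper44.S3.RB
import Pool.Agent.Helper44.S3.RC
import Pool.Agent.Helper44.S3.QG

/-!
# Reduction to the stabiliser, and the main theorem
-/

set_option autoImplicit false
open scoped BigOperators MonoidAlgebra
open Classical

namespace Pool.Agent.Helper36.NC

open Pool.Agent.Helper36.NB Pool.Agent.Helper44.S3

/-- Transport of blocks. -/
theorem isBlock_equiv {R : Type} [CommRing R] {A B : Type} [Group A] [Group B]
    (φ : MonoidAlgebra R A ≃+* MonoidAlgebra R B) {b : MonoidAlgebra R A} (hb : IsBlock b) :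
    IsBlock (φ b) := by
  obtain ⟨h0, h1, h2, h3⟩ := hb
  refine ⟨?_, ?_, ?_, ?_⟩
  · intro h
    apply h0
    apply φ.injective
    rw [h, map_zero]
  · rw [← map_mul, h1]
  · intro a
    obtain ⟨a', rfl⟩ := φ.surjective a
    rw [← map_mul, ← map_mul, h2]
  · intro f hf hfc
    obtain ⟨f', rfl⟩ := φ.surjective f
    have h4 : f' * f' = f' := φ.injective (by rw [map_mul, hf])
    have h5 : ∀ a, a * f' = f' * a := fun a => φ.injective (by
      rw [map_mul, map_mul, hfc])
    rcases h3 f' h4 h5 with h | h
    · left
      rw [← map_mul, h, map_zero]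
    · right
      rw [← map_mul, h]

theorem isBlock_inv {R : Type} [CommRing R] {A : Type} [Group A] {b : MonoidAlgebra R A}
    (hb : IsBlock b) : IsBlock (inv' b) := by
  obtain ⟨h0, h1, h2, h3⟩ := hb
  refine ⟨?_, ?_, ?_, ?_⟩
  · intro h
    apply h0
    rw [← inv'_inv' b, h, inv'_zero]
  · rw [← inv'_mul, h1]
  · intro a
    have h4 := congrArg inv' (h2 (inv' a))
    rw [inv'_mul, inv'_mul, inv'_inv'] at h4
    exact h4.symm
  · intro f hf hfc
    have h4 : inv' f * inv' f = inv' f := by rw [← inv'_mul, hf]
    have h5 : ∀ a, a * inv' f = inv' f * a := by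
      intro a
      have h6 := congrArg inv' (hfc (inv' a))
      rw [inv'_mul, inv'_mul, inv'_inv'] at h6
      exact h6.symm
    rcases h3 (inv' f) h4 h5 with h | h
    · left
      have h6 := congrArg inv' h
      rw [inv'_mul, inv'_inv', inv'_zero] at h6
      rw [hfc] at h6
      exact h6
    · right
      have h6 := congrArg inv' h
      rw [inv'_mul, inv'_inv'] at h6
      rw [hfc] at h6
      exact h6

theorem block_orth {R : Type} [CommRing R] {A : Type} [Group A] {b c : MonoidAlgebra R A}
    (hb : IsBlock b) (hc : IsBlock c) : b * c = 0 ∨ b = c := by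
  rcases hb.2.2.2 c hc.2.1 hc.2.2.1 with h | h
  · left
    rw [hc.2.2.1, h]
  · rcases hc.2.2.2 b hb.2.1 hb.2.2.1 with h' | h'
    · left
      exact h'
    · right
      calc b = c * b := h.symm
        _ = b * c := (hc.2.2.1 b).symm
        _ = c := h'

/-- Conjugates of a block of a normal subgroup. -/
theorem block_conj {R : Type} [CommRing R] {G : Type} [Group G] {H : Subgroup G}
    (hH : H.Normal) {b : MonoidAlgebra R H} (hb : IsBlock b) (g : G) :
    ∃ c : MonoidAlgebra R H, IsBlock c ∧ incl R H c = cj g (incl R H b) := by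
  let φ : MonoidAlgebra R H ≃ₐ[R] MonoidAlgebra R H :=
    MonoidAlgebra.domCongr R R (MulAut.conjNormal (H := H) g)
  have key : ∀ y, incl R H (φ y) = cj g (incl R H y) := by
    intro y
    induction y using MonoidAlgebra.induction_linear with
    | zero =>
      rw [map_zero, map_zero]
      unfold cj
      rw [mul_zero, zero_mul]
    | add x y hx hy => rw [map_add, map_add, hx, hy, map_add, cj_add]
    | single h r =>
      have h1 : φ (MonoidAlgebra.single h r) =
          MonoidAlgebra.single (MulAut.conjNormal (H := H) g h) r :=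
        MonoidAlgebra.domCongr_single _ _ _
      have h2 : (MonoidAlgebra.single (h : G) r : MonoidAlgebra R G) = r • el R (h : G) := by
        simp [el]
      rw [h1, incl_single, incl_single, h2, cj_smul, cj_el]
      simp [el]
  exact ⟨φ.toRingEquiv b, isBlock_equiv φ.toRingEquiv hb, key b⟩

/-- Two conjugates of a block of a normal subgroup are equal or orthogonal. -/
theorem conj_orth {R : Type} [CommRing R] {G : Type} [Group G] {H : Subgroup G}
    (hH : H.Normal) {b c : MonoidAlgebra R H} (hb : IsBlock b) (hc : IsBlock c) (g g' : G) :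
    cj g (incl R H b) * cj g' (incl R H c) = 0 ∨ cj g (incl R H b) = cj g' (incl R H c) := by
  obtain ⟨b', hb', hb2⟩ := block_conj hH hb g
  obtain ⟨c', hc', hc2⟩ := block_conj hH hc g'
  rw [← hb2, ← hc2]
  rcases block_orth hb' hc' with h | h
  · left
    rw [← map_mul, h, map_zero]
  · right
    rw [h]

/-- The structure of the stabilisers. -/
theorem stab_two {R : Type} [CommRing R] {G : Type} [Group G] [Fintype G] {H : Subgroup G}
    (hH : H.Normal) (b : MonoidAlgebra R H) (hb : IsBlock b) (hbr : inv' b ≠ b)
    {T : Subgroup G} (hT : ∀ g, g ∈ T ↔ cj g (incl R H b) = incl R H b)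
    {e : MonoidAlgebra R G} (he : IsBlock e) (her : inv' e = e)
    (heb : e * incl R H b = incl R H b) :
    incl R H b * inv' (incl R H b) = 0 ∧ H ≤ T ∧
    ∃ G1 : Subgroup G, Impr G1 (incl R H b + inv' (incl R H b)) ∧ T ≤ G1 ∧
      (T.subgroupOf G1).index = 2 ∧ (∀ g ∈ G1, g ∉ T → cj g (incl R H b) = inv' (incl R H b)) := by
  obtain ⟨hb0, hbb, hbc, hbp⟩ := id hb
  have hbi := isBlock_inv hb
  set F := incl R H b with hF
  have hFi' : inv' F = incl R H (inv' b) := incl_inv' H b
  have hFi : F * F = F := by rw [hF, ← map_mul, hbb]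
  have hII : inv' F * inv' F = inv' F := by rw [← inv'_mul, hFi]
  have hF0 : F ≠ 0 := by
    intro h
    apply hb0
    exact incl_injective H (by rw [← hF, h, map_zero])
  have hbi0 : b * inv' b = 0 := by
    rcases block_orth hb hbi with h | h
    · exact h
    · exact absurd h.symm hbr
  have hFF : F * inv' F = 0 := by rw [hFi', hF, ← map_mul, hbi0, map_zero]
  have hFF' : inv' F * F = 0 := by rw [hFi', hF, ← map_mul, hbc, hbi0, map_zero]
  have hneF : inv' F ≠ F := by
    intro h
    apply hF0
    rw [h, hFi] at hFF
    exact hFF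
  have hFs : ∀ g, g ∉ H → F.coeff g = 0 := fun g hg => incl_supp H b hg
  have hcH : ∀ g ∈ H, cj g F = F := by
    intro g hg
    rw [cj_eq_iff, hF]
    have h1 := congrArg (incl R H) (hbc (el R ⟨g, hg⟩))
    rw [map_mul, map_mul, incl_el] at h1
    exact h1
  have hHT : H ≤ T := fun g hg => (hT g).2 (hcH g hg)
  -- orthogonality
  have o1 : ∀ g, F * cj g F = 0 ∨ cj g F = F := by
    intro g
    rcases conj_orth hH hb hb 1 g with h | h
    · left
      rwa [cj_one] at h
    · right
      rw [cj_one] at h
      exact h.symm
  have o2 : ∀ g, inv' F * cj g F = 0 ∨ cj g F = inv' F := by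
    intro g
    rcases conj_orth hH hbi hb 1 g with h | h
    · left
      rw [cj_one, ← hFi'] at h
      exact h
    · right
      rw [cj_one, ← hFi'] at h
      exact h.symm
  have o1' : ∀ g, cj g F * F = 0 ∨ cj g F = F := by
    intro g
    rcases conj_orth hH hb hb g 1 with h | h
    · left
      rwa [cj_one] at h
    · right
      rw [cj_one] at h
      exact h
  have o2' : ∀ g, cj g F * inv' F = 0 ∨ cj g F = inv' F := by
    intro g
    rcases conj_orth hH hb hbi g 1 with h | h
    · left
      rw [cj_one, ← hFi'] at h
      exact h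
    · right
      rw [cj_one, ← hFi'] at h
      exact h
  have hinvc : ∀ g, cj g F = inv' F → cj g (inv' F) = F := by
    intro g h
    rw [← cj_inv', h, inv'_inv']
  have hfixc : ∀ g, cj g F = F → cj g (inv' F) = inv' F := by
    intro g h
    rw [← cj_inv', h]
  set h0 := F + inv' F with hh0
  have hhh : h0 * h0 = h0 := by
    rw [hh0, add_mul, mul_add, mul_add, hFi, hFF, hFF', hII, add_zero, zero_add]
  have hhi : inv' h0 = h0 := by rw [hh0, inv'_add, inv'_inv', add_comm]
  -- the stabiliser of `h0`
  let G1 : Subgroup G :=
    { carrier := {g | cj g h0 = h0}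
      one_mem' := cj_one h0
      mul_mem' := by
        intro x y hx hy
        change cj (x * y) h0 = h0
        rw [← cj_cj, show cj y h0 = h0 from hy, show cj x h0 = h0 from hx]
      inv_mem' := by
        intro x hx
        change cj x⁻¹ h0 = h0
        have h1 : cj x h0 = h0 := hx
        nth_rewrite 1 [← h1]
        rw [cj_cj, inv_mul_cancel, cj_one] }
  have hmG1 : ∀ g, g ∈ G1 ↔ cj g h0 = h0 := fun g => Iff.rfl
  have hmG1' : ∀ g, g ∈ G1 ↔ cj g F = F ∨ cj g F = inv' F := by
    intro g
    rw [hmG1]
    constructor
    · intro h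
      by_contra hcon
      push Not at hcon
      have h1 : cj g F * h0 = cj g F := by
        have h3 := cj_mul g F h0
        rw [h] at h3
        rw [← h3, hh0, mul_add, hFi, hFF, add_zero]
      have h3 : cj g F * h0 = 0 := by
        rw [hh0, mul_add, (o1' g).resolve_right hcon.1, (o2' g).resolve_right hcon.2, add_zero]
      rw [h1] at h3
      apply hF0
      apply cj_inj g
      rw [h3]
      unfold cj
      rw [mul_zero, zero_mul]
    · rintro (h | h)
      · rw [hh0, cj_add, h, hfixc g h]
      · rw [hh0, cj_add, h, hinvc g h, add_comm]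
  have hTG1 : T ≤ G1 := by
    intro g hg
    rw [hmG1']
    exact Or.inl ((hT g).1 hg)
  have hImpr : Impr G1 h0 :=
    { idem := hhh
      inv := hhi
      fix := fun g hg => hg
      orth := by
        intro g hg
        rw [hmG1'] at hg
        push Not at hg
        have h1 : F * cj g F = 0 := (o1 g).resolve_right hg.1
        have h3 : inv' F * cj g F = 0 := (o2 g).resolve_right hg.2
        have h4 : F * cj g (inv' F) = 0 := by
          rcases conj_orth hH hb hbi 1 g with h | h
          · rw [cj_one, ← hFi'] at h
            exact h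
          · rw [cj_one, ← hFi'] at h
            exfalso
            apply hg.2
            have h6 := congrArg inv' h
            rw [cj_inv', inv'_inv'] at h6
            exact h6.symm
        have h5 : inv' F * cj g (inv' F) = 0 := by
          rcases conj_orth hH hbi hbi 1 g with h | h
          · rw [cj_one, ← hFi'] at h
            exact h
          · rw [cj_one, ← hFi'] at h
            exfalso
            apply hg.1
            have h6 := congrArg inv' h
            rw [cj_inv', inv'_inv'] at h6
            exact h6.symm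
        rw [hh0, cj_add, add_mul, mul_add, mul_add, h1, h3, h4, h5, add_zero, add_zero]
      supp := by
        intro g hg
        have hgH : g ∉ H := fun h => hg (hTG1 (hHT h))
        rw [hh0, MonoidAlgebra.coeff_add, Finsupp.add_apply, inv'_coeff, hFs g hgH,
          hFs g⁻¹ (fun h => hgH (by simpa using H.inv_mem h)), add_zero] }
  -- an element which swaps
  have hswap : ∃ g, cj g F = inv' F := by
    by_contra hcon
    push Not at hcon
    obtain ⟨Rt, hRt⟩ := exists_trans T
    set c := ∑ r ∈ Rt, cj r F with hc
    have hcc : ∀ y, y * c = c * y := trans_central hRt F (fun g hg => (hT g).1 hg)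
    have hcinv : c * inv' F = 0 := by
      rw [hc, Finset.sum_mul]
      exact Finset.sum_eq_zero fun r _ => (o2' r).resolve_right (hcon r)
    have hcjF : ∀ r ∈ Rt, cj r F * c = cj r F := by
      intro r hr
      rw [hc, Finset.mul_sum, Finset.sum_eq_single r]
      · rw [← cj_mul, hFi]
      · intro r' hr' hne
        rcases conj_orth hH hb hb r r' with h | h
        · exact h
        · exfalso
          apply hne
          obtain ⟨r0, -, -, hu⟩ := hRt r
          have h' : cj r F = cj r' F := h
          have h3 : r'⁻¹ * r ∈ T := by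
            rw [hT, ← cj_cj, h', cj_cj, inv_mul_cancel, cj_one]
          rw [hu r' hr' h3, hu r hr (by rw [inv_mul_cancel]; exact T.one_mem)]
      · intro h
        exact absurd hr h
    have hci : c * c = c := by
      nth_rewrite 1 [hc]
      rw [Finset.sum_mul, Finset.sum_congr rfl (fun r hr => hcjF r hr)]
    have hcF : c * F = F := by
      obtain ⟨r0, hr0, hr0T, -⟩ := hRt 1
      have h3 : cj r0 F = F := by
        rw [← hT]
        have := T.inv_mem hr0T
        rwa [mul_one, inv_inv] at this
      have h4 := hcjF r0 hr0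
      rw [h3, hcc] at h4
      exact h4
    rcases he.2.2.2 c hci hcc with h | h
    · apply hF0
      calc F = e * F := heb.symm
        _ = e * (c * F) := by rw [hcF]
        _ = (c * e) * F := by rw [← mul_assoc, hcc]
        _ = 0 := by rw [h, zero_mul]
    · apply hF0
      have h3 : e * inv' F = inv' F := by
        have h4 := congrArg inv' heb
        rw [inv'_mul, her, he.2.2.1] at h4
        exact h4
      have h4 : inv' F = 0 := by
        calc inv' F = e * inv' F := h3.symm
          _ = e * c * inv' F := by rw [hcc e, h]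
          _ = 0 := by rw [mul_assoc, hcinv, mul_zero]
      rw [← inv'_inv' F, h4, inv'_zero]
  obtain ⟨g0, hg0⟩ := hswap
  refine ⟨hFF, hHT, G1, hImpr, hTG1, ?_, ?_⟩
  · rw [Subgroup.index_eq_two_iff]
    refine ⟨⟨g0, (hmG1' g0).2 (Or.inr hg0)⟩, ?_⟩
    rintro ⟨y, hy⟩
    rw [Subgroup.mem_subgroupOf, Subgroup.mem_subgroupOf]
    simp only [Subgroup.coe_mul]
    rw [hmG1'] at hy
    rw [hT, hT, ← cj_cj, hg0]
    rcases hy with h | h
    · right
      rw [hfixc y h]
      exact ⟨h, hneF⟩
    · left
      rw [hinvc y h, h]
      exact ⟨rfl, hneF⟩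
  · intro g hg hgT
    rw [hmG1'] at hg
    exact hg.resolve_left (fun h => hgT ((hT g).2 h))

end Pool.Agent.Helper36.NC
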