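import Pool.Agent.Helper36.NC.K
import Pool.Agent.Helper44.S3.QD

/-!
# The main theorem
-/

set_option autoImplicit false
open scoped BigOperators MonoidAlgebra
open Classical

namespace Pool.Agent.Helper36.NC

open Pool.Agent.Helper36.NB Pool.Agent.Helper44.S3

private theorem impr_toK {O : ValuationSubring ℂ} {G : Type} [Group G] {G1 : Subgroup G}
    {h : MonoidAlgebra O G} (hI : Impr G1 h) : Impr G1 (toK O G h) where
  idem := by rw [← map_mul, hI.idem]
  inv := by rw [← toK_inv', hI.inv]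
  fix := fun g hg => by rw [← toK_cj, hI.fix g hg]
  orth := fun g hg => by rw [← toK_cj, ← map_mul, hI.orth g hg, map_zero]
  supp := fun g hg => by rw [toK_apply, hI.supp g hg, map_zero]

theorem nc_sum (O : ValuationSubring ℂ) (h2 : (2 : O) ∈ IsLocalRing.maximalIdeal O)
    {G : Type} [Group G] [Fintype G] {H : Subgroup G} (hH : H.Normal) (b : MonoidAlgebra O H)
    (hb : IsBlock b) (hbr : inv' b ≠ b) (Sb : SimpleQuot (toK O H b)) {T : Subgroup G}
    (hT : ∀ g, g ∈ T ↔ cj g (incl O H b) = incl O H b)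
    (hsol : Group.IsSolvable (T ⧸ H.subgroupOf T))
    (hdat : (∃ z, cj z (incl O H b) = inv' (incl O H b) ∧ z * z ∈ H) →
      ∃ q, Dat O H (incl O H b) Sb.n q)
    {e : MonoidAlgebra O G} (he : IsBlock e) (her : inv' e = e) (S : SimpleQuot (toK O G e))
    (heb : e * incl O H b = incl O H b) {x : G} (hx : IsDefectClass O e x) {D E : Subgroup G}
    (hDE : IsDefectPair x D E) (hne : D ≠ E) :
    ∑ g : G, ((e.coeff (g * g) : O) : ℂ) =
      S.n * (Nat.card {y : G // y ∈ E ∧ y ∉ D ∧ y * y = 1} : ℂ) := by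
  obtain ⟨hFF, hHT, G1, hI, hTG1, hidx, hswap⟩ := stab_two hH b hb hbr hT he her heb
  obtain ⟨he0, hee, hec, hprim⟩ := id he
  obtain ⟨hb0, hbb, hbc, hbp⟩ := id hb
  set F := incl O H b with hF
  have hFi : F * F = F := by rw [hF, ← map_mul, hbb]
  have hF0 : F ≠ 0 := by
    intro h
    apply hb0
    exact incl_injective H (by rw [← hF, h, map_zero])
  obtain ⟨h0, hh0⟩ : ∃ h0, h0 = F + inv' F := ⟨_, rfl⟩
  rw [← hh0] at hI
  have heF' : e * inv' F = inv' F := by
    have h4 := congrArg inv' heb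
    rw [inv'_mul, her, hec] at h4
    exact h4
  have heh0 : e * h0 = h0 := by rw [hh0, mul_add, heb, heF']
  have hh0ne : h0 ≠ 0 := by
    intro h
    apply hF0
    calc F = F * h0 := by rw [hh0, mul_add, hFi, hFF, add_zero]
      _ = 0 := by rw [h, mul_zero]
  obtain ⟨R, hR⟩ := exists_trans G1
  have hcov := fr_cover hI he (by rw [heh0]; exact hh0ne) hR
  obtain ⟨f1, f2, f3, f4, f5⟩ := fr_facts hI hee hec her hR hcov
  obtain ⟨S1, hS1⟩ : ∃ S1 : SimpleQuot (toK O G1 (res G1 (e * h0))), S.n = G1.index * S1.n := by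
    rw [toK_res, map_mul]
    refine fr_simple (impr_toK hI) (by rw [← map_mul, hee]) (fun y => ?_)
      (by rw [← toK_inv', her]) hR ?_ S
    · obtain ⟨y', rfl⟩ := toK_surjective O y
      rw [← map_mul, ← map_mul, hec]
    · conv_rhs => rw [← hcov]
      rw [map_mul, map_sum]
      simp only [toK_cj]
  obtain ⟨x1, hx1, hx1r⟩ := exists_real_class O h2 (res G1 (e * h0)) f2 f3 f4 S1
  obtain ⟨D1, E1, hDE1⟩ := exists_pair x1
  have hconj := defect_transfer O h2 e hee hec her S hx (pair_real hDE hne) hDE G1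
    (res G1 (e * h0)) f2 f3 f4 S1 hR (by rw [f1]; exact f5) h0 f1 hI.inv hI.fix hx1 hx1r hDE1
  have hne1 : D1 ≠ E1 := by
    rintro rfl
    obtain ⟨g, hg1, hg2⟩ := hconj
    apply hne
    ext t
    rw [hg1 t, hg2 t]
  -- the block in `G1`
  have hHG1 : H ≤ G1 := hHT.trans hTG1
  obtain ⟨b1, hb1⟩ : ∃ b1, b1 = trE hHG1 O b := ⟨_, rfl⟩
  have hbl1 : IsBlock b1 := by rw [hb1]; exact isBlock_trE hHG1 hb
  obtain ⟨F1, hF1⟩ : ∃ F1, F1 = incl O (H.subgroupOf G1) b1 := ⟨_, rfl⟩
  have hinc : incl O G1 F1 = F := by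
    rw [hF1, hb1]
    exact incl_incl hHG1 b
  have hinc' : incl O G1 (inv' F1) = inv' F := by rw [← incl_inv', hinc]
  have hres : res G1 (e * h0) = F1 + inv' F1 := by
    rw [heh0, hh0, ← hinc', ← hinc, ← map_add, res_incl]
  obtain ⟨Sb1, hSb1⟩ : ∃ S' : SimpleQuot (toK O (H.subgroupOf G1) b1), S'.n = Sb.n := by
    rw [hb1, toK_trE]
    exact ⟨sqE hHG1 Sb, rfl⟩
  have hcoef : ∀ k : G1, F1.coeff k = F.coeff (k : G) := fun k => by rw [← hinc, incl_coeff]
  have hFF1 : F1 * inv' F1 = 0 := by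
    apply incl_injective G1
    rw [map_mul, hinc, hinc', hFF, map_zero]
  have hT1 : ∀ g ∈ T.subgroupOf G1, cj g F1 = F1 := by
    intro g hg
    apply incl_injective G1
    rw [← incl_cj', hinc]
    exact (hT g).1 (Subgroup.mem_subgroupOf.1 hg)
  have hT2 : ∀ g, g ∉ T.subgroupOf G1 → cj g F1 = inv' F1 := by
    intro g hg
    apply incl_injective G1
    rw [← incl_cj', hinc, hinc']
    exact hswap g g.2 (fun h => hg (Subgroup.mem_subgroupOf.2 h))
  have hH1n : (H.subgroupOf G1).Normal := hH.subgroupOf G1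
  have hHT1 : H.subgroupOf G1 ≤ T.subgroupOf G1 := fun t ht =>
    Subgroup.mem_subgroupOf.2 (hHT (Subgroup.mem_subgroupOf.1 ht))
  have hsol1 : Group.IsSolvable (G1 ⧸ H.subgroupOf G1) := by
    apply solv_sub hH1n hidx hHT1
    let φ : T →* T.subgroupOf G1 :=
      { toFun := fun t => ⟨⟨t, hTG1 t.2⟩, Subgroup.mem_subgroupOf.2 t.2⟩
        map_one' := rfl
        map_mul' := fun _ _ => rfl }
    let ψ : T ⧸ H.subgroupOf T →*
        (T.subgroupOf G1) ⧸ (H.subgroupOf G1).subgroupOf (T.subgroupOf G1) :=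
      QuotientGroup.map (H.subgroupOf T) _ φ (fun t ht => by
        rw [Subgroup.mem_comap, Subgroup.mem_subgroupOf, Subgroup.mem_subgroupOf]
        exact Subgroup.mem_subgroupOf.1 ht)
    have hψ : Function.Surjective ψ := by
      intro y
      induction y using QuotientGroup.induction_on with
      | H y =>
        exact ⟨((⟨(y : G1), Subgroup.mem_subgroupOf.1 y.2⟩ : T) : T ⧸ H.subgroupOf T), rfl⟩
    exact Group.isSolvable_of_surjective hψ
  have hdat1 : (∃ z, cj z F1 = inv' F1 ∧ z * z ∈ H.subgroupOf G1) →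
      ∃ q, Dat O (H.subgroupOf G1) F1 Sb1.n q := by
    rintro ⟨z, hz, hzz⟩
    obtain ⟨q, hq⟩ := hdat ⟨z, by rw [← hinc, incl_cj', hz, incl_inv'],
      Subgroup.mem_subgroupOf.1 hzz⟩
    rw [hSb1]
    exact ⟨q, dat_sub O hq G1 hHG1 F1 hinc⟩
  have hterm : ∑ g : G1, (((res G1 (e * h0)).coeff (g * g) : O) : ℂ) =
      S1.n * (Nat.card {y : G1 // y ∈ E1 ∧ y ∉ D1 ∧ y * y = 1} : ℂ) := by
    refine term_sum O h2 f2 f3 f4 S1 hx1 hDE1 hne1 hH1n b1 hbl1 Sb1 ?_ ?_ hidx hHT1 ?_ ?_ hsol1 ?_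
    · rw [← hF1]; exact hFF1
    · rw [← hF1]; exact hres
    · rw [← hF1]; exact hT1
    · rw [← hF1]; exact hT2
    · rw [← hF1]; exact hdat1
  -- the two counts
  have hcount : (Nat.card {y : G // y ∈ E ∧ y ∉ D ∧ y * y = 1}) =
      Nat.card {y : G1 // y ∈ E1 ∧ y ∉ D1 ∧ y * y = 1} := by
    obtain ⟨g, hg1, hg2⟩ := hconj
    have hmm : ∀ (A : Subgroup G1) (t : G1), (t : G) ∈ A.map G1.subtype ↔ t ∈ A := by
      intro A t
      constructor
      · rintro ⟨s, hs, hst⟩
        have h1 : s = t := G1.subtype_injective hst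
        rwa [← h1]
      · exact fun h => ⟨t, h, rfl⟩
    refine (Nat.card_congr ?_).symm
    refine { toFun := fun y => ⟨g⁻¹ * (y.1 : G) * g, ?_⟩,
             invFun := fun y => ⟨⟨g * y.1 * g⁻¹, ?_⟩, ?_⟩,
             left_inv := ?_, right_inv := ?_ }
    · have h1 : g * (g⁻¹ * (y.1 : G) * g) * g⁻¹ = y.1 := by group
      refine ⟨?_, ?_, ?_⟩
      · rw [hg2, h1, hmm]
        exact y.2.1
      · rw [hg1, h1, hmm]
        exact y.2.2.1
      · have h3 : (y.1 : G) * (y.1 : G) = 1 := congrArg (fun k : G1 => (k : G)) y.2.2.2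
        calc g⁻¹ * (y.1 : G) * g * (g⁻¹ * (y.1 : G) * g) = g⁻¹ * ((y.1 : G) * (y.1 : G)) * g := by
              group
          _ = 1 := by rw [h3]; group
    · obtain ⟨t, -, ht⟩ := (hg2 y.1).1 y.2.1
      rw [← ht]
      exact t.2
    · refine ⟨?_, ?_, ?_⟩
      · rw [← hmm]
        exact (hg2 y.1).1 y.2.1
      · rw [← hmm]
        exact fun h => y.2.2.1 ((hg1 y.1).2 h)
      · apply Subtype.ext
        change g * y.1 * g⁻¹ * (g * y.1 * g⁻¹) = 1
        calc g * y.1 * g⁻¹ * (g * y.1 * g⁻¹) = g * (y.1 * y.1) * g⁻¹ := by group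
          _ = 1 := by rw [y.2.2.2]; group
    · intro y
      apply Subtype.ext
      apply Subtype.ext
      change g * (g⁻¹ * (y.1 : G) * g) * g⁻¹ = y.1
      group
    · intro y
      apply Subtype.ext
      change g⁻¹ * (g * y.1 * g⁻¹) * g = y.1
      group
  -- the sum
  have hout : ∑ k ∈ Finset.univ.filter (fun k : G => k ∉ G1), h0.coeff (k * k) = 0 := by
    apply sum_sq_zero G1 hI.idem hI.supp
    · intro y hy k
      simp only [Finset.mem_filter, Finset.mem_univ, true_and]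
      rw [Subgroup.mul_mem_cancel_left G1 hy]
    · intro k hk
      simp only [Finset.mem_filter, Finset.mem_univ, true_and] at hk
      rw [hI.inv]
      exact hI.orth _ (fun h => hk (by simpa using G1.inv_mem h))
  have hs0 : ∑ k : G, h0.coeff (k * k) = ∑ k : G1, (res G1 (e * h0)).coeff (k * k) := by
    rw [← Finset.sum_filter_add_sum_filter_not Finset.univ (fun g : G => g ∈ G1), hout, add_zero]
    symm
    refine Finset.sum_bij (fun (k : G1) _ => (k : G)) ?_ ?_ ?_ ?_
    · intro k _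
      simp
    · intro k _ k' _ h
      exact Subtype.ext h
    · intro g hg
      simp only [Finset.mem_filter, Finset.mem_univ, true_and] at hg
      exact ⟨⟨g, hg⟩, Finset.mem_univ _, rfl⟩
    · intro k _
      rw [heh0, res_coeff]
      rfl
  have hsr : ∀ r : G, ∑ k : G, (cj r h0).coeff (k * k) = ∑ k : G, h0.coeff (k * k) := by
    intro r
    refine Finset.sum_bij' (fun k _ => r⁻¹ * k * r) (fun k _ => r * k * r⁻¹)
      (fun _ _ => Finset.mem_univ _) (fun _ _ => Finset.mem_univ _) ?_ ?_ ?_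
    · intro k _
      group
    · intro k _
      group
    · intro k _
      rw [cj_coeff]
      congr 1
      group
  have hse : ∑ k : G, e.coeff (k * k) =
      (G1.index : O) * ∑ k : G1, (res G1 (e * h0)).coeff (k * k) := by
    have h5 : ∀ k : G, e.coeff (k * k) = ∑ r ∈ R, (cj r h0).coeff (k * k) := by
      intro k
      conv_lhs => rw [f5, heh0]
      rw [MonoidAlgebra.coeff_sum, Finsupp.finsetSum_apply]
    rw [Finset.sum_congr rfl (fun k _ => h5 k), Finset.sum_comm,
      Finset.sum_congr rfl (fun r _ => hsr r), Finset.sum_const, nsmul_eq_mul, trans_card hR, hs0]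
  have hseC := congrArg (fun z : O => (z : ℂ)) hse
  push_cast at hseC
  rw [hseC, hterm, hcount, hS1]
  push_cast
  ring

end Pool.Agent.Helper36.NC
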