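import Pool.Agent.Helper36.NC.G

/-!
# One simple module for `b + b°`
-/

set_option autoImplicit false
open scoped BigOperators MonoidAlgebra
open Classical

namespace Pool.Agent.Helper36.NC

open Pool.Agent.Helper36.NB Pool.Agent.Helper44.S3

theorem idem_fac {k V : Type} [Field k] [AddCommGroup V] [Module k V] [FiniteDimensional k V]
    (p : V →ₗ[k] V) (hp : p ∘ₗ p = p) :
    ∃ (m : ℕ) (X : (Fin m → k) →ₗ[k] V) (Y : V →ₗ[k] (Fin m → k)),
      Y ∘ₗ X = LinearMap.id ∧ X ∘ₗ Y = p := by
  let W := LinearMap.range p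
  let e : W ≃ₗ[k] (Fin (Module.finrank k W) → k) := (Module.finBasis k W).equivFun
  have hW : ∀ w : W, p.rangeRestrict (w : V) = w := by
    rintro ⟨w, v, rfl⟩
    apply Subtype.ext
    change p (p v) = p v
    exact LinearMap.congr_fun hp v
  refine ⟨_, W.subtype ∘ₗ e.symm.toLinearMap, e.toLinearMap ∘ₗ p.rangeRestrict, ?_, ?_⟩
  · apply LinearMap.ext
    intro x
    change e (p.rangeRestrict ((e.symm x : W) : V)) = x
    rw [hW, LinearEquiv.apply_symm_apply]
  · apply LinearMap.ext
    intro v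
    change ((e.symm (e (p.rangeRestrict v)) : W) : V) = p v
    rw [LinearEquiv.symm_apply_apply]
    rfl

section two

variable {k : Type} [Field k] {K : Type} [Group K] {H : Subgroup K} (z : K)
  (hz : ∀ g, g ∈ H ∨ z⁻¹ * g ∈ H) (hzz : z * z ∈ H) (hn : ∀ h ∈ H, z⁻¹ * h * z ∈ H)
  (b : MonoidAlgebra k H) (hb : b * b = b) (hbc : ∀ a, a * b = b * a)
  (h1 : incl k H b * cj z (incl k H b) = 0) (h2 : cj z (incl k H b) * incl k H b = 0)

theorem asAlg_el {V : Type} [AddCommGroup V] [Module k V] (ρ : Representation k K V) (g : K) :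
    ρ.asAlgebraHom (el k g) = ρ g := by
  unfold el
  rw [Representation.asAlgebraHom_single, one_smul]

include hz hzz hn hb hbc h1 h2

/-- The restriction to the image of `b`. -/
theorem restr_two {V : Type} [AddCommGroup V] [Module k V] [FiniteDimensional k V]
    (ρ : Representation k K V) (hρ : ρ.IsIrreducible)
    (he : ρ.asAlgebraHom (incl k H b + cj z (incl k H b)) = 1) :
    ∃ (m : ℕ) (X : (Fin m → k) →ₗ[k] V) (Y : V →ₗ[k] (Fin m → k))
      (τ : Representation k H (Fin m → k)),
      (∀ u, Y (X u) = u) ∧ (∀ h : H, ∀ v, Y (ρ h v) = τ h (Y v)) ∧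
      (∀ h : H, ∀ u, ρ h (X u) = X (τ h u)) ∧ (∀ u, Y (ρ z (X u)) = 0) ∧
      (∀ u, Y (ρ z⁻¹ (X u)) = 0) ∧ τ.asAlgebraHom b = 1 ∧ τ.IsIrreducible ∧
      (∃ u : Fin m → k, u ≠ 0) := by
  set f := incl k H b with hf
  have hff : f * f = f := by rw [hf, ← map_mul, hb]
  obtain ⟨m, X, Y, hYX, hXY⟩ := idem_fac (ρ.asAlgebraHom f) (by
    rw [← Module.End.mul_eq_comp, ← map_mul, hff])
  have yx : ∀ u, Y (X u) = u := fun u => LinearMap.congr_fun hYX u
  have xy : ∀ v, X (Y v) = ρ.asAlgebraHom f v := fun v => LinearMap.congr_fun hXY v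
  have hcf : ∀ h : H, el k (h : K) * f = f * el k (h : K) := by
    intro h
    have h3 := congrArg (incl k H) (hbc (el k h))
    rw [map_mul, map_mul, incl_el] at h3
    exact h3
  have hmul : ∀ (a c : MonoidAlgebra k K) (v : V),
      ρ.asAlgebraHom a (ρ.asAlgebraHom c v) = ρ.asAlgebraHom (a * c) v := by
    intro a c v
    rw [map_mul]
    rfl
  have hel : ∀ (g : K) (v : V), ρ g v = ρ.asAlgebraHom (el k g) v := by
    intro g v
    rw [asAlg_el]
  have hYp : ∀ v, Y (ρ.asAlgebraHom f v) = Y v := fun v => by rw [← xy, yx]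
  have hpX : ∀ u, ρ.asAlgebraHom f (X u) = X u := fun u => by rw [← xy, yx]
  let τ : Representation k H (Fin m → k) :=
    { toFun := fun h => Y ∘ₗ ρ (h : K) ∘ₗ X
      map_one' := by
        apply LinearMap.ext
        intro u
        change Y (ρ ((1 : H) : K) (X u)) = u
        rw [Subgroup.coe_one, map_one]
        exact yx u
      map_mul' := by
        intro h h'
        apply LinearMap.ext
        intro u
        change Y (ρ ((h * h' : H) : K) (X u)) = Y (ρ (h : K) (X (Y (ρ (h' : K) (X u)))))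
        rw [xy, hel h', hmul, ← hcf, ← hmul, hpX, Subgroup.coe_mul, map_mul, ← hel]
        rfl }
  have hτ : ∀ (h : H) u, τ h u = Y (ρ (h : K) (X u)) := fun h u => rfl
  have c1 : ∀ h : H, ∀ v, Y (ρ h v) = τ h (Y v) := by
    intro h v
    rw [hτ, xy, hel (h : K) (ρ.asAlgebraHom f v), hmul, hcf, ← hmul, hYp, ← hel]
  have c2 : ∀ h : H, ∀ u, ρ h (X u) = X (τ h u) := by
    intro h u
    rw [hτ, xy, hel (h : K), hmul, ← hcf, ← hmul, hpX]
  have c3 : ∀ u, Y (ρ z (X u)) = 0 := by
    intro u
    have h3 : f * el k z * f = 0 := by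
      have h4 : el k z * f = cj z f * el k z := by
        unfold cj
        rw [mul_assoc, mul_assoc, el_inv_mul_el, mul_one]
      rw [mul_assoc, h4, ← mul_assoc, h1, zero_mul]
    rw [← hYp, ← hpX u, hel z, hmul, hmul, h3, map_zero, LinearMap.zero_apply, map_zero]
  have c4 : ∀ u, Y (ρ z⁻¹ (X u)) = 0 := by
    intro u
    have h3 : f * el k z⁻¹ * f = 0 := by
      have h4 : f * el k z⁻¹ = el k z⁻¹ * cj z f := by
        unfold cj
        rw [← mul_assoc, ← mul_assoc, el_inv_mul_el, one_mul]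
      rw [h4, mul_assoc, h2, mul_zero]
    rw [← hYp, ← hpX u, hel z⁻¹, hmul, hmul, h3, map_zero, LinearMap.zero_apply, map_zero]
  have c5 : ∀ c : MonoidAlgebra k H, ∀ u, τ.asAlgebraHom c u = Y (ρ.asAlgebraHom (incl k H c) (X u)) := by
    intro c u
    induction c using MonoidAlgebra.induction_linear with
    | zero => simp only [map_zero, LinearMap.zero_apply]
    | add x y hx hy => simp only [map_add, LinearMap.add_apply, hx, hy]
    | single h r =>
      rw [incl_single, Representation.asAlgebraHom_single, Representation.asAlgebraHom_single,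
        LinearMap.smul_apply, LinearMap.smul_apply, map_smul, hτ]
  have c6 : τ.asAlgebraHom b = 1 := by
    apply LinearMap.ext
    intro u
    rw [c5, ← hf, hpX, yx]
    rfl
  -- a nonzero vector
  have hcjf : ∀ v, ρ.asAlgebraHom (cj z f) v = ρ z (ρ.asAlgebraHom f (ρ z⁻¹ v)) := by
    intro v
    rw [hel z⁻¹, hmul, hel z, hmul, cj, mul_assoc]
  have hdec : ∀ v, v = X (Y v) + ρ z (X (Y (ρ z⁻¹ v))) := by
    intro v
    have h3 := LinearMap.congr_fun he v
    rw [map_add, LinearMap.add_apply, hcjf, ← xy, ← xy] at h3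
    exact h3.symm
  have hbot : (⊥ : Subrepresentation ρ) ≠ ⊤ := bot_ne_top
  have hex : ∃ u : Fin m → k, u ≠ 0 := by
    by_contra hcon
    push Not at hcon
    apply hbot
    ext v
    have h3 : v = 0 := by
      rw [hdec v, hcon (Y v), hcon (Y (ρ z⁻¹ v)), map_zero, map_zero, add_zero]
    rw [h3]
    constructor
    · intro _
      exact Submodule.mem_top
    · intro _
      exact Submodule.zero_mem _
  refine ⟨m, X, Y, τ, yx, c1, c2, c3, c4, c6, ?_, hex⟩
  -- irreducibility
  obtain ⟨u0, hu0⟩ := hex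
  have hnt : Nontrivial (Subrepresentation τ) := by
    refine ⟨⟨⊥, ⊤, ?_⟩⟩
    intro h
    have h3 : u0 ∈ (⊤ : Subrepresentation τ) := Submodule.mem_top
    rw [← h] at h3
    exact hu0 ((Submodule.mem_bot k).1 h3)
  refine { exists_pair_ne := hnt.exists_pair_ne, eq_bot_or_eq_top := ?_ }
  intro U
  let U' : Subrepresentation ρ :=
    { toSubmodule :=
        { carrier := {v | Y v ∈ U ∧ Y (ρ z⁻¹ v) ∈ U}
          zero_mem' := by
            constructor
            · rw [map_zero]
              exact U.toSubmodule.zero_mem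
            · rw [map_zero, map_zero]
              exact U.toSubmodule.zero_mem
          add_mem' := by
            rintro v w ⟨hv, hv'⟩ ⟨hw, hw'⟩
            constructor
            · rw [map_add]
              exact U.toSubmodule.add_mem hv hw
            · rw [map_add, map_add]
              exact U.toSubmodule.add_mem hv' hw'
          smul_mem' := by
            rintro r v ⟨hv, hv'⟩
            constructor
            · rw [map_smul]
              exact U.toSubmodule.smul_mem r hv
            · rw [map_smul, map_smul]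
              exact U.toSubmodule.smul_mem r hv' }
      apply_mem_toSubmodule := by
        -- for the elements of `H`
        have hH : ∀ h : H, ∀ v, (Y v ∈ U ∧ Y (ρ z⁻¹ v) ∈ U) →
            (Y (ρ (h : K) v) ∈ U ∧ Y (ρ z⁻¹ (ρ (h : K) v)) ∈ U) := by
          rintro h v ⟨hv, hv'⟩
          constructor
          · rw [c1]
            exact U.apply_mem_toSubmodule h hv
          · have h3 : ρ z⁻¹ (ρ (h : K) v) = ρ ((⟨z⁻¹ * h * z, hn h h.2⟩ : H) : K) (ρ z⁻¹ v) := by
              rw [← Module.End.mul_apply, ← Module.End.mul_apply, ← map_mul, ← map_mul]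
              congr 2
              group
            rw [h3, c1]
            exact U.apply_mem_toSubmodule _ hv'
        have hZ : ∀ v, (Y v ∈ U ∧ Y (ρ z⁻¹ v) ∈ U) →
            (Y (ρ z v) ∈ U ∧ Y (ρ z⁻¹ (ρ z v)) ∈ U) := by
          rintro v ⟨hv, hv'⟩
          constructor
          · have h3 : ρ z v = ρ ((⟨z * z, hzz⟩ : H) : K) (ρ z⁻¹ v) := by
              rw [← Module.End.mul_apply, ← map_mul]
              congr 2
              group
            rw [h3, c1]
            exact U.apply_mem_toSubmodule _ hv'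
          · rw [← Module.End.mul_apply, ← map_mul, inv_mul_cancel, map_one]
            exact hv
        intro g v hv
        rcases hz g with hg | hg
        · exact hH ⟨g, hg⟩ v hv
        · have h3 := hZ _ (hH ⟨z⁻¹ * g, hg⟩ v hv)
          have h4 : ρ z (ρ ((⟨z⁻¹ * g, hg⟩ : H) : K) v) = ρ g v := by
            rw [← Module.End.mul_apply, ← map_mul]
            congr 2
            group
          rw [h4] at h3
          exact h3 }
  have hU' : ∀ v, v ∈ U' ↔ Y v ∈ U ∧ Y (ρ z⁻¹ v) ∈ U := fun v => Iff.rfl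
  rcases hρ.eq_bot_or_eq_top U' with h | h
  · left
    ext u
    constructor
    · intro hu
      have h3 : X u ∈ U' := by
        rw [hU', yx, c4]
        exact ⟨hu, U.toSubmodule.zero_mem⟩
      rw [h] at h3
      have h4 : X u = 0 := (Submodule.mem_bot k).1 h3
      have h5 : u = 0 := by rw [← yx u, h4, map_zero]
      rw [h5]
      exact Submodule.zero_mem _
    · intro hu
      have h5 : u = 0 := (Submodule.mem_bot k).1 hu
      rw [h5]
      exact U.toSubmodule.zero_mem
  · right
    ext u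
    constructor
    · intro _
      exact Submodule.mem_top
    · intro _
      have h3 : X u ∈ U' := by
        rw [h]
        exact Submodule.mem_top
      rw [hU', yx] at h3
      exact h3.1

/-- One simple module for the sum of the two conjugates. -/
theorem oneSimple_two (hone : OneSimple b) :
    OneSimple (incl k H b + cj z (incl k H b)) := by
  intro m n ρ σ hρ hσ heρ heσ
  obtain ⟨m₁, X₁, Y₁, τ₁, yx₁, y₁, x₁, z₁, z₁', one₁, irr₁, u₁, hu₁⟩ :=
    restr_two z hz hzz hn b hb hbc h1 h2 ρ hρ heρ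
  obtain ⟨m₂, X₂, Y₂, τ₂, yx₂, y₂, x₂, z₂, z₂', one₂, irr₂, -⟩ :=
    restr_two z hz hzz hn b hb hbc h1 h2 σ hσ heσ
  obtain ⟨θ⟩ := hone m₁ m₂ τ₁ τ₂ irr₁ irr₂ one₁ one₂
  have hθ : ∀ (h : H) u, θ (τ₁ h u) = τ₂ h (θ u) := fun h u =>
    LinearMap.congr_fun (θ.toIntertwiningMap.isIntertwining' h) u
  let T : (Fin m → k) →ₗ[k] (Fin n → k) := X₂ ∘ₗ θ.toIntertwiningMap.toLinearMap ∘ₗ Y₁
  have hT : ∀ v, T v = X₂ (θ (Y₁ v)) := fun v => rfl
  have hTh : ∀ (h : H) v, T (ρ (h : K) v) = σ (h : K) (T v) := by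
    intro h v
    rw [hT, hT, y₁, hθ, x₂]
  let Θ : (Fin m → k) →ₗ[k] (Fin n → k) := T + (σ z).comp (T.comp (ρ z⁻¹))
  have hΘ : ∀ v, Θ v = T v + σ z (T (ρ z⁻¹ v)) := fun v => rfl
  have mm : ∀ (g h : K) v, σ g (σ h v) = σ (g * h) v := by
    intro g h v
    rw [map_mul]
    rfl
  have mm' : ∀ (g h : K) v, ρ g (ρ h v) = ρ (g * h) v := by
    intro g h v
    rw [map_mul]
    rfl
  have hΘH : ∀ (h : H) v, Θ (ρ (h : K) v) = σ (h : K) (Θ v) := by
    intro h v
    rw [hΘ, hΘ, map_add, hTh, mm']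
    have h3 : z⁻¹ * (h : K) = ((⟨z⁻¹ * h * z, hn h h.2⟩ : H) : K) * z⁻¹ := by
      change z⁻¹ * (h : K) = z⁻¹ * h * z * z⁻¹
      group
    rw [h3, ← mm', hTh, mm, mm]
    congr 3
    change z * (z⁻¹ * (h : K) * z) = h * z
    group
  have hΘz : ∀ v, Θ (ρ z v) = σ z (Θ v) := by
    intro v
    rw [hΘ, hΘ, map_add, mm', mm, inv_mul_cancel, map_one, add_comm]
    have h3 : ρ z v = ρ ((⟨z * z, hzz⟩ : H) : K) (ρ z⁻¹ v) := by
      rw [mm']
      congr 2
      change z = z * z * z⁻¹
      group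
    rw [h3, hTh]
    rfl
  have hΘg : ∀ (g : K) v, Θ (ρ g v) = σ g (Θ v) := by
    intro g v
    rcases hz g with hg | hg
    · exact hΘH ⟨g, hg⟩ v
    · have h3 : g = z * ((⟨z⁻¹ * g, hg⟩ : H) : K) := by
        change g = z * (z⁻¹ * g)
        group
      rw [h3, ← mm', hΘz, hΘH, mm]
  have hne : Θ (X₁ u₁) ≠ 0 := by
    intro h0
    have h3 := congrArg Y₂ h0
    rw [hΘ, map_add, hT, hT, yx₁, yx₂, z₁', map_zero] at h3
    have h4 : θ (0 : Fin m₁ → k) = 0 := θ.toIntertwiningMap.toLinearMap.map_zero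
    rw [map_zero, map_zero, map_zero, add_zero] at h3
    apply hu₁
    have h5 : Function.Injective θ := θ.injective
    exact h5 (h3.trans h4.symm)
  let F : Representation.IntertwiningMap ρ σ := LinearMap.intertwiningMap_of_isIntertwiningMap ρ σ Θ hΘg
  haveI := hρ
  haveI := hσ
  rcases Representation.IsIrreducible.bijective_or_eq_zero F with hF | hF
  · exact ⟨F.ofBijective hF⟩
  · exfalso
    apply hne
    have h6 : F (X₁ u₁) = 0 := by rw [hF]; rfl
    exact h6

end two

end Pool.Agent.Helper36.NC
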