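import Pool.Agent.Helper36.NC.E
import Pool.Agent.Helper36.NC.M
import Pool.Agent.Helper36.NO.P1

/-!
# Transport along an injective homomorphism
-/

set_option autoImplicit false
open scoped BigOperators MonoidAlgebra
open Classical

namespace Pool.Agent.Helper36.NC

open Pool.Agent.Helper36.NB Pool.Agent.Helper44.S3

/-- The homomorphism of group algebras. -/
noncomputable def mp (R : Type) [CommRing R] {A K : Type} [Group A] [Group K] (i : A →* K) :
    MonoidAlgebra R A →+* MonoidAlgebra R K :=
  MonoidAlgebra.mapDomainRingHom R i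

section mp

variable {R : Type} [CommRing R] {A K : Type} [Group A] [Group K] (i : A →* K)

theorem mp_single (h : A) (r : R) :
    mp R i (MonoidAlgebra.single h r) = MonoidAlgebra.single (i h) r := by
  simp [mp]

theorem mp_el (h : A) : mp R i (el R h) = el R (i h) := mp_single i h 1

theorem mp_smul (c : R) (x : MonoidAlgebra R A) : mp R i (c • x) = c • mp R i x := by
  induction x using MonoidAlgebra.induction_linear with
  | zero => simp
  | add x y hx hy => rw [smul_add, map_add, map_add, hx, hy, smul_add]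
  | single g r =>
    rw [MonoidAlgebra.smul_single, mp_single, mp_single, MonoidAlgebra.smul_single]

theorem mp_inv (x : MonoidAlgebra R A) : mp R i (inv' x) = inv' (mp R i x) := by
  induction x using MonoidAlgebra.induction_linear with
  | zero => rw [inv'_zero, map_zero, inv'_zero]
  | add x y hx hy => rw [inv'_add, map_add, map_add, hx, hy, inv'_add]
  | single g r =>
    rw [mp_single]
    unfold inv'
    rw [MonoidAlgebra.mapDomain_single, MonoidAlgebra.mapDomain_single, mp_single, map_inv]

theorem mp_cj (g : A) (x : MonoidAlgebra R A) : mp R i (cj g x) = cj (i g) (mp R i x) := by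
  unfold cj
  rw [map_mul, map_mul, mp_el, mp_el, map_inv]

theorem mp_supp (x : MonoidAlgebra R A) (g : K) (hg : g ∉ i.range) : (mp R i x).coeff g = 0 := by
  induction x using MonoidAlgebra.induction_linear with
  | zero => rw [map_zero]; rfl
  | add x y hx hy => rw [map_add, MonoidAlgebra.coeff_add, Finsupp.add_apply, hx, hy, add_zero]
  | single h r =>
    rw [mp_single, MonoidAlgebra.coeff_single, Finsupp.single_apply, if_neg]
    rintro rfl
    exact hg ⟨h, rfl⟩

variable {i} (hi : Function.Injective i)

include hi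

theorem mp_coeff (x : MonoidAlgebra R A) (h : A) : (mp R i x).coeff (i h) = x.coeff h := by
  induction x using MonoidAlgebra.induction_linear with
  | zero => rw [map_zero]; rfl
  | add x y hx hy =>
    rw [map_add, MonoidAlgebra.coeff_add, Finsupp.add_apply, hx, hy, MonoidAlgebra.coeff_add,
      Finsupp.add_apply]
  | single g r =>
    rw [mp_single, MonoidAlgebra.coeff_single, Finsupp.single_apply, MonoidAlgebra.coeff_single,
      Finsupp.single_apply]
    exact if_congr hi.eq_iff rfl rfl

theorem mp_injective : Function.Injective (mp R i) := by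
  intro x y h
  ext g
  rw [← mp_coeff hi, h, mp_coeff hi]

theorem mp_surj (x : MonoidAlgebra R K) (hx : ∀ g, g ∉ i.range → x.coeff g = 0) :
    ∃ y, mp R i y = x := by
  refine ⟨MonoidAlgebra.comapDomain i hi x, ?_⟩
  ext g
  by_cases hg : g ∈ i.range
  · obtain ⟨h, rfl⟩ := hg
    rw [mp_coeff hi]
    simp
  · rw [hx g hg, mp_supp i _ g hg]

end mp

section one

variable {k : Type} [Field k] {A B : Type} [Group A] [Group B]

theorem oneSimple_tr (φ : A ≃* B) {b : MonoidAlgebra k A} (h : OneSimple b) :
    OneSimple (tr k φ b) := by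
  have key : ∀ (m : ℕ) (ρ : Representation k B (Fin m → k)), ρ.IsIrreducible →
      ρ.asAlgebraHom (tr k φ b) = 1 →
      ∃ ρ' : Representation k A (Fin m → k), (∀ a, ρ' a = ρ (φ a)) ∧ ρ'.IsIrreducible ∧
        ρ'.asAlgebraHom b = 1 := by
    intro m ρ hρ h1
    let ρ' : Representation k A (Fin m → k) := ρ.comp (φ : A →* B)
    have hρ' : ∀ a, ρ' a = ρ (φ a) := fun a => rfl
    have hal : ∀ c, ρ'.asAlgebraHom c = ρ.asAlgebraHom (tr k φ c) := by
      intro c
      induction c using MonoidAlgebra.induction_linear with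
      | zero => simp
      | add x y hx hy => rw [map_add, map_add, map_add, hx, hy]
      | single a r =>
        rw [tr_single, Representation.asAlgebraHom_single, Representation.asAlgebraHom_single,
          hρ']
    refine ⟨ρ', hρ', ?_, by rw [hal, h1]⟩
    have hmem : ∀ U : Subrepresentation ρ', ∃ V : Subrepresentation ρ, ∀ v, v ∈ V ↔ v ∈ U := by
      intro U
      refine ⟨{ toSubmodule := U.toSubmodule, apply_mem_toSubmodule := ?_ }, fun v => Iff.rfl⟩
      intro g v hv
      have h3 := U.apply_mem_toSubmodule (φ.symm g) hv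
      rw [hρ', MulEquiv.apply_symm_apply] at h3
      exact h3
    have hne : ∃ v : Fin m → k, v ≠ 0 := by
      by_contra hcon
      push Not at hcon
      obtain ⟨x, y, hxy⟩ := hρ.exists_pair_ne
      apply hxy
      ext v
      rw [hcon v]
      exact ⟨fun _ => y.toSubmodule.zero_mem, fun _ => x.toSubmodule.zero_mem⟩
    obtain ⟨v0, hv0⟩ := hne
    have hnt : Nontrivial (Subrepresentation ρ') := by
      refine ⟨⟨⊥, ⊤, ?_⟩⟩
      intro h
      have h3 : v0 ∈ (⊤ : Subrepresentation ρ') := Submodule.mem_top
      rw [← h] at h3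
      exact hv0 ((Submodule.mem_bot k).1 h3)
    refine { exists_pair_ne := hnt.exists_pair_ne, eq_bot_or_eq_top := ?_ }
    intro U
    obtain ⟨V, hV⟩ := hmem U
    rcases hρ.eq_bot_or_eq_top V with h3 | h3
    · left
      ext v
      refine (hV v).symm.trans ?_
      rw [h3]
      exact Iff.rfl
    · right
      ext v
      refine (hV v).symm.trans ?_
      rw [h3]
      exact Iff.rfl
  intro m n ρ σ hρ hσ h1 h2
  obtain ⟨ρ', hρ', hρi, hρ1⟩ := key m ρ hρ h1
  obtain ⟨σ', hσ', hσi, hσ1⟩ := key n σ hσ h2
  obtain ⟨θ⟩ := h m n ρ' σ' hρi hσi hρ1 hσ1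
  let F : Representation.IntertwiningMap ρ σ :=
    LinearMap.intertwiningMap_of_isIntertwiningMap ρ σ θ.toIntertwiningMap.toLinearMap (by
      intro g v
      have h3 := LinearMap.congr_fun (θ.toIntertwiningMap.isIntertwining' (φ.symm g)) v
      simp only [LinearMap.comp_apply] at h3
      rw [hρ', hσ', MulEquiv.apply_symm_apply] at h3
      exact h3)
  exact ⟨F.ofBijective θ.bijective⟩

end one

/-- The sum of two conjugates of a block of a subgroup of index two. -/
theorem isBlock_cj {R : Type} [CommRing R] {C : Type} [Group C] [Finite C] {N : Subgroup C}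
    (b : MonoidAlgebra R N) (hb : IsBlock b) (z : C) (hz : z ∉ N)
    (hidx : ∀ g, g ∉ N → z⁻¹ * g ∈ N) (hnz : ∀ h ∈ N, z⁻¹ * h * z ∈ N) (hzz : z * z ∈ N)
    (h1 : incl R N b * cj z (incl R N b) = 0) (h2 : cj z (incl R N b) * incl R N b = 0) :
    IsBlock (incl R N b + cj z (incl R N b)) := by
  obtain ⟨hb0, hbb, hbc, hbp⟩ := hb
  set F := incl R N b with hF
  have hFi : F * F = F := by rw [hF, ← map_mul, hbb]
  have hcH : ∀ g ∈ N, cj g F = F := by
    intro g hg
    rw [cj_eq_iff, hF]
    have h1 := congrArg (incl R N) (hbc (el R ⟨g, hg⟩))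
    rw [map_mul, map_mul, incl_el] at h1
    exact h1
  have hc : ∀ g, g ∉ N → cj g F = cj z F := by
    intro g hg
    have h3 : g = z * (z⁻¹ * g) := by group
    rw [h3, ← cj_cj, hcH _ (hidx g hg)]
  have hcz : ∀ g ∈ N, cj g (cj z F) = cj z F := by
    intro g hg
    have h3 : g * z = z * (z⁻¹ * g * z) := by group
    rw [cj_cj, h3, ← cj_cj, hcH _ (hnz g hg)]
  have hzF : cj z (cj z F) = F := by rw [cj_cj, hcH _ hzz]
  have hFi' : cj z F * cj z F = cj z F := by rw [← cj_mul, hFi]
  have hcen : ∀ g, cj g (F + cj z F) = F + cj z F := by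
    intro g
    by_cases hg : g ∈ N
    · rw [cj_add, hcH g hg, hcz g hg]
    · have h3 : g = z * (z⁻¹ * g) := by group
      rw [h3, ← cj_cj, cj_add (z⁻¹ * g), hcH _ (hidx g hg), hcz _ (hidx g hg), cj_add, hzF,
        add_comm]
  have hcenF : ∀ y, y * (F + cj z F) = (F + cj z F) * y := fun y => central_of_cj hcen y
  have hFs : ∀ g, g ∉ N → F.coeff g = 0 := fun g hg => incl_supp N b hg
  refine ⟨?_, ?_, hcenF, ?_⟩
  · intro h0
    apply hb0
    have h1 : F = 0 := by
      calc F = (F + cj z F) * F := by rw [add_mul, hFi, h2, add_zero]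
        _ = 0 := by rw [h0, zero_mul]
    exact incl_injective N (by rw [← hF, h1, map_zero])
  · rw [add_mul, mul_add, mul_add, hFi, hFi', h1, h2, add_zero, zero_add]
  · intro f hf hfc
    have hsupp := supp_stab hFi hFs (fun g hg => by rw [hc g hg, h1]) hfc
    have hfF : f * F * (f * F) = f * F := by
      calc f * F * (f * F) = f * (F * f) * F := by simp only [mul_assoc]
        _ = f * (f * F) * F := by rw [hfc F]
        _ = (f * f) * (F * F) := by simp only [mul_assoc]
        _ = f * F := by rw [hf, hFi]
    have hincl : incl R N (res N (f * F)) = f * F := Pool.Agent.Helper44.S3.incl_res N hsupp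
    set β := res N (f * F) with hβ
    have hββ : β * β = β := by
      apply incl_injective N
      rw [map_mul, hincl, hfF]
    have hβc : ∀ a, a * β = β * a := by
      apply central_of_cj
      intro g
      rw [cj_eq_iff]
      apply incl_injective N
      rw [map_mul, map_mul, hincl, incl_el, ← cj_eq_iff, cj_mul, cj_of_central hfc, hcH g g.2]
    have hβb : β * b = β := by
      apply incl_injective N
      rw [map_mul, hincl, ← hF, mul_assoc, hFi]
    have hconj : f * cj z F = cj z (f * F) := by
      rw [cj_mul, cj_of_central hfc]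
    rcases hbp β hββ hβc with h | h
    · left
      rw [hβb] at h
      have h1 : f * F = 0 := by rw [← hincl, h, map_zero]
      rw [mul_add, h1, hconj, h1]
      unfold cj
      rw [mul_zero, zero_mul, add_zero]
    · right
      rw [hβb] at h
      have h1 : f * F = F := by rw [← hincl, h]
      rw [mul_add, h1, hconj, h1]

section theta

variable {A K : Type} [Group A] [Group K] {i : A →* K} (hi : Function.Injective i)
  (C0 : Subgroup A) (C : Subgroup K) (hC : ∀ h : A, h ∈ C0 ↔ i h ∈ C)

/-- The isomorphism of `C0` with the intersection of `C` with the image. -/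
noncomputable def theta : C0 ≃* i.range.subgroupOf C :=
  MulEquiv.ofBijective
    ({ toFun := fun c => ⟨⟨i c, (hC c).1 c.2⟩, Subgroup.mem_subgroupOf.2 ⟨c, rfl⟩⟩
       map_one' := by
         apply Subtype.ext
         apply Subtype.ext
         exact map_one i
       map_mul' := by
         intro a b
         apply Subtype.ext
         apply Subtype.ext
         exact map_mul i _ _ } : C0 →* i.range.subgroupOf C)
    ⟨by
      intro a b h
      apply Subtype.ext
      apply hi
      exact congrArg (fun x : i.range.subgroupOf C => ((x : C) : K)) h, by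
      rintro ⟨⟨c, hc⟩, hc'⟩
      obtain ⟨a, ha⟩ := Subgroup.mem_subgroupOf.1 hc'
      exact ⟨⟨a, (hC a).2 (by rw [ha]; exact hc)⟩, Subtype.ext (Subtype.ext ha)⟩⟩

theorem theta_coe (c : C0) : (((theta hi C0 C hC c) : C) : K) = i c := rfl

variable (R : Type) [CommRing R]

/-- The map of group algebras. -/
noncomputable def Phi : MonoidAlgebra R C0 →+* MonoidAlgebra R C :=
  (incl R (i.range.subgroupOf C)).comp (tr R (theta hi C0 C hC))

theorem Phi_apply (a : MonoidAlgebra R C0) :
    Phi hi C0 C hC R a = incl R (i.range.subgroupOf C) (tr R (theta hi C0 C hC) a) := rfl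

theorem incl_Phi (a : MonoidAlgebra R C0) :
    incl R C (Phi hi C0 C hC R a) = mp R i (incl R C0 a) := by
  induction a using MonoidAlgebra.induction_linear with
  | zero => simp
  | add x y hx hy => rw [map_add, map_add, map_add, map_add, hx, hy]
  | single c r =>
    rw [Phi_apply, tr_single, incl_single, incl_single, incl_single, mp_single]
    rfl

theorem Phi_injective : Function.Injective (Phi hi C0 C hC R) := by
  intro a b h
  apply incl_injective C0
  apply mp_injective hi
  rw [← incl_Phi hi C0 C hC, h, incl_Phi]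

theorem res_mp (a : MonoidAlgebra R A) :
    res C (mp R i a) = Phi hi C0 C hC R (res C0 a) := by
  ext c
  rw [res_coeff, ← incl_coeff C (Phi hi C0 C hC R (res C0 a)) c, incl_Phi]
  by_cases hc : (c : K) ∈ i.range
  · obtain ⟨h, hh⟩ := hc
    have hh0 : h ∈ C0 := (hC h).2 (by rw [hh]; exact c.2)
    rw [← hh, mp_coeff hi, mp_coeff hi]
    have h3 := incl_coeff C0 (res C0 a) ⟨h, hh0⟩
    rw [res_coeff] at h3
    exact h3.symm
  · rw [mp_supp i _ _ hc, mp_supp i _ _ hc]

end theta

/-- The block of `C` over the block `b` of the intersection with the image. -/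
theorem exists_block_K {k : Type} [Field k] {A K : Type} [Group A] [Group K] [Finite K]
    {i : A →* K}
    (hi : Function.Injective i) (hrn : i.range.Normal)
    (hidx : ∀ g h : K, g ∉ i.range → h ∉ i.range → g * h ∈ i.range)
    (C0 : Subgroup A) (C : Subgroup K) (hC : ∀ h : A, h ∈ C0 ↔ i h ∈ C)
    (b : MonoidAlgebra k C0) (hb : IsBlock b) (hone : OneSimple b)
    (h1 : ∀ z : C, (z : K) ∉ i.range → Phi hi C0 C hC k b * cj z (Phi hi C0 C hC k b) = 0)
    (h2 : ∀ z : C, (z : K) ∉ i.range → cj z (Phi hi C0 C hC k b) * Phi hi C0 C hC k b = 0) :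
    ∃ γ : MonoidAlgebra k C, IsBlock γ ∧ OneSimple γ ∧
      ((C ≤ i.range ∧ γ = Phi hi C0 C hC k b) ∨
        ∃ z : C, (z : K) ∉ i.range ∧
          γ = Phi hi C0 C hC k b + cj z (Phi hi C0 C hC k b)) := by
  by_cases hle : C ≤ i.range
  · -- the case of an isomorphism
    let φ : C0 ≃* C := MulEquiv.ofBijective
      ({ toFun := fun c => ⟨i c, (hC c).1 c.2⟩
         map_one' := Subtype.ext (map_one i)
         map_mul' := fun a b => Subtype.ext (map_mul i _ _) } : C0 →* C)
      ⟨fun a b h => Subtype.ext (hi (congrArg Subtype.val h)), by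
        rintro ⟨c, hc⟩
        obtain ⟨a, ha⟩ := hle hc
        exact ⟨⟨a, (hC a).2 (by rw [ha]; exact hc)⟩, Subtype.ext ha⟩⟩
    have hφ : ∀ a, Phi hi C0 C hC k a = tr k φ a := by
      intro a
      induction a using MonoidAlgebra.induction_linear with
      | zero => simp
      | add x y hx hy => rw [map_add, map_add, hx, hy]
      | single c r =>
        rw [Phi_apply, tr_single, incl_single, tr_single]
        rfl
    refine ⟨Phi hi C0 C hC k b, ?_, ?_, Or.inl ⟨hle, rfl⟩⟩
    · rw [hφ]; exact tr_block φ hb
    · rw [hφ]; exact oneSimple_tr φ hone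
  · have hex : ∃ z : C, (z : K) ∉ i.range := by
      by_contra hcon
      push Not at hcon
      exact hle (fun c hc => hcon ⟨c, hc⟩)
    obtain ⟨z, hz⟩ := hex
    have hb' := tr_block (theta hi C0 C hC) hb
    have hone' := oneSimple_tr (theta hi C0 C hC) hone
    have hzN : z ∉ i.range.subgroupOf C := fun h => hz (Subgroup.mem_subgroupOf.1 h)
    have hinv : ∀ g : K, g ∉ i.range → g⁻¹ ∉ i.range := fun g hg h =>
      hg (by simpa using i.range.inv_mem h)
    have hx1 : ∀ g : C, g ∉ i.range.subgroupOf C → z⁻¹ * g ∈ i.range.subgroupOf C := by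
      intro g hg
      rw [Subgroup.mem_subgroupOf] at hg ⊢
      exact hidx _ _ (hinv _ hz) hg
    have hx2 : ∀ h ∈ i.range.subgroupOf C, z⁻¹ * h * z ∈ i.range.subgroupOf C := by
      intro h hh
      rw [Subgroup.mem_subgroupOf] at hh ⊢
      have := hrn.conj_mem _ hh ((z : K)⁻¹)
      rw [inv_inv] at this
      exact this
    have hx3 : z * z ∈ i.range.subgroupOf C := by
      rw [Subgroup.mem_subgroupOf]
      exact hidx _ _ hz hz
    refine ⟨_, isBlock_cj _ hb' z hzN hx1 hx2 hx3 (h1 z hz) (h2 z hz), ?_,
      Or.inr ⟨z, hz, rfl⟩⟩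
    refine oneSimple_two z (fun g => ?_) hx3 hx2 _ hb'.2.1 hb'.2.2.1 (h1 z hz) (h2 z hz) hone'
    by_cases hg : g ∈ i.range.subgroupOf C
    · exact Or.inl hg
    · exact Or.inr (hx1 g hg)

end Pool.Agent.Helper36.NC
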