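import Pool.Agent.Helper36.NC.N0

/-!
# The idempotent `q`
-/

set_option autoImplicit false
open scoped BigOperators MonoidAlgebra
open Classical

namespace Pool.Agent.Helper36.NC

open Pool.Agent.Helper36.NB Pool.Agent.Helper44.S3

section pull

variable {k : Type} [Field k] {A K : Type} [Group A] [Group K] {i : A →* K}
  (hi : Function.Injective i)

/-- The restriction of coefficients. -/
noncomputable def pull : MonoidAlgebra k K →ₗ[k] MonoidAlgebra k A where
  toFun x := MonoidAlgebra.comapDomain i hi x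
  map_add' x y := by
    ext h
    simp
  map_smul' c x := by
    ext h
    simp

theorem pull_coeff (x : MonoidAlgebra k K) (h : A) : (pull hi x).coeff h = x.coeff (i h) := by
  simp [pull]

theorem mp_pull (x : MonoidAlgebra k K) (hx : ∀ g, g ∉ i.range → x.coeff g = 0) :
    mp k i (pull hi x) = x := by
  ext g
  by_cases hg : g ∈ i.range
  · obtain ⟨h, rfl⟩ := hg
    rw [mp_coeff hi, pull_coeff]
  · rw [hx g hg, mp_supp i _ g hg]

end pull

theorem psi_coeff {k : Type} [Field k] {K : Type} [Group K] (t : K) (x : MonoidAlgebra k K)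
    (g : K) : (psi t x).coeff g = x.coeff (t⁻¹ * g⁻¹ * t) := by
  rw [psi_apply, mul_el_coeff, el_mul_coeff, inv'_coeff]
  congr 1
  group

theorem exists_q {k : Type} [Field k] [IsAlgClosed k] [CharP k 2] {A K : Type} [Group A]
    [Fintype A] [Group K] [Fintype K] {i : A →* K} (hi : Function.Injective i)
    (hrn : i.range.Normal)
    (hidx : ∀ g h : K, g ∉ i.range → h ∉ i.range → g * h ∈ i.range)
    (b : MonoidAlgebra k A) (hb : b * b = b) (hbc : ∀ a, a * b = b * a)
    (F : MonoidAlgebra k K) (hF : F = mp k i b) (hc : ∀ g, g ∉ i.range → cj g F = inv' F)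
    (S : SimpleQuot (F + inv' F)) (P : Subgroup K)
    (t x : K) (ht : t ∉ i.range) (htP : ∀ u ∈ P, t⁻¹ * u * t ∈ P) (htt : t * t ∈ P)
    (hxo : Odd (orderOf x)) (htx : t * x * t⁻¹ = x⁻¹) (hxP : ∀ u ∈ P, u * x = x * u)
    (hlx : S.lam (el k x) ≠ 0) :
    ∃ q : MonoidAlgebra k A, q * q = q ∧ q * b = q ∧ Cen (P.comap i) q ∧
      psi t (mp k i q) = mp k i q ∧ S.lam (mp k i q) ≠ 0 ∧
      ∀ a, Cen (P.comap i) a → q * a = a → a * q = a → ¬ IsNilpotent a →
        ∃ (m : ℕ) (x y : Fin m → MonoidAlgebra k A), (∀ l, Cen (P.comap i) (x l)) ∧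
          (∀ l, Cen (P.comap i) (y l)) ∧ q = ∑ l, x l * a * y l := by
  have hFi : F * F = F := by rw [hF, ← map_mul, hb]
  have hE : inv' (F + inv' F) = F + inv' F := by rw [inv'_add, inv'_inv', add_comm]
  -- the functional
  have hlinv : ∀ y, S.lam (inv' y) = S.lam y := fun y => trace_inv _ hE S y
  -- the element `x` or its inverse
  have hx' : ∃ x' : K, Odd (orderOf x') ∧ t * x' * t⁻¹ = x'⁻¹ ∧ (∀ u ∈ P, u * x' = x' * u) ∧
      S.lam (el k x' * F) ≠ 0 := by
    by_cases h : S.lam (el k x * F) = 0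
    · refine ⟨x⁻¹, ?_, ?_, ?_, ?_⟩
      · rw [orderOf_inv]; exact hxo
      · calc t * x⁻¹ * t⁻¹ = (t * x * t⁻¹)⁻¹ := by group
          _ = x⁻¹⁻¹ := by rw [htx]
      · intro u hu
        have h1 : Commute u x := hxP u hu
        exact h1.inv_right
      · intro h'
        apply hlx
        have h3 : S.lam (el k x * inv' F) = 0 := by
          rw [← hlinv, inv'_mul, inv'_inv', inv'_el, S.lam_comm]
          exact h'
        rw [← S.lam_mul_b, mul_add, map_add, h, h3, add_zero]
    · exact ⟨x, hxo, htx, hxP, h⟩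
  obtain ⟨x', hxo', htx', hxP', hlx'⟩ := hx'
  let lam' : MonoidAlgebra k K →ₗ[k] k := S.lam.comp (LinearMap.mulRight k F)
  obtain ⟨ε, hεx, hε, hεψ, hε0⟩ := exists_eps (k := k) x' t hxo' htx' lam' hlx'
  -- `ε` commutes with `P`
  have hεP : Cen P ε := by
    rw [← mem_fixSub]
    have hle : Algebra.adjoin k {el k x'} ≤ fixSub k P := by
      apply Algebra.adjoin_le
      rintro _ rfl
      rw [SetLike.mem_coe, mem_fixSub]
      intro u hu
      rw [← el_mul, ← el_mul, hxP' u hu]
    exact hle hεx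
  -- `x'` is in the range
  have hxr : x' ∈ i.range := by
    by_contra hcon
    have h1 : ∀ n : ℕ, x' ^ (2 * n + 1) ∉ i.range := by
      intro n
      induction n with
      | zero => simpa using hcon
      | succ n ih =>
        intro h3
        apply ih
        have h4 : x' ^ (2 * n + 1) = (x' * x')⁻¹ * x' ^ (2 * (n + 1) + 1) := by
          have h5 : x' ^ (2 * (n + 1) + 1) = x' * x' * x' ^ (2 * n + 1) := by
            rw [show 2 * (n + 1) + 1 = 1 + (1 + (2 * n + 1)) by ring, pow_add, pow_add, pow_one,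
              mul_assoc]
          rw [h5]; group
        rw [h4]
        exact i.range.mul_mem (i.range.inv_mem (hidx _ _ hcon hcon)) h3
    obtain ⟨n, hn⟩ := hxo'
    apply h1 n
    rw [← hn, pow_orderOf_eq_one]
    exact i.range.one_mem
  obtain ⟨ε0, hε0'⟩ : ∃ ε0, mp k i ε0 = ε := by
    refine Algebra.adjoin_induction (p := fun y _ => ∃ y0, mp k i y0 = y) ?_ ?_ ?_ ?_ hεx
    · rintro _ rfl
      obtain ⟨h, hh⟩ := hxr
      exact ⟨el k h, by rw [mp_el, hh]⟩
    · intro r
      refine ⟨algebraMap k _ r, ?_⟩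
      rw [Algebra.algebraMap_eq_smul_one, mp_smul, map_one, Algebra.algebraMap_eq_smul_one]
    · rintro y z _ _ ⟨y0, rfl⟩ ⟨z0, rfl⟩
      exact ⟨y0 + z0, map_add _ _ _⟩
    · rintro y z _ _ ⟨y0, rfl⟩ ⟨z0, rfl⟩
      exact ⟨y0 * z0, map_mul _ _ _⟩
  have hε00 : ε0 * ε0 = ε0 := mp_injective hi (by rw [map_mul, hε0', hε])
  have hpF : psi t F = F := by
    rw [psi_apply]
    have h3 := hc t ht
    have h4 : cj t (inv' F) = F := by rw [← cj_inv', h3, inv'_inv']
    exact h4
  have hFm : ∀ a, mp k i a * F = F * mp k i a := fun a => by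
    rw [hF, ← map_mul, hbc, map_mul]
  -- the anti-automorphism of `k[A]`
  have hsup : ∀ a : MonoidAlgebra k A, ∀ g, g ∉ i.range → (psi t (mp k i a)).coeff g = 0 := by
    intro a g hg
    rw [psi_coeff, mp_supp i]
    intro h
    apply hg
    have h3 := hrn.conj_mem _ h t
    have h4 : t * (t⁻¹ * g⁻¹ * t) * t⁻¹ = g⁻¹ := by group
    rw [h4] at h3
    simpa using i.range.inv_mem h3
  let ψ0 : MonoidAlgebra k A →ₗ[k] MonoidAlgebra k A :=
    { toFun := fun a => pull hi (psi t (mp k i a))
      map_add' := fun a b => by simp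
      map_smul' := fun c a => by
        change pull hi (psi t (mp k i (c • a))) = c • pull hi (psi t (mp k i a))
        rw [mp_smul, map_smul, map_smul] }
  have hψ0 : ∀ a, mp k i (ψ0 a) = psi t (mp k i a) := fun a => mp_pull hi _ (hsup a)
  set R := fixSub k (P.comap i) with hR
  have hcen : ∀ a : MonoidAlgebra k A, Cen (P.comap i) a ↔
      ∀ u, i u ∈ P → el k (i u) * mp k i a = mp k i a * el k (i u) := by
    intro a
    constructor
    · intro h u hu
      have h3 := congrArg (mp k i) (h u hu)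
      rwa [map_mul, map_mul, mp_el] at h3
    · intro h u hu
      apply mp_injective hi
      rw [map_mul, map_mul, mp_el]
      exact h u hu
  have hPr : t * t ∈ i.range := hidx t t ht ht
  have htP' : ∀ u ∈ P, t * u * t⁻¹ ∈ P := by
    intro u hu
    have h3 := htP _ (P.mul_mem (P.mul_mem htt hu) (P.inv_mem htt))
    have h4 : t⁻¹ * (t * t * u * (t * t)⁻¹) * t = t * u * t⁻¹ := by group
    rwa [h4] at h3
  have hψR : ∀ a ∈ R, ψ0 a ∈ R := by
    intro a ha
    rw [hR, mem_fixSub, hcen] at *
    intro u hu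
    rw [hψ0]
    -- conjugate
    have h3 : t⁻¹ * (i u)⁻¹ * t ∈ i.range := by
      have h5 := hrn.conj_mem _ (i.range.inv_mem ⟨u, rfl⟩) t⁻¹
      rw [inv_inv] at h5
      exact h5
    obtain ⟨v, hv⟩ := h3
    have hvP : i v ∈ P := by
      rw [hv]
      exact htP _ (P.inv_mem hu)
    have h6 := ha v hvP
    have h7 : psi t (el k (i v)) = el k (i u) := by
      rw [psi_apply, inv'_el, ← el_mul, ← el_mul, hv]
      congr 1
      group
    calc el k (i u) * psi t (mp k i a) = psi t (mp k i a * el k (i v)) := by rw [psi_mul, h7]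
      _ = psi t (el k (i v) * mp k i a) := by rw [h6]
      _ = psi t (mp k i a) * el k (i u) := by rw [psi_mul, h7]
  let ψ : R →ₗ[k] R :=
    { toFun := fun a => ⟨ψ0 a, hψR a a.2⟩
      map_add' := fun a b => Subtype.ext (by
        change ψ0 ((a : MonoidAlgebra k A) + b) = ψ0 a + ψ0 b
        rw [map_add])
      map_smul' := fun c a => Subtype.ext (by
        change ψ0 (c • (a : MonoidAlgebra k A)) = c • ψ0 a
        rw [map_smul]) }
  have hψv : ∀ a : R, ((ψ a : R) : MonoidAlgebra k A) = ψ0 a := fun a => rfl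
  let L0 : MonoidAlgebra k A →ₗ[k] k :=
    { toFun := fun a => S.lam (mp k i a)
      map_add' := fun a b => by rw [map_add, map_add]
      map_smul' := fun c a => by rw [mp_smul, map_smul]; rfl }
  have hL0 : ∀ a, L0 a = S.lam (mp k i a) := fun a => rfl
  let lam : R →ₗ[k] k := L0.comp R.val.toLinearMap
  have hlamv : ∀ a : R, lam a = S.lam (mp k i a) := fun a => rfl
  have hstart : ε0 * b ∈ R := by
    rw [hR, mem_fixSub, hcen]
    intro u hu
    rw [map_mul, hε0', ← hF, ← mul_assoc, hεP _ hu, mul_assoc, ← mp_el, hFm, ← mul_assoc]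
  have : Module.Finite k R := by infer_instance
  obtain ⟨j, hj, hψj, hεj, hjε, hlamj, hH⟩ := exists_homog (k := k) (R := R) ψ
    (by
      intro a b
      apply Subtype.ext
      apply mp_injective hi
      change mp k i (ψ0 ((a : MonoidAlgebra k A) * b)) = mp k i (ψ0 b * ψ0 a)
      rw [hψ0, map_mul (mp k i), psi_mul, map_mul (mp k i), hψ0, hψ0])
    (by
      intro a
      apply Subtype.ext
      apply mp_injective hi
      change mp k i (ψ0 (ψ0 a)) = mp k i a
      rw [hψ0, hψ0, psi_psi]
      have ha : Cen (P.comap i) (a : MonoidAlgebra k A) := (mem_fixSub _ _).1 a.2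
      rw [hcen] at ha
      obtain ⟨v, hv⟩ := hPr
      have h3 := ha v (by rw [hv]; exact htt)
      rw [hv] at h3
      rw [h3, mul_assoc, el_mul_el_inv, mul_one])
    lam
    (by
      intro a b
      rw [hlamv, hlamv, MulMemClass.coe_mul, MulMemClass.coe_mul, map_mul (mp k i),
        map_mul (mp k i)]
      exact S.lam_comm _ _)
    (by
      intro a ha
      rw [hlamv]
      exact S.lam_nil _ ((ha.map R.val).map (mp k i)))
    (by
      intro a
      rw [hlamv, hlamv, hψv, hψ0, psi_apply]
      rw [S.lam_comm, ← mul_assoc, el_inv_mul_el, one_mul]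
      exact hlinv _)
    ⟨ε0 * b, hstart⟩
    (by
      apply Subtype.ext
      change ε0 * b * (ε0 * b) = ε0 * b
      calc ε0 * b * (ε0 * b) = ε0 * (b * ε0) * b := by noncomm_ring
        _ = ε0 * (ε0 * b) * b := by rw [hbc ε0]
        _ = (ε0 * ε0) * (b * b) := by noncomm_ring
        _ = ε0 * b := by rw [hε00, hb])
    (by
      apply Subtype.ext
      apply mp_injective hi
      change mp k i (ψ0 (ε0 * b)) = mp k i (ε0 * b)
      rw [hψ0, map_mul, psi_mul, ← hF, hpF, hε0', psi_apply, hεψ, ← hε0', hFm])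
    (by
      rw [hlamv]
      change S.lam (mp k i (ε0 * b)) ≠ 0
      rw [map_mul, hε0', ← hF]
      exact hε0)
  have hjj : (j : MonoidAlgebra k A) * j = j := by
    have := congrArg Subtype.val hj
    simpa using this
  have hεj' : ε0 * b * (j : MonoidAlgebra k A) = j := by
    have := congrArg Subtype.val hεj
    simpa using this
  refine ⟨j, hjj, ?_, ?_, ?_, hlamj, ?_⟩
  · calc (j : MonoidAlgebra k A) * b = b * j := hbc _
      _ = b * (ε0 * b * j) := by rw [hεj']
      _ = (b * ε0) * (b * j) := by noncomm_ring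
      _ = (ε0 * b) * (b * j) := by rw [hbc ε0]
      _ = ε0 * (b * b) * j := by noncomm_ring
      _ = ε0 * b * j := by rw [hb]
      _ = j := hεj'
  · rw [← mem_fixSub]; exact j.2
  · rw [← hψ0]
    have h3 := congrArg Subtype.val hψj
    rw [hψv] at h3
    rw [h3]
  · intro a ha hia hai hanil
    have haR : a ∈ R := by rw [hR, mem_fixSub]; exact ha
    obtain ⟨m, xx, yy, hsum⟩ := hH ⟨a, haR⟩ (Subtype.ext hia) (Subtype.ext hai)
      (fun hn => hanil (hn.map R.val))
    refine ⟨m, fun l => xx l, fun l => yy l, fun l => ?_, fun l => ?_, ?_⟩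
    · rw [← mem_fixSub]; exact (xx l).2
    · rw [← mem_fixSub]; exact (yy l).2
    · have := congrArg Subtype.val hsum
      simpa using this

end Pool.Agent.Helper36.NC
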