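import Pool.Agent.Helper36.NC.N1
import Pool.Agent.Helper44.NO.P9

/-!
# The local blocks of the extension
-/

set_option autoImplicit false
open scoped BigOperators MonoidAlgebra
open Classical

namespace Pool.Agent.Helper36.NC

open Pool.Agent.Helper36.NB Pool.Agent.Helper44.S3 Pool.Agent.Helper32.NO

theorem exists_source' {k : Type} [Field k] [CharP k 2] {G : Type} [Group G] [Fintype G]
    (D : Subgroup G) (e : MonoidAlgebra k G) (lam : MonoidAlgebra k G →ₗ[k] k)
    (hl : ∀ a b, lam (a * b) = lam (b * a)) (i : MonoidAlgebra k G) (hi : i * i = i)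
    (hie : i * e = i) (hiD : Cen D i) (hlam : lam i ≠ 0) (hD : IsPGroup 2 D) :
    ∃ q, IsSource D e q ∧ q * i = q ∧ lam q ≠ 0 := by
  have : Module.Finite k (fixSub k D) := by infer_instance
  obtain ⟨q, hq, hiq, hqi, hlq, hprim⟩ := exists_primitive (k := k) (R := fixSub k D)
    (lam.comp (fixSub k D).val.toLinearMap) ⟨i, (mem_fixSub D i).mpr hiD⟩
    (Subtype.ext hi) hlam
  have hq' : (q : MonoidAlgebra k G) * q = q := by simpa using congrArg Subtype.val hq
  have hqi' : (q : MonoidAlgebra k G) * i = q := by simpa using congrArg Subtype.val hqi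
  have hqD : Cen D (q : MonoidAlgebra k G) := (mem_fixSub D _).mp q.2
  have hlq' : lam (q : MonoidAlgebra k G) ≠ 0 := hlq
  refine ⟨q, ⟨hq', hqD, ?_, ?_, ?_⟩, hqi', hlq'⟩
  · rw [← hqi', mul_assoc, hie]
  · intro f hf hfD hqf hfq
    rcases hprim ⟨f, (mem_fixSub D f).mpr hfD⟩ (Subtype.ext hf) (Subtype.ext hqf)
      (Subtype.ext hfq) with h | h
    · left; simpa using congrArg Subtype.val h
    · right; rw [← h]
  · intro h0
    apply hlq'
    rw [lam_res D hD _ rfl lam hl _ hqD, h0, map_zero, map_zero]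

/-- Conjugation and restriction to a centraliser. -/
theorem cj_incl_res {R : Type} [CommRing R] {K : Type} [Group K] (g : K) (C C' : Subgroup K)
    (h : ∀ c, c ∈ C ↔ g * c * g⁻¹ ∈ C') (y : MonoidAlgebra R K) :
    cj g (incl R C (res C y)) = incl R C' (res C' (cj g y)) := by
  ext x
  rw [cj_coeff]
  by_cases hx : x ∈ C'
  · have h3 : g⁻¹ * x * g ∈ C := by
      rw [h]
      have h4 : g * (g⁻¹ * x * g) * g⁻¹ = x := by group
      rwa [h4]
    have h5 := incl_coeff C (res C y) ⟨_, h3⟩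
    have h6 := incl_coeff C' (res C' (cj g y)) ⟨x, hx⟩
    rw [res_coeff] at h5 h6
    rw [cj_coeff] at h6
    exact h5.trans h6.symm
  · rw [Pool.Agent.Helper44.S3.incl_supp C' _ hx, Pool.Agent.Helper44.S3.incl_supp C]
    intro h3
    apply hx
    rw [h] at h3
    have h4 : g * (g⁻¹ * x * g) * g⁻¹ = x := by group
    rwa [h4] at h3

section two

variable {k : Type} [Field k] [IsAlgClosed k] [CharP k 2] {A K : Type} [Group A]
  [Fintype A] [Group K] [Fintype K] {i : A →* K} (hi : Function.Injective i)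
  (hrn : i.range.Normal) (hidx : ∀ g h : K, g ∉ i.range → h ∉ i.range → g * h ∈ i.range)
  (b : MonoidAlgebra k A) (hb : b * b = b) (hbc : ∀ a, a * b = b * a)
  (F : MonoidAlgebra k K) (hF : F = mp k i b) (hc : ∀ g, g ∉ i.range → cj g F = inv' F)
  (hFF : F * inv' F = 0) (P : Subgroup K) (hP2 : IsPGroup 2 P) (hPr : P ≤ i.range)
  (q : MonoidAlgebra k A) (hq : q * q = q) (hqb : q * b = q) (hqP : Cen (P.comap i) q)
  (lam : MonoidAlgebra k A →ₗ[k] k) (hl : ∀ a b, lam (a * b) = lam (b * a))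
  (hlq : lam q ≠ 0)
  (hH : ∀ a, Cen (P.comap i) a → q * a = a → a * q = a → ¬ IsNilpotent a →
    ∃ (m : ℕ) (x y : Fin m → MonoidAlgebra k A), (∀ l, Cen (P.comap i) (x l)) ∧
      (∀ l, Cen (P.comap i) (y l)) ∧ q = ∑ l, x l * a * y l)
  (hnil : NilpotentPairs (P.comap i) b)

include hi hrn hidx hb hbc hF hc hFF hP2 hPr hq hqb hqP hl hlq hH hnil

theorem two_block (Q : Subgroup K) (hQ : Q ≤ P) (C : Subgroup K)
    (hCQ : C = Subgroup.centralizer (Q : Set K)) :
    ∃ (C0 : Subgroup A) (_ : C0 = Subgroup.centralizer ((Q.comap i : Subgroup A) : Set A))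
      (hC : ∀ h : A, h ∈ C0 ↔ i h ∈ C) (β : MonoidAlgebra k C0) (γ : MonoidAlgebra k C),
      IsBlock β ∧ res C0 q * β = res C0 q ∧ Phi hi C0 C hC k β * res C F = Phi hi C0 C hC k β ∧
      IsBlock γ ∧ OneSimple γ ∧ res C (mp k i q) * γ = res C (mp k i q) ∧
      Phi hi C0 C hC k β = γ * res C F ∧ (C ≤ i.range → γ = Phi hi C0 C hC k β) ∧
      res C F * res C (inv' F) = 0 := by
  obtain ⟨Q0, hQ0⟩ : ∃ Q0, Q0 = Q.comap i := ⟨_, rfl⟩
  obtain ⟨C0, hC0⟩ : ∃ C0, C0 = Subgroup.centralizer (Q0 : Set A) := ⟨_, rfl⟩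
  have hQ0P : Q0 ≤ P.comap i := by rw [hQ0]; exact Subgroup.comap_mono hQ
  have hP0 : IsPGroup 2 (P.comap i) := hP2.comap_of_injective i hi
  have hQ02 : IsPGroup 2 Q0 := hP0.to_le hQ0P
  have hQ2 : IsPGroup 2 Q := hP2.to_le hQ
  have hC : ∀ h : A, h ∈ C0 ↔ i h ∈ C := by
    intro h
    rw [hC0, hCQ, Subgroup.mem_centralizer_iff, Subgroup.mem_centralizer_iff]
    constructor
    · intro h3 u hu
      obtain ⟨v, rfl⟩ := hPr (hQ hu)
      rw [← map_mul, h3 v (by rw [hQ0]; exact hu), map_mul]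
    · intro h3 v hv
      rw [hQ0] at hv
      apply hi
      rw [map_mul, map_mul, h3 _ hv]
  obtain ⟨q0, hq0, hq0q, hlq0⟩ := exists_source' (P.comap i) b lam hl q hq hqb hqP hlq hP0
  have hne : res C0 q ≠ 0 :=
    Pool.Agent.Helper44.NO.resQ_ne_zero (P.comap i) hP0 q hqP lam hl hlq Q0 hQ0P C0 hC0
  obtain ⟨β, hβ, hqβ⟩ := exists_block _ hne
  have hqβ' : res C0 q * β = res C0 q := by
    rcases single_block (P.comap i) hP0 q hq hqP lam hl hlq hH Q0 hQ0P C0 hC0 β hβ.2.1
      hβ.2.2.1 with h | h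
    · exact absurd h hqβ
    · exact h
  have hone : OneSimple β := Pool.Agent.Helper44.NO.one_of hnil q0 hq0 Q0 hQ0P C0 hC0 β hβ
    (Pool.Agent.Helper44.NO.belowQ_of (P.comap i) q hP0 q0 hq0.2.1 hqP hq0q lam hl hlq0 Q0 hQ0P
      C0 hC0 β hqβ')
  -- the restriction of `b`
  have hQb : Cen Q0 b := fun u _ => hbc _
  have hQq : Cen Q0 q := fun u hu => hqP u (hQ0P hu)
  have hrb : res C0 b * res C0 b = res C0 b := by
    rw [← res_mul Q0 hQ02 C0 hC0 b b hQb hQb, hb]
  have hrc : ∀ a, a * res C0 b = res C0 b * a := by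
    intro a
    have ha : Cen Q0 (incl k C0 a) := by
      intro u hu
      induction a using MonoidAlgebra.induction_linear with
      | zero => rw [map_zero, mul_zero, zero_mul]
      | add x y hx hy => rw [map_add, mul_add, add_mul, hx, hy]
      | single c r =>
        have h5 : u * (c : A) = c * u := by
          have h6 : ∀ c0, c0 ∈ C0 → u * c0 = c0 * u := by
            intro c0 h7
            rw [hC0, Subgroup.mem_centralizer_iff] at h7
            exact h7 u hu
          exact h6 _ c.2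
        rw [incl_single]
        unfold el
        rw [MonoidAlgebra.single_mul_single, MonoidAlgebra.single_mul_single, h5, one_mul,
          mul_one]
    have h3 := res_mul Q0 hQ02 C0 hC0 (incl k C0 a) b ha hQb
    have h4 := res_mul Q0 hQ02 C0 hC0 b (incl k C0 a) hQb ha
    rw [Pool.Agent.Helper36.NB.res_incl] at h3 h4
    rw [← h3, ← h4, hbc]
  have hrq : res C0 q * res C0 b = res C0 q := by
    rw [← res_mul Q0 hQ02 C0 hC0 q b hQq hQb, hqb]
  have hβr : β * res C0 b = β := by
    rcases hβ.2.2.2 _ hrb hrc with h | h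
    · exfalso
      apply hne
      rw [← hqβ', ← hrq, mul_assoc, h, mul_zero]
    · rw [hrc]; exact h
  -- in `K`
  have hFm : ∀ a, mp k i a * F = F * mp k i a := fun a => by
    rw [hF, ← map_mul, hbc, map_mul]
  have hQr : ∀ u ∈ Q, u ∈ i.range := fun u hu => hPr (hQ hu)
  have hQF : Cen Q F := by
    intro u hu
    obtain ⟨v, rfl⟩ := hQr u hu
    rw [← mp_el]
    exact hFm _
  have hQF' : Cen Q (inv' F) := by
    intro u hu
    have h3 := congrArg inv' (hQF u⁻¹ (Q.inv_mem hu))
    rw [inv'_mul, inv'_mul, inv'_el, inv_inv] at h3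
    exact h3.symm
  have hF'F : inv' F * F = 0 := by
    rw [hF, ← mp_inv, ← map_mul, hbc, map_mul, mp_inv, ← hF, hFF]
  have hR : res C F * res C (inv' F) = 0 := by
    rw [← res_mul Q hQ2 C hCQ F _ hQF hQF', hFF]
    ext c
    rw [res_coeff]
    rfl
  have hR' : res C (inv' F) * res C F = 0 := by
    rw [← res_mul Q hQ2 C hCQ _ F hQF' hQF, hF'F]
    ext c
    rw [res_coeff]
    rfl
  have hrF : res C F = Phi hi C0 C hC k (res C0 b) := by rw [hF, res_mp hi C0 C hC]
  obtain ⟨B, hB⟩ : ∃ B, B = Phi hi C0 C hC k β := ⟨_, rfl⟩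
  have hBF : B * res C F = B := by rw [hB, hrF, ← map_mul, hβr]
  have hFB : res C F * B = B := by rw [hB, hrF, ← map_mul, ← hrc, hβr]
  have hcjF : ∀ z : C, (z : K) ∉ i.range → cj z (res C F) = res C (inv' F) := by
    intro z hz
    rw [← hc z hz]
    ext c
    rw [cj_coeff, res_coeff, res_coeff, cj_coeff]
    rfl
  have h1 : ∀ z : C, (z : K) ∉ i.range → B * cj z B = 0 := by
    intro z hz
    calc B * cj z B = (B * res C F) * (cj z (res C F) * cj z B) := by
          rw [← cj_mul, hFB, hBF]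
      _ = B * (res C F * res C (inv' F)) * cj z B := by rw [hcjF z hz]; noncomm_ring
      _ = 0 := by rw [hR, mul_zero, zero_mul]
  have h2 : ∀ z : C, (z : K) ∉ i.range → cj z B * B = 0 := by
    intro z hz
    calc cj z B * B = (cj z B * cj z (res C F)) * (res C F * B) := by
          rw [← cj_mul, hFB, hBF]
      _ = cj z B * (res C (inv' F) * res C F) * B := by rw [hcjF z hz]; noncomm_ring
      _ = 0 := by rw [hR', mul_zero, zero_mul]
  have hrq' : res C (mp k i q) = Phi hi C0 C hC k (res C0 q) := res_mp hi C0 C hC k q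
  have hqB : res C (mp k i q) * B = res C (mp k i q) := by
    rw [hrq', hB, ← map_mul, hqβ']
  rw [hB] at h1 h2
  obtain ⟨γ, hγ, hγ1, hγ2⟩ := exists_block_K hi hrn hidx C0 C hC β hβ hone h1 h2
  rw [← hB] at h1 h2 hγ2
  refine ⟨C0, by rw [hC0, hQ0], hC, β, γ, hβ, hqβ', ?_, hγ, hγ1, ?_, ?_, ?_, hR⟩
  · rw [← hB, hBF]
  · rcases hγ2 with ⟨-, h⟩ | ⟨z, hz, h⟩
    · rw [h, hqB]
    · have h3 : res C (mp k i q) * cj z B = 0 := by
        rw [← hqB, mul_assoc, h1 z hz, mul_zero]
      rw [h, mul_add, h3, hqB, add_zero]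
  · rw [← hB]
    rcases hγ2 with ⟨-, h⟩ | ⟨z, hz, h⟩
    · rw [h, hBF]
    · have h3 : cj z B * res C F = 0 := by
        calc cj z B * res C F = cj z B * cj z (res C F) * res C F := by rw [← cj_mul, hBF]
          _ = cj z B * (res C (inv' F) * res C F) := by rw [hcjF z hz, mul_assoc]
          _ = 0 := by rw [hR', mul_zero]
      rw [h, add_mul, h3, hBF, add_zero]
  · intro hle
    rw [← hB]
    rcases hγ2 with ⟨-, h⟩ | ⟨z, hz, -⟩
    · exact h
    · exact absurd (hle z.2) hz

theorem locK_two : LocK P (mp k i q) := by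
  have hP0 : IsPGroup 2 (P.comap i) := hP2.comap_of_injective i hi
  obtain ⟨q0, hq0, hq0q, hlq0⟩ := exists_source' (P.comap i) b lam hl q hq hqb hqP hlq hP0
  have hneC : ∀ Q : Subgroup K, Q ≤ P → ∀ C : Subgroup K,
      C = Subgroup.centralizer (Q : Set K) → res C (mp k i q) ≠ 0 := by
    intro Q hQ C hCQ h0
    obtain ⟨C0, hC0, hC, β, γ, hβ, hqβ, -⟩ := two_block hi hrn hidx b hb hbc F hF hc hFF P hP2 hPr
      q hq hqb hqP lam hl hlq hH hnil Q hQ C hCQ
    rw [res_mp hi C0 C hC] at h0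
    have h3 : res C0 q = 0 := Phi_injective hi C0 C hC k (by rw [h0, map_zero])
    exact Pool.Agent.Helper44.NO.resQ_ne_zero (P.comap i) hP0 q hqP lam hl hlq (Q.comap i)
      (Subgroup.comap_mono hQ) C0 hC0 h3
  have huniq : ∀ Q : Subgroup K, Q ≤ P → ∀ C : Subgroup K,
      C = Subgroup.centralizer (Q : Set K) → ∀ b1 b2 : MonoidAlgebra k C, IsBlock b1 →
      IsBlock b2 → res C (mp k i q) * b1 = res C (mp k i q) →
      res C (mp k i q) * b2 = res C (mp k i q) → b1 = b2 := by
    intro Q hQ C hCQ b1 b2 hb1 hb2 h1 h2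
    rcases blocks_mul hb1 hb2 with h | h
    · exact h
    · exfalso
      apply hneC Q hQ C hCQ
      rw [← h2, ← h1, mul_assoc, h, mul_zero]
  constructor
  · intro Q hQ C hCQ
    obtain ⟨C0, hC0, hC, β, γ, hβ, hqβ, hβF, hγ, hγ1, hqγ, -⟩ := two_block hi hrn hidx b hb hbc F
      hF hc hFF P hP2 hPr q hq hqb hqP lam hl hlq hH hnil Q hQ C hCQ
    exact ⟨γ, hγ, hqγ, simpleQuot_of_oneSimple γ hγ.1 hγ.2.1 hγ.2.2.1 hγ1⟩
  · intro Q Q' hQ hQ' C C' hCQ hCQ' b1 b1' hb1 hb1' hqb1 hqb1' g hg hgb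
    obtain ⟨C0, hC0, hC, β, γ, hβ, hqβ, hβF, hγ, hγ1, hqγ, hBγ, hCr, hR⟩ := two_block hi hrn hidx
      b hb hbc F hF hc hFF P hP2 hPr q hq hqb hqP lam hl hlq hH hnil Q hQ C hCQ
    obtain ⟨C0', hC0', hC', β', γ', hβ', hqβ', hβF', hγ', hγ1', hqγ', hBγ', hCr', hR'⟩ :=
      two_block hi hrn hidx b hb hbc F hF hc hFF P hP2 hPr q hq hqb hqP lam hl hlq hH hnil Q' hQ'
        C' hCQ'
    obtain rfl := huniq Q hQ C hCQ b1 γ hb1 hγ hqb1 hqγ
    obtain rfl := huniq Q' hQ' C' hCQ' b1' γ' hb1' hγ' hqb1' hqγ'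
    -- conjugation maps the centraliser to the centraliser
    have hcc : ∀ g : K, (∀ u, u ∈ Q ↔ g * u * g⁻¹ ∈ Q') → ∀ c, c ∈ C ↔ g * c * g⁻¹ ∈ C' := by
      intro g hg c
      rw [hCQ, hCQ', Subgroup.mem_centralizer_iff, Subgroup.mem_centralizer_iff]
      constructor
      · intro h u hu
        have h3 : g⁻¹ * u * g ∈ Q := by
          rw [hg]
          have h4 : g * (g⁻¹ * u * g) * g⁻¹ = u := by group
          rwa [h4]
        have h5 := h _ h3
        calc u * (g * c * g⁻¹) = g * ((g⁻¹ * u * g) * c) * g⁻¹ := by group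
          _ = g * (c * (g⁻¹ * u * g)) * g⁻¹ := by rw [h5]
          _ = g * c * g⁻¹ * u := by group
      · intro h u hu
        have h5 := h _ ((hg u).1 hu)
        calc u * c = g⁻¹ * (g * u * g⁻¹ * (g * c * g⁻¹)) * g := by group
          _ = g⁻¹ * (g * c * g⁻¹ * (g * u * g⁻¹)) * g := by rw [h5]
          _ = c * u := by group
    -- the case of an element of the range
    have case1 : ∀ g : K, g ∈ i.range → (∀ u, u ∈ Q ↔ g * u * g⁻¹ ∈ Q') →
        el k g * incl k C b1 * el k g⁻¹ = incl k C' b1' →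
        ∃ d ∈ P, ∀ u ∈ Q, d * u * d⁻¹ = g * u * g⁻¹ := by
      rintro g ⟨a, rfl⟩ hg hgb
      have hgb' : cj (i a) (incl k C b1) = incl k C' b1' := hgb
      have hcF : cj (i a) F = F := by
        rw [cj_eq_iff, hF, ← mp_el, ← map_mul, hbc, map_mul]
      have h3 : el k a * incl k C0 β * el k a⁻¹ = incl k C0' β' := by
        change cj a (incl k C0 β) = _
        apply mp_injective hi
        rw [mp_cj, ← incl_Phi hi C0 C hC, ← incl_Phi hi C0' C' hC', hBγ, hBγ', map_mul, cj_mul,
          hgb', cj_incl_res (i a) C C' (hcc _ hg), hcF, map_mul]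
      have hg0 : ∀ u, u ∈ Q.comap i ↔ a * u * a⁻¹ ∈ Q'.comap i := by
        intro u
        rw [Subgroup.mem_comap, Subgroup.mem_comap, hg, map_mul, map_mul, map_inv]
      obtain ⟨d, hd, hdu⟩ := Pool.Agent.Helper44.NO.fus_of hnil q0 hq0 (Q.comap i) (Q'.comap i)
        (Subgroup.comap_mono hQ) (Subgroup.comap_mono hQ') C0 C0' hC0 hC0' β β' hβ hβ'
        (Pool.Agent.Helper44.NO.belowQ_of (P.comap i) q hP0 q0 hq0.2.1 hqP hq0q lam hl hlq0 _
          (Subgroup.comap_mono hQ) C0 hC0 β hqβ)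
        (Pool.Agent.Helper44.NO.belowQ_of (P.comap i) q hP0 q0 hq0.2.1 hqP hq0q lam hl hlq0 _
          (Subgroup.comap_mono hQ') C0' hC0' β' hqβ') a hg0 h3
      refine ⟨i d, hd, ?_⟩
      intro u hu
      obtain ⟨v, rfl⟩ := hPr (hQ hu)
      have h4 := congrArg i (hdu v hu)
      rwa [map_mul, map_mul, map_inv, map_mul, map_mul, map_inv] at h4
    by_cases hgr : g ∈ i.range
    · exact case1 g hgr hg hgb
    · by_cases hC'r : C' ≤ i.range
      · -- impossible
        exfalso
        have hCle : C ≤ i.range := by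
          intro c hcC
          have h3 := hC'r ((hcc g hg c).1 hcC)
          have h4 := hrn.conj_mem _ h3 g⁻¹
          have h5 : g⁻¹ * (g * c * g⁻¹) * g⁻¹⁻¹ = c := by group
          rwa [h5] at h4
        have e1 := hCr hCle
        have e2 := hCr' hC'r
        have hgb' : cj g (incl k C b1) = incl k C' b1' := hgb
        have h6 : b1 * res C F = b1 := by rw [e1, hβF]
        have h7 : b1' * res C' F = b1' := by rw [e2, hβF']
        have h8 : incl k C' b1' = incl k C' b1' * incl k C' (res C' (inv' F)) := by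
          rw [← hgb']
          nth_rewrite 1 [← h6]
          rw [map_mul, cj_mul, cj_incl_res g C C' (hcc g hg), hc g hgr]
        have h9 : b1' = b1' * res C' (inv' F) := by
          apply Pool.Agent.Helper36.NB.incl_injective C'
          rw [map_mul]
          exact h8
        have hR2 : res C' (inv' F) * res C' F = 0 := by
          have hFm : inv' F * F = 0 := by
            rw [hF, ← mp_inv, ← map_mul, hbc, map_mul, mp_inv, ← hF, hFF]
          have hQF : Cen Q' F := by
            intro u hu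
            obtain ⟨v, rfl⟩ := hPr (hQ' hu)
            rw [← mp_el, hF, ← map_mul, hbc, map_mul]
          have hQF' : Cen Q' (inv' F) := by
            intro u hu
            have h3 := congrArg inv' (hQF u⁻¹ (Q'.inv_mem hu))
            rw [inv'_mul, inv'_mul, inv'_el, inv_inv] at h3
            exact h3.symm
          rw [← res_mul Q' (hP2.to_le hQ') C' hCQ' _ F hQF' hQF, hFm]
          ext c
          rw [res_coeff]
          rfl
        apply hb1'.1
        rw [← h7, h9, mul_assoc, hR2, mul_zero]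
      · obtain ⟨z, hzC, hzr⟩ := Set.not_subset.1 hC'r
        have hzr' : z ∉ i.range := hzr
        have hzC' : z ∈ C' := hzC
        have hzQ : ∀ u ∈ Q', z * u = u * z := by
          intro u hu
          rw [hCQ', Subgroup.mem_centralizer_iff] at hzC'
          exact (hzC' u hu).symm
        have hg' : ∀ u, u ∈ Q ↔ z * g * u * (z * g)⁻¹ ∈ Q' := by
          intro u
          have h3 : z * g * u * (z * g)⁻¹ = z * (g * u * g⁻¹) * z⁻¹ := by group
          rw [h3, hg]
          constructor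
          · intro h
            rw [hzQ _ h, mul_assoc, mul_inv_cancel, mul_one]
            exact h
          · intro h
            have h4 := hzQ _ h
            have h5 : g * u * g⁻¹ = z⁻¹ * (z * (g * u * g⁻¹) * z⁻¹ * z) := by group
            rw [h5, ← h4]
            have h6 : z⁻¹ * (z * (z * (g * u * g⁻¹) * z⁻¹)) = z * (g * u * g⁻¹) * z⁻¹ := by group
            rw [h6]
            exact h
        have hgb' : cj g (incl k C b1) = incl k C' b1' := hgb
        have h3 : el k (z * g) * incl k C b1 * el k (z * g)⁻¹ = incl k C' b1' := by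
          change cj (z * g) (incl k C b1) = _
          rw [← cj_cj, hgb', cj_eq_iff]
          have h4 := congrArg (incl k C') (hb1'.2.2.1 (el k ⟨z, hzC'⟩))
          rw [map_mul, map_mul, incl_el] at h4
          exact h4
        obtain ⟨d, hd, hdu⟩ := case1 (z * g) (hidx z g hzr' hgr) hg' h3
        refine ⟨d, hd, ?_⟩
        intro u hu
        rw [hdu u hu]
        have h4 : z * g * u * (z * g)⁻¹ = z * (g * u * g⁻¹) * z⁻¹ := by group
        rw [h4, hzQ _ ((hg u).1 hu), mul_assoc, mul_inv_cancel, mul_one]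

end two

end Pool.Agent.Helper36.NC
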