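import Pool.Agent.Helper36.NC.F
import Pool.Agent.Helper36.NO.P1

/-!
# The total identity from the level data
-/

set_option autoImplicit false
open scoped BigOperators MonoidAlgebra
open Classical

set_option linter.unusedSectionVars false

namespace Pool.Agent.Helper36.NC

open Pool.Agent.Helper36.NB Pool.Agent.Helper44.S3 Pool.Agent.Helper32.ND
open Pool.Agent.Helper32.NO Pool.Agent.Helper36.NO

variable {O : ValuationSubring ℂ} {G : Type} [Group G] [Fintype G]

theorem total_lev (h2 : (2 : O) ∈ IsLocalRing.maximalIdeal O) {D : Subgroup G} {t : G}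
    {e : MonoidAlgebra O G} {S : SimpleQuot (toK O G e)} {q : MonoidAlgebra (resK O) G}
    (hL : Lev O D t e S q) :
    ∑ g : G, ((e.coeff (g * g) : O) : ℂ) =
      S.n * (Nat.card {u : G // u ∈ D ∧ t * u * (t * u) = 1} : ℂ) := by
  obtain ⟨j, hj, hje, hj1⟩ := exists_rank_one O e hL.ee hL.ec S
  obtain ⟨hee, hec, her, hD2, tD, tt, tn, hcard, hqq, hqe, hqD, hqt, hlam, hloc⟩ := hL
  have hchar : CharP (resK O) 2 := resK_charP O h2
  -- lift to `O`
  obtain ⟨i, hiq, hi, hie, hσ⟩ := lift_sym O e hee hec q hqq hqe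
  have hconjbij : ∀ u : G, Function.Bijective (fun h : G => u * h * u⁻¹) := by
    intro u
    refine ⟨fun x y hxy => ?_, fun y => ⟨u⁻¹ * y * u, by simp [mul_assoc]⟩⟩
    simpa using hxy
  have hiD : Cen D i := by
    intro u hu
    rw [comm_iff_conj, conj_eq_mapDomain]
    apply hσ _ (hconjbij u)
    · left; intro x y; group
    · rw [← conj_eq_mapDomain, ← comm_iff_conj, hec]
    · rw [← conj_eq_mapDomain, ← comm_iff_conj]
      exact hqD u hu
  have hiψ : psi t i = i := by
    rw [psi_apply, psi_eq_mapDomain]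
    apply hσ
    · refine ⟨fun x y hxy => ?_, fun y => ⟨(t⁻¹ * y * t)⁻¹, by simp [mul_assoc]⟩⟩
      simpa using hxy
    · right; intro x y; group
    · rw [← psi_eq_mapDomain, her, hec, mul_assoc, el_mul_el_inv, mul_one]
    · rw [← psi_eq_mapDomain, ← psi_apply]
      exact hqt
  subst hiq
  have hLe : ∀ u : D, Nonempty (Loc O i (u : G)) := by
    intro u
    obtain ⟨b, hb, hib, ⟨Sb⟩⟩ := hloc.one (Subgroup.zpowers (u : G))
      ((Subgroup.zpowers_le).mpr u.2) (cent (u : G)) (cent_eq (u : G))
    exact exists_loc' O i u b hb hib Sb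
  let Lf : ∀ u : D, Loc O i (u : G) := fun u => (hLe u).some
  obtain ⟨I⟩ := exists_irrData G
  obtain ⟨X, hXd, hXκ, hXm, hXfs⟩ := exists_cd_fs h2 e hee hec her hD2 S t tD tt j hj hje hj1 i hi
    hie hiD hiψ hlam Lf (by
      intro u v g hg hgb
      obtain ⟨c, hc, hcu⟩ := hloc.fus (Subgroup.zpowers (u : G)) (Subgroup.zpowers (v : G))
        ((Subgroup.zpowers_le).mpr u.2) ((Subgroup.zpowers_le).mpr v.2) _ _ (cent_eq (u : G))
        (cent_eq (v : G)) _ _ (Lf u).blk (Lf v).blk (Lf u).hib (Lf v).hib g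
        (zpow_conj g u v hg) hgb
      exact ⟨c, hc, by rw [hcu _ (Subgroup.mem_zpowers _), hg]⟩) I
    (sum_sq_of_card h2 e hee hec S _ hcard j hj hje hj1 I)
  have hτ2 : ∀ u : D, tauL t tD (tauL t tD u) = (⟨t * t, tt⟩ : D)⁻¹ * u * ⟨t * t, tt⟩ := by
    intro u
    apply Subtype.ext
    change t⁻¹ * (t⁻¹ * u * t) * t = (t * t)⁻¹ * u * (t * t)
    group
  have hτz : tauL t tD ⟨t * t, tt⟩ = ⟨t * t, tt⟩ := by
    apply Subtype.ext
    change t⁻¹ * (t * t) * t = t * t
    group
  obtain ⟨J⟩ := exists_irrData D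
  obtain ⟨Γ, hinj, hsurj, hΓd, hΓfs⟩ := count_final hD2 (tauL t tD) ⟨t * t, tt⟩ hτ2 hτz X J O h2
  rw [← sum_coeff_pim O e hee hec S j (prim_of_rank_one O S hj hje hj1) hje]
  congr 1
  calc (∑ g, pim O j (g * g)) / (Nat.card G : ℂ)
      = (∑ g, ∑ a, I.ch a (g * g) * X.d a) / (Nat.card G : ℂ) := by
        congr 1
        apply Finset.sum_congr rfl
        intro g _
        rw [pim_eq j I]
        apply Finset.sum_congr rfl
        intro a _
        rw [hXd]
    _ = ∑ a, (X.d a : ℂ) * X.fs a := by
        rw [Finset.sum_comm, Finset.sum_div]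
        apply Finset.sum_congr rfl
        intro a _
        rw [← hXfs, ← Finset.sum_mul]; ring
    _ = ∑ b, (X.d (Γ b) : ℂ) * X.fs (Γ b) := by
        symm
        rw [← Finset.sum_image (f := fun a => (X.d a : ℂ) * X.fs a)
          (fun x _ y _ h => hinj h)]
        apply Finset.sum_subset (Finset.subset_univ _)
        intro a _ ha
        have : X.d a = 0 := by
          by_contra hne
          obtain ⟨b, hb⟩ := hsurj a hne
          apply ha
          rw [Finset.mem_image]
          exact ⟨b, Finset.mem_univ _, hb⟩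
        rw [this]; simp
    _ = ∑ b, (J.d b : ℂ) * ((∑ u : D, J.ch b
          (⟨t * t, tt⟩ * tauL t tD u * u)) / (Nat.card D : ℂ)) := by
        apply Finset.sum_congr rfl
        intro b _
        rw [hΓd, hΓfs]
    _ = (∑ u : D, ∑ b, (J.d b : ℂ) * J.ch b
          (⟨t * t, tt⟩ * tauL t tD u * u)) / (Nat.card D : ℂ) := by
        rw [Finset.sum_comm, Finset.sum_div]
        apply Finset.sum_congr rfl
        intro b _
        rw [← Finset.mul_sum, mul_div_assoc]
    _ = ∑ u : D, if ((⟨t * t, tt⟩ * tauL t tD u * u : D) = 1)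
          then (1 : ℂ) else 0 := by
        rw [Finset.sum_div]
        apply Finset.sum_congr rfl
        intro u _
        rw [sum_d_ch]
        have hc0 : (Nat.card D : ℂ) ≠ 0 := by exact_mod_cast Nat.card_pos.ne'
        split_ifs with h
        · exact div_self hc0
        · simp
    _ = ∑ u : D, (if t * (u : G) * (t * (u : G)) = 1 then (1 : ℂ) else 0) := by
        apply Finset.sum_congr rfl
        intro u _
        have h1 : t * (u : G) * (t * (u : G)) =
            ((⟨t * t, tt⟩ * tauL t tD u * u : D) : G) := by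
          change t * (u : G) * (t * (u : G)) = t * t * (t⁻¹ * u * t) * u
          group
        rw [h1]
        congr 1
        rw [← Subgroup.coe_one D, Subtype.coe_inj]
    _ = (Nat.card {u : G // u ∈ D ∧ t * u * (t * u) = 1} : ℂ) := by
        rw [Finset.sum_ite, Finset.sum_const_zero, add_zero, Finset.sum_const, nsmul_eq_mul,
          mul_one]
        norm_cast
        rw [← Fintype.card_subtype, ← Nat.card_eq_fintype_card]
        refine Nat.card_congr
          { toFun := fun c => ⟨((c : D) : G), (c : D).2, c.2⟩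
            invFun := fun c => ⟨⟨c.1, c.2.1⟩, c.2.2⟩
            left_inv := fun c => rfl
            right_inv := fun c => rfl }

end Pool.Agent.Helper36.NC
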