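import Pool.Agent.Helper36.NC.N2
import Pool.Agent.Helper36.NC.N3

/-!
# The level data of the extension of degree two of a nilpotent block
-/

set_option autoImplicit false
open scoped BigOperators MonoidAlgebra
open Classical

namespace Pool.Agent.Helper36.NC

open Pool.Agent.Helper36.NB Pool.Agent.Helper44.S3 Pool.Agent.Helper32.ND
open Pool.Agent.Helper32.NO

/-- `P` is a defect group of the block `b`: a maximal `2`-subgroup with nonzero image of `b`
under the Brauer homomorphism. -/
def IsDefGroup (O : ValuationSubring ℂ) {A : Type} [Group A] (b : MonoidAlgebra O A)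
    (P : Subgroup A) : Prop :=
  IsPGroup 2 P ∧ res (Subgroup.centralizer (P : Set A)) (toK O A b) ≠ 0 ∧
    ∀ P1 : Subgroup A, P ≤ P1 → IsPGroup 2 P1 →
      res (Subgroup.centralizer (P1 : Set A)) (toK O A b) ≠ 0 → P1 = P

theorem toK_mp (O : ValuationSubring ℂ) {A K : Type} [Group A] [Group K] (i : A →* K)
    (a : MonoidAlgebra O A) : toK O K (mp O i a) = mp (resK O) i (toK O A a) := by
  induction a using MonoidAlgebra.induction_linear with
  | zero => simp
  | add x y hx hy => rw [map_add, map_add, map_add, map_add, hx, hy]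
  | single h r =>
    have h1 : (MonoidAlgebra.single h r : MonoidAlgebra O A) = r • el O h := by
      rw [el, MonoidAlgebra.smul_single, smul_eq_mul, mul_one]
    have h3 : ∀ {B : Type} [Group B] (g : B), toK O B (MonoidAlgebra.single g r) =
        MonoidAlgebra.single g (IsLocalRing.residue O r) := by
      intro B _ g
      simp [toK]
    rw [mp_single, h3, h3, mp_single]

/-- The order of a `2`-subgroup centralising an element with unit coefficient. -/
theorem def_bound (O : ValuationSubring ℂ) (h2 : (2 : O) ∈ IsLocalRing.maximalIdeal O) {A : Type}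
    [Group A] [Fintype A] (b : MonoidAlgebra O A) (hb : b * b = b) (hbc : ∀ a, a * b = b * a)
    (Sb : SimpleQuot (toK O A b)) (c : A) (hc : IsLocalRing.residue O (b.coeff c) ≠ 0)
    (P1 : Subgroup A) (hcom : ∀ p ∈ P1, p * c = c * p) :
    Sb.n.factorization 2 + (Nat.card P1).factorization 2 ≤ (Nat.card A).factorization 2 := by
  obtain ⟨I⟩ := exists_irrData A
  obtain ⟨j, hj, hjb, hj1⟩ := exists_rank_one O b hb hbc Sb
  have hce : ∀ a, I.chi a (toC O A b) = (Sb.n : ℂ) * I.chi a (toC O A j) := by
    intro a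
    have h := trace_rank O b hb hbc Sb j hj hjb hj1 b hb hb (TraceFun.ofChi O I a)
    simp only [TraceFun.ofChi_apply] at h
    rw [h, Sb.one, Matrix.rank_one, Fintype.card_fin]
  have hPhi : ∀ x : MonoidAlgebra O A, ∑ a, I.chi a (toC O A x) * I.chi a (el ℂ c⁻¹) =
      ((∑ h : A, x.coeff (h * c * h⁻¹) : O) : ℂ) := by
    intro x
    rw [sum_chi_mul]
    push_cast
    refine Finset.sum_congr rfl fun h _ => ?_
    rw [mul_assoc, ← el_mul, el, MonoidAlgebra.coeff_mul_single_apply, mul_one, toC_apply]
    congr 2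
    group
  have hbcl : ∀ h : A, b.coeff (h * c * h⁻¹) = b.coeff c := by
    intro h
    have h3 := cj_of_central hbc h⁻¹
    have h4 := congrArg (fun y => y.coeff c) h3
    simp only [cj_coeff] at h4
    rw [inv_inv] at h4
    exact h4
  obtain ⟨w, hw⟩ : ∃ w : O, ∑ h : A, j.coeff (h * c * h⁻¹) = (Nat.card P1 : O) * w := by
    have := Fintype.ofFinite (A ⧸ P1)
    refine ⟨∑ x : A ⧸ P1, j.coeff (x.out * c * x.out⁻¹), ?_⟩
    rw [← Fintype.sum_equiv (Subgroup.groupEquivQuotientProdSubgroup (s := P1)).symm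
      (fun y : (A ⧸ P1) × P1 => j.coeff (y.1.out * c * y.1.out⁻¹))
      (fun h : A => j.coeff (h * c * h⁻¹)) ?_]
    · rw [Fintype.sum_prod_type, Finset.mul_sum]
      refine Finset.sum_congr rfl fun x _ => ?_
      change ∑ _y : P1, j.coeff (x.out * c * x.out⁻¹) = _
      rw [Finset.sum_const, Finset.card_univ, nsmul_eq_mul, Nat.card_eq_fintype_card]
    · intro y
      obtain ⟨h, rfl⟩ := (Subgroup.groupEquivQuotientProdSubgroup (s := P1)).surjective y
      rw [Equiv.symm_apply_apply]
      have h5 : ((Subgroup.groupEquivQuotientProdSubgroup (s := P1)) h).1 = (h : A ⧸ P1) := rfl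
      rw [h5]
      obtain ⟨p, hp⟩ := QuotientGroup.mk_out_eq_mul P1 h
      rw [hp]
      congr 1
      calc h * (p : A) * c * (h * p)⁻¹ = h * (p * c) * (p : A)⁻¹ * h⁻¹ := by group
        _ = h * (c * p) * (p : A)⁻¹ * h⁻¹ := by rw [hcom p p.2]
        _ = h * c * h⁻¹ := by group
  have hmain : ((Nat.card A : O) * b.coeff c : O) = (Sb.n : O) * ((Nat.card P1 : O) * w) := by
    have h3 := hPhi b
    have h4 := hPhi j
    rw [hw] at h4
    have h5 : ∑ a, I.chi a (toC O A b) * I.chi a (el ℂ c⁻¹) =
        (Sb.n : ℂ) * ∑ a, I.chi a (toC O A j) * I.chi a (el ℂ c⁻¹) := by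
      rw [Finset.mul_sum]
      refine Finset.sum_congr rfl fun a _ => ?_
      rw [hce]; ring
    rw [h3, h4, Finset.sum_congr rfl fun h _ => hbcl h, Finset.sum_const, Finset.card_univ,
      nsmul_eq_mul, ← Nat.card_eq_fintype_card] at h5
    exact_mod_cast h5
  have hn0 : Sb.n ≠ 0 := Sb.pos.ne'
  have hP0 : Nat.card P1 ≠ 0 := Nat.card_pos.ne'
  have hA0 : Nat.card A ≠ 0 := Nat.card_pos.ne'
  have hm0 : Sb.n * Nat.card P1 ≠ 0 := mul_ne_zero hn0 hP0
  obtain ⟨uA, huA, hA⟩ := F2aux.nat_two h2 hA0
  obtain ⟨um, hum, hm⟩ := F2aux.nat_two h2 hm0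
  have hf : (Sb.n * Nat.card P1).factorization 2 =
      Sb.n.factorization 2 + (Nat.card P1).factorization 2 := by
    rw [Nat.factorization_mul hn0 hP0]
    rfl
  rw [← hf]
  by_contra hcon
  push Not at hcon
  obtain ⟨r, hr⟩ := Nat.exists_eq_add_of_lt hcon
  have h20 : (2 : O) ≠ 0 := two_ne_zero
  have h6 : (2 : O) ^ (Nat.card A).factorization 2 * (uA * b.coeff c) =
      2 ^ (Nat.card A).factorization 2 * (2 * (2 ^ r * um * w)) := by
    calc (2 : O) ^ (Nat.card A).factorization 2 * (uA * b.coeff c)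
        = (Nat.card A : O) * b.coeff c := by rw [hA]; ring
      _ = ((Sb.n * Nat.card P1 : ℕ) : O) * w := by rw [hmain]; push_cast; ring
      _ = _ := by rw [hm, hr]; ring
  have h7 := mul_left_cancel₀ (pow_ne_zero _ h20) h6
  have hbu : IsUnit (b.coeff c) := by
    by_contra h
    apply hc
    rw [IsLocalRing.residue_eq_zero_iff]
    exact (IsLocalRing.mem_maximalIdeal _).2 h
  have h8 : uA * b.coeff c ∈ IsLocalRing.maximalIdeal O := by
    rw [h7]
    exact Ideal.mul_mem_right _ _ h2
  exact (IsLocalRing.mem_maximalIdeal _).1 h8 (huA.mul hbu)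

theorem exists_lev_two (O : ValuationSubring ℂ) (h2 : (2 : O) ∈ IsLocalRing.maximalIdeal O)
    {A K : Type} [Group A] [Fintype A] [Group K] [Fintype K] {i : A →* K}
    (hi : Function.Injective i) (hrn : i.range.Normal)
    (hidx : ∀ g h : K, g ∉ i.range → h ∉ i.range → g * h ∈ i.range)
    (b : MonoidAlgebra O A) (hb : IsBlock b) (Sb : SimpleQuot (toK O A b))
    (F : MonoidAlgebra O K) (hF : F = mp O i b) (hc : ∀ g, g ∉ i.range → cj g F = inv' F)
    (hFF : F * inv' F = 0)
    (hnil : ∀ P0 : Subgroup A, IsDefGroup O b P0 → NilpotentPairs P0 (toK O A b))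
    (S : SimpleQuot (toK O K (F + inv' F))) {w : K} {P Q : Subgroup K}
    (hw : IsDefectClass O (F + inv' F) w) (hPQ : IsDefectPair w P Q) (t : K) (ht : t ∈ Q)
    (ht' : t ∉ P)
    (hval : Sb.n.factorization 2 + (Nat.card P).factorization 2 =
      (Nat.card A).factorization 2) :
    ∃ q, Lev O P t (F + inv' F) S q := by
  have hchar : CharP (resK O) 2 := resK_charP O h2
  have halg : IsAlgClosed (resK O) := resK_isAlgClosed O
  obtain ⟨hb0, hbb, hbc, -⟩ := id hb
  have hFi : F * F = F := by rw [hF, ← map_mul, hbb]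
  have hFm : ∀ a, mp O i a * F = F * mp O i a := fun a => by
    rw [hF, ← map_mul, hbc, map_mul]
  have hcr : ∀ g ∈ i.range, cj g F = F := by
    rintro _ ⟨a, rfl⟩
    rw [cj_eq_iff, ← mp_el]
    exact hFm _
  have hF'F : inv' F * F = 0 := by
    rw [hF, ← mp_inv, ← map_mul, hbc, map_mul, mp_inv, ← hF, hFF]
  have hFi' : inv' F * inv' F = inv' F := by rw [← inv'_mul, hFi]
  -- the sum
  have her : inv' (F + inv' F) = F + inv' F := by rw [inv'_add, inv'_inv', add_comm]
  have hee : (F + inv' F) * (F + inv' F) = F + inv' F := by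
    rw [add_mul, mul_add, mul_add, hFi, hFi', hFF, hF'F, add_zero, zero_add]
  have hec : ∀ a, a * (F + inv' F) = (F + inv' F) * a := by
    apply central_of_cj
    intro g
    by_cases hg : g ∈ i.range
    · rw [cj_add, hcr g hg, ← cj_inv', hcr g hg]
    · rw [cj_add, hc g hg, ← cj_inv', hc g hg, inv'_inv', add_comm]
  -- the element `w`
  have hww : IsLocalRing.residue O (F.coeff w) ≠ IsLocalRing.residue O (F.coeff w⁻¹) := by
    intro h
    apply hw.2.1
    rw [MonoidAlgebra.coeff_add, Finsupp.add_apply, inv'_coeff, map_add, h, ← two_mul]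
    have h3 : (2 : resK O) = 0 := by
      have := CharP.cast_eq_zero (resK O) 2
      exact_mod_cast this
    rw [h3, zero_mul]
  have hPr : P ≤ i.range := by
    intro d hd
    by_contra hcon
    apply hww
    have h3 := congrArg (fun y => y.coeff w) (hc d hcon)
    simp only [cj_coeff, inv'_coeff] at h3
    have h4 : d⁻¹ * w * d = w := by
      have h5 := hPQ.2.1 hd
      rw [Subgroup.mem_centralizer_singleton_iff] at h5
      rw [mul_assoc, ← h5]
      group
    rw [h4] at h3
    rw [h3]
  have htx := defectPair_t hPQ ht ht'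
  have htr : t ∉ i.range := by
    intro h
    apply hww
    have h3 := congrArg (fun y => y.coeff w⁻¹) (hcr t h)
    simp only [cj_coeff] at h3
    have h4 : t⁻¹ * w⁻¹ * t = w := by
      rw [← htx]; group
    rw [h4] at h3
    rw [h3]
  have hP2 : IsPGroup 2 P := IsPGroup.of_card hPQ.2.2.2.1
  -- the defect group
  have hdef : IsDefGroup O b (P.comap i) := by
    refine ⟨hP2.comap_of_injective i hi, ?_, ?_⟩
    · have hex : ∃ v : K, (∀ u ∈ P, u * v = v * u) ∧ IsLocalRing.residue O (F.coeff v) ≠ 0 := by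
        have hcw : ∀ u ∈ P, u * w = w * u := by
          intro u hu
          have h5 := hPQ.2.1 hu
          rw [Subgroup.mem_centralizer_singleton_iff] at h5
          exact h5
        by_cases h : IsLocalRing.residue O (F.coeff w) = 0
        · refine ⟨w⁻¹, ?_, ?_⟩
          · intro u hu
            have h3 : Commute u w := hcw u hu
            exact h3.inv_right
          · rw [h] at hww
            exact hww.symm
        · exact ⟨w, hcw, h⟩
      obtain ⟨v, hv, hFv⟩ := hex
      have hvr : v ∈ i.range := by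
        by_contra hcon
        apply hFv
        rw [hF, mp_supp i b v hcon, map_zero]
      obtain ⟨v0, rfl⟩ := hvr
      intro h0
      apply hFv
      have hv0 : v0 ∈ Subgroup.centralizer ((P.comap i : Subgroup A) : Set A) := by
        rw [Subgroup.mem_centralizer_iff]
        intro u hu
        apply hi
        rw [map_mul, map_mul]
        exact hv _ hu
      have h3 := congrArg (fun y => y.coeff (⟨v0, hv0⟩ : Subgroup.centralizer _)) h0
      simp only [Pool.Agent.Helper36.NB.res_coeff, toK_apply] at h3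
      rw [hF, mp_coeff hi]
      exact h3
    · intro P1 hP01 hP1 hne
      have hex : ∃ c : Subgroup.centralizer (P1 : Set A),
          IsLocalRing.residue O (b.coeff (c : A)) ≠ 0 := by
        by_contra hcon
        push Not at hcon
        apply hne
        ext c
        rw [Pool.Agent.Helper36.NB.res_coeff, toK_apply, hcon]
        rfl
      obtain ⟨c, hc'⟩ := hex
      have hbd := def_bound O h2 b hbb hbc Sb c hc' P1 (by
        intro p hp
        have := c.2
        rw [Subgroup.mem_centralizer_iff] at this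
        exact this p hp)
      have hcardP : Nat.card (P.comap i) = Nat.card P := by
        refine Nat.card_congr (Equiv.ofBijective (fun u => ⟨i u, u.2⟩) ⟨?_, ?_⟩)
        · intro u v huv
          exact Subtype.ext (hi (congrArg Subtype.val huv))
        · rintro ⟨v, hv⟩
          obtain ⟨u, rfl⟩ := hPr hv
          exact ⟨⟨u, hv⟩, rfl⟩
      obtain ⟨m, hm⟩ := IsPGroup.iff_card.mp hP1
      obtain ⟨n, hn⟩ := IsPGroup.iff_card.mp hP2
      have hv1 : (Nat.card P1).factorization 2 = m := by
        rw [hm, Nat.prime_two.factorization_pow]; simp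
      have hv2 : (Nat.card P).factorization 2 = n := by
        rw [hn, Nat.prime_two.factorization_pow]; simp
      symm
      apply Subgroup.eq_of_le_of_card_ge hP01
      rw [hcardP, hm, hn]
      apply Nat.pow_le_pow_right (by norm_num)
      omega
  have hnilP := hnil _ hdef
  -- the trace at `w`
  have hwr : IsConj w w⁻¹ := isConj_iff.mpr ⟨t, htx⟩
  obtain ⟨I⟩ := exists_irrData K
  obtain ⟨j, hj, hje, hj1⟩ := exists_rank_one O _ hee hec S
  obtain ⟨-, htrw, -⟩ := defect_data O h2 I _ hee hec S j hj hje hj1 w hw.1 hwr hw.2.1 hw.2.2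
    P hPQ.2.2.2.1
  -- over `k`
  obtain ⟨Fk, hFk⟩ : ∃ Fk, Fk = toK O K F := ⟨_, rfl⟩
  have hFk' : Fk = mp (resK O) i (toK O A b) := by rw [hFk, hF, toK_mp]
  have hek : toK O K (F + inv' F) = Fk + inv' Fk := by rw [map_add, toK_inv', hFk]
  have hbk : toK O A b * toK O A b = toK O A b := by rw [← map_mul, hbb]
  have hbck : ∀ a, a * toK O A b = toK O A b * a := by
    intro a
    obtain ⟨a', rfl⟩ := toK_surjective O a
    rw [← map_mul, hbc, map_mul]
  have hck : ∀ g, g ∉ i.range → cj g Fk = inv' Fk := by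
    intro g hg
    rw [hFk, ← toK_cj, hc g hg, toK_inv']
  have hFFk : Fk * inv' Fk = 0 := by rw [hFk, ← toK_inv', ← map_mul, hFF, map_zero]
  obtain ⟨Sk, hSk⟩ : ∃ Sk : SimpleQuot (Fk + inv' Fk), ∀ a, Sk.lam a = S.lam a := by
    refine ⟨⟨S.n, S.ρ, S.pos, S.surj, by rw [← hek]; exact S.one, by rw [← hek]; exact S.nil⟩,
      fun a => rfl⟩
  obtain ⟨q, hq, hqb, hqP, hqt, hqlam, hqH⟩ := exists_q hi hrn hidx (toK O A b) hbk hbck Fk hFk'
    hck Sk P t w htr (fun u hu => conj_mem hPQ ht hu) (tt_mem hPQ ht ht') hw.1 htx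
    (fun u hu => by
      have h5 := hPQ.2.1 hu
      rw [Subgroup.mem_centralizer_singleton_iff] at h5
      exact h5) (by rw [hSk]; exact htrw)
  let lam : MonoidAlgebra (resK O) A →ₗ[resK O] resK O :=
    { toFun := fun a => Sk.lam (mp (resK O) i a)
      map_add' := fun a b => by rw [map_add, map_add]
      map_smul' := fun c a => by rw [mp_smul, map_smul]; rfl }
  have hloc := locK_two hi hrn hidx (toK O A b) hbk hbck Fk hFk' hck hFFk P hP2 hPr q hq hqb hqP
    lam (fun a b => by
      change Sk.lam (mp (resK O) i (a * b)) = Sk.lam (mp (resK O) i (b * a))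
      rw [map_mul (mp (resK O) i) a b, map_mul (mp (resK O) i) b a]
      exact Sk.lam_comm _ _) hqlam hqH hnilP
  have hqF : mp (resK O) i q * Fk = mp (resK O) i q := by rw [hFk', ← map_mul, hqb]
  refine ⟨mp (resK O) i q,
    { ee := hee
      ec := hec
      er := her
      hD := hP2
      tD := fun u hu => conj_mem hPQ ht hu
      tt := tt_mem hPQ ht ht'
      tn := ht'
      card := rank_e O h2 _ hee hec S w hw hwr P hPQ.2.2.2.1
      qq := by rw [← map_mul, hq]
      qe := ?_
      qD := ?_
      qt := hqt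
      lam := by rw [← hSk]; exact hqlam
      loc := hloc }⟩
  · rw [hek, mul_add, hqF]
    nth_rewrite 2 [← hqF]
    rw [mul_assoc, hFFk, mul_zero, add_zero]
  · intro u hu
    obtain ⟨v, rfl⟩ := hPr hu
    rw [← mp_el, ← map_mul, hqP v hu, map_mul]

end Pool.Agent.Helper36.NC
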