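import Pool.Agent.Helper36.NC.L
import Pool.Agent.Helper36.NC.M
import Pool.Agent.Helper36.NC.N4

/-!
# The relative theorem from the identity for the extensions of degree two
-/

set_option autoImplicit false
open scoped BigOperators MonoidAlgebra
open Classical

set_option linter.unusedSectionVars false

namespace Pool.Agent.Helper36.NC

open Pool.Agent.Helper36.NB Pool.Agent.Helper44.S3

/-- The identity for the extensions of `H` of degree two. -/
def IdExt (O : ValuationSubring ℂ) {G : Type} [Group G] [Fintype G] {H : Subgroup G}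
    (b : MonoidAlgebra O H) : Prop :=
  ∀ K : Subgroup G, H ≤ K → H.relIndex K = 2 →
    (∀ k ∈ K, k ∉ H → cj k (incl O H b) = inv' (incl O H b)) →
      ∃ SK : SimpleQuot (toK O K (res K (incl O H b + inv' (incl O H b)))),
        ∀ (w : K) (P Q : Subgroup K),
          IsDefectClass O (res K (incl O H b + inv' (incl O H b))) w → IsDefectPair w P Q →
          P ≠ Q →
            ∑ g : K, (((res K (incl O H b + inv' (incl O H b))).coeff (g * g) : O) : ℂ) =
              SK.n * (Nat.card {y : K // y ∈ Q ∧ y ∉ P ∧ y * y = 1} : ℂ)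

section two

variable (O : ValuationSubring ℂ) (h2 : (2 : O) ∈ IsLocalRing.maximalIdeal O)
  {K : Type} [Group K] [Fintype K] {H : Subgroup K} (hH : H.index = 2)
  (b : MonoidAlgebra O H) (hb : IsBlock b) (Sb : SimpleQuot (toK O H b))
  (hFF : incl O H b * inv' (incl O H b) = 0)
  (hc : ∀ g, g ∉ H → cj g (incl O H b) = inv' (incl O H b))

include h2 hH hb Sb hFF hc

/-- The sum over the coset of `H`. -/
theorem two_sum' (SK : SimpleQuot (toK O K (incl O H b + inv' (incl O H b))))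
    (N : ℂ) (hid : ∑ g : K, (((incl O H b + inv' (incl O H b)).coeff (g * g) : O) : ℂ) =
      SK.n * N) :
    ∑ g ∈ Finset.univ.filter (fun g : K => g ∉ H), (((incl O H b).coeff (g * g) : O) : ℂ) =
      Sb.n * N := by
  have hHn : H.Normal := Subgroup.normal_of_index_eq_two hH
  have hex : ∃ g, g ∉ H := by
    by_contra hcon
    push Not at hcon
    have h3 : H = ⊤ := by
      rw [eq_top_iff]
      intro g _
      exact hcon g
    rw [h3, Subgroup.index_top] at hH
    omega
  have hbl := isBlock_two b hb hFF hc hex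
  obtain ⟨-, he, hec, -⟩ := id hbl
  have her : inv' (incl O H b + inv' (incl O H b)) = incl O H b + inv' (incl O H b) := by
    rw [inv'_add, inv'_inv', add_comm]
  obtain ⟨hb0, hbb, hbc, hbp⟩ := id hb
  have hn := two_n O h2 hH b hb Sb hFF hc SK
  have hsum := hid
  rw [hn] at hsum
  set F := incl O H b with hF
  have hFi : F * F = F := by rw [hF, ← map_mul, hbb]
  have hFs : ∀ g, g ∉ H → F.coeff g = 0 := fun g hg => incl_supp H b hg
  have hcH : ∀ g ∈ H, cj g F = F := by
    intro g hg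
    rw [cj_eq_iff, hF]
    have h1 := congrArg (incl O H) (hbc (el O ⟨g, hg⟩))
    rw [map_mul, map_mul, incl_el] at h1
    exact h1
  obtain ⟨z, hz⟩ := hex
  have hFF' : inv' F * F = 0 := by
    have h1 := cj_mul z F (inv' F)
    rw [hFF, ← cj_inv', hc z hz, inv'_inv'] at h1
    rw [← h1]
    unfold cj
    rw [mul_zero, zero_mul]
  have hin : ∑ k ∈ Finset.univ.filter (fun k : K => k ∈ H), F.coeff (k * k) = 0 := by
    apply sum_sq_zero H hFi hFs
    · intro x hx k
      simp only [Finset.mem_filter, Finset.mem_univ, true_and]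
      exact Subgroup.mul_mem_cancel_left H hx
    · intro k hk
      simp only [Finset.mem_filter, Finset.mem_univ, true_and] at hk
      rw [hcH _ (H.inv_mem hk), hFF']
  have h3 : ∑ g : K, ((inv' F).coeff (g * g)) = ∑ g : K, F.coeff (g * g) := by
    exact sum_inv F Finset.univ (fun k => by simp)
  have h4 : ∑ g : K, ((F + inv' F).coeff (g * g)) =
      2 * ∑ g ∈ Finset.univ.filter (fun g : K => g ∉ H), F.coeff (g * g) := by
    have h5 : ∑ g : K, F.coeff (g * g) =
        ∑ g ∈ Finset.univ.filter (fun g : K => g ∉ H), F.coeff (g * g) := by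
      rw [← Finset.sum_filter_add_sum_filter_not Finset.univ (fun g : K => g ∈ H), hin, zero_add]
    have h6 : ∀ g : K, (F + inv' F).coeff (g * g) = F.coeff (g * g) + (inv' F).coeff (g * g) := by
      intro g
      rw [MonoidAlgebra.coeff_add, Finsupp.add_apply]
    rw [Finset.sum_congr rfl (fun g _ => h6 g), Finset.sum_add_distrib, h3, h5]
    ring
  have h5 := congrArg (fun z : O => (z : ℂ)) h4
  push_cast at h5
  rw [h5] at hsum
  have h20 : ((2 : O) : ℂ) = 2 := rfl
  rw [h20] at hsum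
  push_cast at hsum
  have h6 : (2 : ℂ) * ∑ g ∈ Finset.univ.filter (fun g : K => g ∉ H), ((F.coeff (g * g) : O) : ℂ) =
      2 * (Sb.n * N) := by
    rw [hsum]
    ring
  exact mul_left_cancel₀ two_ne_zero h6

end two

section dat

variable (O : ValuationSubring ℂ) (h2 : (2 : O) ∈ IsLocalRing.maximalIdeal O)
  {G : Type} [Group G] [Fintype G] {H : Subgroup G} (hH : H.Normal)
  (b : MonoidAlgebra O H) (hb : IsBlock b) (Sb : SimpleQuot (toK O H b))
  (hFF : incl O H b * inv' (incl O H b) = 0)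

include h2 hH hb Sb hFF

private theorem dat_z' (hNK : IdExt O b) (z : G) (hz : cj z (incl O H b) = inv' (incl O H b))
    (hzz : z * z ∈ H) :
    ∃ q : ℕ, (∃ s, q = 2 ^ s) ∧
      (Nat.card H : ℂ) * (((incl O H b).coeff 1 : O) : ℂ) = (Sb.n : ℂ) ^ 2 * q ∧
      Sb.n.factorization 2 + q.factorization 2 = (Nat.card H).factorization 2 ∧
      (∀ x, IsLocalRing.residue O ((incl O H b + inv' (incl O H b)).coeff x) ≠ 0 →
        ∀ P : Subgroup G, P ≤ H → IsPGroup 2 P → (∀ d ∈ P, d * x * d⁻¹ = x) →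
          Nat.card P ≤ q) ∧
      (∀ x, ∀ P Q : Subgroup G,
        IsLocalRing.residue O ((incl O H b + inv' (incl O H b)).coeff x) ≠ 0 → P ≤ H →
        P ≤ Q → IsPGroup 2 Q → (∀ t ∈ Q, t ∉ P → z⁻¹ * t ∈ H ∧ t ∉ H) →
        (∀ t ∈ Q, ∀ t' ∈ Q, t ∉ P → t' ∉ P → t * t' ∈ P) →
        Nat.card Q = 2 * Nat.card P → PairIn P Q x → Nat.card P = q →
        ∑ g ∈ Finset.univ.filter (fun g : G => z⁻¹ * g ∈ H),
          (((incl O H b).coeff (g * g) : O) : ℂ) =
          Sb.n * (Nat.card {y : G // y ∈ Q ∧ y ∉ P ∧ y * y = 1} : ℂ)) := by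
  have : IsAlgClosed (resK O) := resK_isAlgClosed O
  obtain ⟨hb0, hbb, hbc, hbp⟩ := id hb
  set F := incl O H b with hF
  have hFi : F * F = F := by rw [hF, ← map_mul, hbb]
  have hFs : ∀ g, g ∉ H → F.coeff g = 0 := fun g hg => incl_supp H b hg
  have hcH : ∀ g ∈ H, cj g F = F := by
    intro g hg
    rw [cj_eq_iff, hF]
    have h1 := congrArg (incl O H) (hbc (el O ⟨g, hg⟩))
    rw [map_mul, map_mul, incl_el] at h1
    exact h1
  have hF0 : F ≠ 0 := by
    intro h
    apply hb0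
    exact incl_injective H (by rw [← hF, h, map_zero])
  have hzH : z ∉ H := by
    intro h
    apply hF0
    rw [← hFi]
    nth_rewrite 2 [← hcH z h]
    rw [hz, hFF]
  set K := ext2 H hH z hzz with hK
  have hmK : ∀ g, g ∈ K ↔ g ∈ H ∨ z⁻¹ * g ∈ H := fun g => Iff.rfl
  have hle : H ≤ K := fun g hg => Or.inl hg
  have hzK : z ∈ K := Or.inr (by rw [inv_mul_cancel]; exact H.one_mem)
  have hidx : (H.subgroupOf K).index = 2 := by
    rw [Subgroup.index_eq_two_iff]
    refine ⟨⟨z, hzK⟩, ?_⟩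
    rintro ⟨c, hcK⟩
    rw [Subgroup.mem_subgroupOf, Subgroup.mem_subgroupOf]
    simp only [Subgroup.coe_mul]
    by_cases hcH' : c ∈ H
    · right
      refine ⟨hcH', fun h => hzH ?_⟩
      have := H.mul_mem (H.inv_mem hcH') h
      rwa [inv_mul_cancel_left] at this
    · left
      refine ⟨?_, hcH'⟩
      rcases hcK with h | h
      · exact absurd h hcH'
      · have h1 : c * z = (z * z) * (z⁻¹ * (z⁻¹ * c) * z⁻¹⁻¹) := by group
        rw [h1]
        exact H.mul_mem hzz (hH.conj_mem _ h z⁻¹)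
  have hKc : ∀ k ∈ K, k ∉ H → cj k F = inv' F := by
    intro k hk hkH
    rcases hk with h | h
    · exact absurd h hkH
    · have h1 : k = z * (z⁻¹ * k) := by group
      rw [h1, ← cj_cj, hcH _ h, hz]
  have hid := hNK K hle hidx hKc
  -- the block of `K`
  set HK := H.subgroupOf K with hHK
  set bK := trE hle O b with hbK
  have hblK : IsBlock bK := isBlock_trE hle hb
  set FK := incl O HK bK with hFK
  have hinc : incl O K FK = F := incl_incl hle b
  have hinc' : incl O K (inv' FK) = inv' F := by rw [← incl_inv', hinc]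
  have hres : res K (F + inv' F) = FK + inv' FK := by
    rw [← hinc', ← hinc, ← map_add, res_incl]
  rw [hres] at hid
  obtain ⟨SK, hid⟩ := hid
  obtain ⟨SbK, hSbK⟩ : ∃ S' : SimpleQuot (toK O HK bK), S'.n = Sb.n := by
    rw [hbK, toK_trE]
    exact ⟨sqE hle Sb, rfl⟩
  have hFFK : FK * inv' FK = 0 := by
    apply incl_injective K
    rw [map_mul, hinc, hinc', hFF, map_zero]
  have hcK : ∀ g, g ∉ HK → cj g FK = inv' FK := by
    intro g hg
    apply incl_injective K
    rw [← incl_cj', hinc, hinc']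
    exact hKc g g.2 (fun h => hg (Subgroup.mem_subgroupOf.2 h))
  have hexK : ∃ g, g ∉ HK := ⟨⟨z, hzK⟩, fun h => hzH (Subgroup.mem_subgroupOf.1 h)⟩
  have hbl := isBlock_two bK hblK hFFK hcK hexK
  obtain ⟨he0, he, hec, -⟩ := id hbl
  have her : inv' (FK + inv' FK) = FK + inv' FK := by rw [inv'_add, inv'_inv', add_comm]
  obtain ⟨w, hw, hwr⟩ := exists_real_class O h2 _ he hec her SK
  obtain ⟨P, Q, hPQ⟩ := exists_pair w
  obtain ⟨h3, h4⟩ := two_num O h2 hidx bK hblK SbK hFFK hcK SK hw hwr hPQ.2.2.2.1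
  have hcardH : Nat.card HK = Nat.card H :=
    Nat.card_congr (Subgroup.subgroupOfEquivOfLe hle).toEquiv
  have hcoef : ∀ k : K, FK.coeff k = F.coeff (k : G) := fun k => by rw [← hinc, incl_coeff]
  have hcoef' : ∀ k : K, (FK + inv' FK).coeff k = (F + inv' F).coeff (k : G) := by
    intro k
    have h5 := incl_coeff K (FK + inv' FK) k
    rw [map_add, hinc, hinc'] at h5
    exact h5.symm
  have hxH : ∀ x, IsLocalRing.residue O ((F + inv' F).coeff x) ≠ 0 → x ∈ H := by
    intro x hx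
    by_contra hcon
    apply hx
    rw [MonoidAlgebra.coeff_add, Finsupp.add_apply, inv'_coeff, hFs x hcon,
      hFs x⁻¹ (fun h => hcon (by simpa using H.inv_mem h)), add_zero, map_zero]
  have hcs : ∀ A : Subgroup G, A ≤ K → Nat.card (A.subgroupOf K) = Nat.card A := fun A hA =>
    Nat.card_congr (Subgroup.subgroupOfEquivOfLe hA).toEquiv
  refine ⟨Nat.card P, ⟨_, hPQ.2.2.2.1⟩, ?_, ?_, ?_, ?_⟩
  · rw [← hcardH, ← hSbK, ← h3]
    congr 2
    rw [hcoef]
    rfl
  · rw [← hcardH, ← hSbK, ← h4]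
  · intro x hx P0 hP0 h2P hcom
    have h5 := (pair_emb O h2 _ he hec her SK (x := ⟨x, hle (hxH x hx)⟩)
      (by rw [hcoef']; exact hx) hw hwr hPQ (D := P0.subgroupOf K) (E := P0.subgroupOf K)
      (by rw [Subgroup.subgroupOf]; exact h2P.comap_subtype) le_rfl
      (fun t ht t' _ hn _ => absurd ht hn)
      ⟨fun d hd => Subtype.ext (hcom d (Subgroup.mem_subgroupOf.1 hd)),
        fun t ht hn => absurd ht hn⟩).1
    rwa [hcs P0 (hP0.trans hle)] at h5
  · intro x P0 Q0 hx hP0 hPQ0 h2Q hQz hidx0 hcQ hPin hq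
    have hQK : Q0 ≤ K := by
      intro t ht
      by_cases h : t ∈ P0
      · exact hle (hP0 h)
      · exact Or.inr (hQz t ht h).1
    have hPK : P0 ≤ K := hPQ0.trans hQK
    obtain ⟨h5, h6, h7⟩ := pair_emb O h2 _ he hec her SK (x := ⟨x, hle (hxH x hx)⟩)
      (by rw [hcoef']; exact hx) hw hwr hPQ (D := P0.subgroupOf K) (E := Q0.subgroupOf K)
      (by rw [Subgroup.subgroupOf]; exact h2Q.comap_subtype)
      (fun t ht => Subgroup.mem_subgroupOf.2 (hPQ0 (Subgroup.mem_subgroupOf.1 ht)))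
      (fun t ht t' ht' hn hn' => Subgroup.mem_subgroupOf.2
        (hidx0 t (Subgroup.mem_subgroupOf.1 ht) t' (Subgroup.mem_subgroupOf.1 ht')
          (fun h => hn (Subgroup.mem_subgroupOf.2 h)) (fun h => hn' (Subgroup.mem_subgroupOf.2 h))))
      ⟨fun d hd => Subtype.ext (hPin.1 d (Subgroup.mem_subgroupOf.1 hd)),
        fun t ht hn => Subtype.ext (hPin.2 t (Subgroup.mem_subgroupOf.1 ht)
          (fun h => hn (Subgroup.mem_subgroupOf.2 h)))⟩
    rw [hcs P0 hPK] at h5 h7
    rw [hcs Q0 hQK] at h6 h7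
    have hPpos : 0 < Nat.card P := Nat.card_pos
    have hne : P ≠ Q := by
      rintro rfl
      omega
    have hcPQ := card_of_pair hPQ hne
    obtain ⟨g, hg1, hg2⟩ := h7 (by omega) (by omega)
    have hsum := two_sum' O h2 hidx bK hblK SbK hFFK hcK SK _ (hid w P Q hw hPQ hne)
    have hs1 : ∑ g ∈ Finset.univ.filter (fun g : K => g ∉ HK), ((FK.coeff (g * g) : O) : ℂ) =
        ∑ g ∈ Finset.univ.filter (fun g : G => z⁻¹ * g ∈ H), ((F.coeff (g * g) : O) : ℂ) := by
      refine Finset.sum_bij (fun (k : K) _ => (k : G)) ?_ ?_ ?_ ?_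
      · intro k hk
        simp only [Finset.mem_filter, Finset.mem_univ, true_and] at hk ⊢
        rcases k.2 with h | h
        · exact absurd (Subgroup.mem_subgroupOf.2 h) hk
        · exact h
      · intro k _ k' _ h
        exact Subtype.ext h
      · intro g hg
        simp only [Finset.mem_filter, Finset.mem_univ, true_and] at hg
        refine ⟨⟨g, Or.inr hg⟩, ?_, rfl⟩
        simp only [Finset.mem_filter, Finset.mem_univ, true_and]
        intro h
        have h8 : g ∈ H := Subgroup.mem_subgroupOf.1 h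
        apply hzH
        have h9 := H.mul_mem h8 (H.inv_mem hg)
        have h10 : g * (z⁻¹ * g)⁻¹ = z := by group
        rwa [h10] at h9
      · intro k _
        rw [hcoef]
        rfl
    rw [hs1, hSbK] at hsum
    rw [hsum]
    congr 2
    refine (Nat.card_congr ?_).symm
    refine { toFun := fun y => ⟨g * ⟨y.1, hQK y.2.1⟩ * g⁻¹, ?_⟩,
             invFun := fun y => ⟨((g⁻¹ * y.1 * g : K) : G), ?_⟩,
             left_inv := ?_, right_inv := ?_ }
    · refine ⟨(hg2 _).1 (Subgroup.mem_subgroupOf.2 y.2.1), ?_, ?_⟩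
      · intro h
        exact y.2.2.1 (Subgroup.mem_subgroupOf.1 ((hg1 _).2 h))
      · have h8 : (⟨y.1, hQK y.2.1⟩ : K) * ⟨y.1, hQK y.2.1⟩ = 1 := Subtype.ext y.2.2.2
        calc g * ⟨y.1, hQK y.2.1⟩ * g⁻¹ * (g * ⟨y.1, hQK y.2.1⟩ * g⁻¹) =
            g * ((⟨y.1, hQK y.2.1⟩ : K) * ⟨y.1, hQK y.2.1⟩) * g⁻¹ := by group
          _ = 1 := by rw [h8]; group
    · have h8 : g * (g⁻¹ * y.1 * g) * g⁻¹ = y.1 := by group
      refine ⟨Subgroup.mem_subgroupOf.1 ((hg2 (g⁻¹ * y.1 * g)).2 (by rw [h8]; exact y.2.1)), ?_, ?_⟩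
      · intro h
        have h9 := (hg1 (g⁻¹ * y.1 * g)).1 (Subgroup.mem_subgroupOf.2 h)
        rw [h8] at h9
        exact y.2.2.1 h9
      · have h9 : (g⁻¹ * y.1 * g) * (g⁻¹ * y.1 * g) = 1 := by
          calc (g⁻¹ * y.1 * g) * (g⁻¹ * y.1 * g) = g⁻¹ * (y.1 * y.1) * g := by group
            _ = 1 := by rw [y.2.2.2]; group
        exact congrArg (fun k : K => (k : G)) h9
    · intro y
      apply Subtype.ext
      change ((g⁻¹ * (g * ⟨y.1, hQK y.2.1⟩ * g⁻¹) * g : K) : G) = y.1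
      have h8 : g⁻¹ * (g * (⟨y.1, hQK y.2.1⟩ : K) * g⁻¹) * g = ⟨y.1, hQK y.2.1⟩ := by group
      rw [h8]
    · intro y
      apply Subtype.ext
      change g * (g⁻¹ * y.1 * g) * g⁻¹ = y.1
      group

/-- The data exist as soon as there is an extension. -/
theorem dat_of' (hNK : IdExt O b)
    (hz : ∃ z, cj z (incl O H b) = inv' (incl O H b) ∧ z * z ∈ H) :
    ∃ q, Dat O H (incl O H b) Sb.n q := by
  obtain ⟨z0, hz0, hzz0⟩ := hz
  obtain ⟨q, hq1, hq2, hq3, hq4, -⟩ := dat_z' O h2 hH b hb Sb hFF hNK z0 hz0 hzz0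
  refine ⟨q, hq1, hq2, hq3, hq4, ?_⟩
  intro z hz hzz x P Q hx hPH hPQ h2Q hQz hidx hcQ hPin hqP
  obtain ⟨q', -, hq2', -, -, hq5⟩ := dat_z' O h2 hH b hb Sb hFF hNK z hz hzz
  have hqq : q' = q := by
    have h1 : ((Sb.n : ℂ) ^ 2 * q' : ℂ) = (Sb.n : ℂ) ^ 2 * q := by rw [← hq2, ← hq2']
    have hn : (Sb.n : ℂ) ^ 2 ≠ 0 := pow_ne_zero 2 (Nat.cast_ne_zero.2 Sb.pos.ne')
    exact_mod_cast mul_left_cancel₀ hn h1
  exact hq5 x P Q hx hPH hPQ h2Q hQz hidx hcQ hPin (by rw [hqP, hqq])

end dat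

end Pool.Agent.Helper36.NC
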